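import Pool.Agent.Helper51.TDC.Count

/-!
# Theorem D, core part 7: the minimal non-list set is `S`
-/

set_option autoImplicit false

namespace Pool.Agent.Helper51.TDC

open SimpleGraph Pool.Agent.Helper57.TOK Pool.Agent.Helper57.TD

variable {V : Type*}

private lemma layer_pair {P : V → Prop} {A : Set V} (h2 : {v | v ∈ A ∧ P v}.ncard = 2) {a : V}
    (ha : a ∈ A) (hPa : P a) : ∃ b ∈ A, b ≠ a ∧ ∀ v ∈ A, (P v ↔ v = a ∨ v = b) := by
  obtain ⟨x, y, hxy, hs⟩ := Set.ncard_eq_two.1 h2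
  have hiff : ∀ v, (v ∈ A ∧ P v) ↔ (v = x ∨ v = y) := fun v => by
    have := Set.ext_iff.1 hs v
    simpa using this
  rcases (hiff a).1 ⟨ha, hPa⟩ with rfl | rfl
  · refine ⟨y, ((hiff y).2 (Or.inr rfl)).1, hxy.symm, fun v hv => ?_⟩
    exact ⟨fun h => (hiff v).1 ⟨hv, h⟩, fun h => ((hiff v).2 h).2⟩
  · refine ⟨x, ((hiff x).2 (Or.inl rfl)).1, hxy, fun v hv => ?_⟩
    exact ⟨fun h => ((hiff v).1 ⟨hv, h⟩).symm, fun h => ((hiff v).2 h.symm).2⟩

private lemma layer_four {a b c d : V} (hab : a ≠ b) (hac : a ≠ c) (had : a ≠ d) (hbc : b ≠ c)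
    (hbd : b ≠ d) (hcd : c ≠ d) : ({a, b, c, d} : Set V).ncard = 4 := by
  rw [Set.ncard_insert_of_notMem (by simp [hab, hac, had]) (Set.toFinite _),
    Set.ncard_insert_of_notMem (by simp [hbc, hbd]) (Set.toFinite _), Set.ncard_pair hcd]

private lemma layer_three {a b c : V} (hab : a ≠ b) (hac : a ≠ c) (hbc : b ≠ c) :
    ({a, b, c} : Set V).ncard = 3 := by
  rw [Set.ncard_insert_of_notMem (by simp [hab, hac]) (Set.toFinite _), Set.ncard_pair hbc]

private lemma layer_eq_four [Finite V] {A : Set V} (hA : A.ncard = 4) {a b c d : V} (ha : a ∈ A)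
    (hb : b ∈ A) (hc : c ∈ A) (hd : d ∈ A) (hab : a ≠ b) (hac : a ≠ c) (had : a ≠ d) (hbc : b ≠ c)
    (hbd : b ≠ d) (hcd : c ≠ d) : A = {a, b, c, d} := by
  refine (Set.eq_of_subset_of_ncard_le ?_ ?_ (Set.toFinite _)).symm
  · intro v hv
    simp only [Set.mem_insert_iff, Set.mem_singleton_iff] at hv
    rcases hv with rfl | rfl | rfl | rfl <;> assumption
  · rw [hA, layer_four hab hac had hbc hbd hcd]

/-- The 8-cycle. -/
private lemma layer_cycle [Finite V] {Z : SimpleGraph V} {K N : Set V} (hK4 : K.ncard = 4)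
    (hN4 : N.ncard = 4)
    (hk : ∀ k ∈ K, {v | v ∈ N ∧ Z.Adj k v}.ncard = 2)
    (hn : ∀ n ∈ N, {v | v ∈ K ∧ Z.Adj v n}.ncard = 2)
    (hd : ∀ k ∈ K, ∀ k' ∈ K, k ≠ k' → ¬ ∀ n ∈ N, (Z.Adj k n ↔ Z.Adj k' n)) :
    ∃ k1 k2 k3 k4 n1 n2 n3 n4, K = {k1, k2, k3, k4} ∧ N = {n1, n2, n3, n4} ∧
      k1 ≠ k2 ∧ k1 ≠ k3 ∧ k1 ≠ k4 ∧ k2 ≠ k3 ∧ k2 ≠ k4 ∧ k3 ≠ k4 ∧
      n1 ≠ n2 ∧ n1 ≠ n3 ∧ n1 ≠ n4 ∧ n2 ≠ n3 ∧ n2 ≠ n4 ∧ n3 ≠ n4 ∧
      (∀ n ∈ N, (Z.Adj k1 n ↔ n = n1 ∨ n = n2)) ∧ (∀ n ∈ N, (Z.Adj k2 n ↔ n = n2 ∨ n = n3)) ∧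
      (∀ n ∈ N, (Z.Adj k3 n ↔ n = n3 ∨ n = n4)) ∧ (∀ n ∈ N, (Z.Adj k4 n ↔ n = n4 ∨ n = n1)) := by
  obtain ⟨k1, hk1⟩ : K.Nonempty := by
    rw [← Set.ncard_pos (Set.toFinite _), hK4]; norm_num
  obtain ⟨n2, hn2, e12⟩ : {v | v ∈ N ∧ Z.Adj k1 v}.Nonempty := by
    rw [← Set.ncard_pos (Set.toFinite _), hk k1 hk1]; norm_num
  obtain ⟨n1, hn1, n12, a1⟩ := layer_pair (hk k1 hk1) hn2 e12
  obtain ⟨k2, hk2, k21, b2⟩ := layer_pair (P := fun v => Z.Adj v n2) (hn n2 hn2) hk1 e12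
  have e22 : Z.Adj k2 n2 := (b2 k2 hk2).2 (Or.inr rfl)
  obtain ⟨n3, hn3, n32, a2⟩ := layer_pair (hk k2 hk2) hn2 e22
  have e23 : Z.Adj k2 n3 := (a2 n3 hn3).2 (Or.inr rfl)
  have n31 : n3 ≠ n1 := by
    rintro rfl
    exact hd k2 hk2 k1 hk1 k21 fun n hn' => (a2 n hn').trans (a1 n hn').symm
  obtain ⟨k3, hk3, k32, b3⟩ := layer_pair (P := fun v => Z.Adj v n3) (hn n3 hn3) hk2 e23
  have e33 : Z.Adj k3 n3 := (b3 k3 hk3).2 (Or.inr rfl)
  have k31 : k3 ≠ k1 := by
    rintro rfl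
    rcases (a1 n3 hn3).1 e33 with h | h
    · exact n32 h
    · exact n31 h
  obtain ⟨n4, hn4, n43, a3⟩ := layer_pair (hk k3 hk3) hn3 e33
  have e34 : Z.Adj k3 n4 := (a3 n4 hn4).2 (Or.inr rfl)
  have n42 : n4 ≠ n2 := by
    rintro rfl
    rcases (b2 k3 hk3).1 e34 with h | h
    · exact k31 h
    · exact k32 h
  have e11 : Z.Adj k1 n1 := (a1 n1 hn1).2 (Or.inr rfl)
  have n41 : n4 ≠ n1 := by
    intro h41
    rw [h41] at e34
    obtain ⟨k, hkK, hk'⟩ : ∃ k ∈ K, k ∉ ({k1, k2, k3} : Set V) := by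
      by_contra hcon
      push Not at hcon
      have h1 := Set.ncard_le_ncard (show K ⊆ {k1, k2, k3} from hcon) (Set.toFinite _)
      rw [hK4, layer_three k21.symm k31.symm k32.symm] at h1
      omega
    simp only [Set.mem_insert_iff, Set.mem_singleton_iff, not_or] at hk'
    obtain ⟨hka, hkb, hkc⟩ := hk'
    obtain ⟨v, hv, w, hw, hvw⟩ : ∃ v, (v ∈ N ∧ Z.Adj k v) ∧ ∃ w, (w ∈ N ∧ Z.Adj k w) ∧ v ≠ w := by
      obtain ⟨x, y, hxy, hs⟩ := Set.ncard_eq_two.1 (hk k hkK)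
      have hx : x ∈ {v | v ∈ N ∧ Z.Adj k v} := by rw [hs]; simp
      have hy : y ∈ {v | v ∈ N ∧ Z.Adj k v} := by rw [hs]; simp
      exact ⟨x, hx, y, hy, hxy⟩
    obtain ⟨c, hc, hc1, b1⟩ := layer_pair (P := fun v => Z.Adj v n1) (hn n1 hn1) hk1 e11
    have hck3 : c = k3 := by
      rcases (b1 k3 hk3).1 e34 with h | h
      · exact absurd h k31
      · exact h.symm
    have key : ∀ v ∈ N, Z.Adj k v → v ≠ n1 ∧ v ≠ n2 ∧ v ≠ n3 := by
      intro v hv hav
      refine ⟨?_, ?_, ?_⟩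
      · rintro rfl
        rcases (b1 k hkK).1 hav with h | h
        · exact hka h
        · exact hkc (h.trans hck3)
      · rintro rfl
        rcases (b2 k hkK).1 hav with h | h
        · exact hka h
        · exact hkb h
      · rintro rfl
        rcases (b3 k hkK).1 hav with h | h
        · exact hkb h
        · exact hkc h
    have h1 := key v hv.1 hv.2
    have h2 := key w hw.1 hw.2
    have h3 : ({n1, n2, n3, v} : Set V) = N := (layer_eq_four hN4 hn1 hn2 hn3 hv.1 n12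
      n31.symm h1.1.symm n32.symm h1.2.1.symm h1.2.2.symm).symm
    have h4 : w ∈ ({n1, n2, n3, v} : Set V) := by rw [h3]; exact hw.1
    simp only [Set.mem_insert_iff, Set.mem_singleton_iff] at h4
    rcases h4 with h4 | h4 | h4 | h4
    · exact h2.1 h4
    · exact h2.2.1 h4
    · exact h2.2.2 h4
    · exact hvw h4.symm
  obtain ⟨k4, hk4, k43, b4⟩ := layer_pair (P := fun v => Z.Adj v n4) (hn n4 hn4) hk3 e34
  have e44 : Z.Adj k4 n4 := (b4 k4 hk4).2 (Or.inr rfl)
  have k41 : k4 ≠ k1 := by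
    rintro rfl
    rcases (a1 n4 hn4).1 e44 with h | h
    · exact n42 h
    · exact n41 h
  have k42 : k4 ≠ k2 := by
    rintro rfl
    rcases (a2 n4 hn4).1 e44 with h | h
    · exact n42 h
    · exact n43 h
  obtain ⟨m, hm, hm4, a4⟩ := layer_pair (hk k4 hk4) hn4 e44
  have e4m : Z.Adj k4 m := (a4 m hm).2 (Or.inr rfl)
  have hNeq : N = {n1, n2, n3, n4} := layer_eq_four hN4 hn1 hn2 hn3 hn4 n12 n31.symm
    n41.symm n32.symm n42.symm n43.symm
  have hm1 : m = n1 := by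
    have h1 : m ∈ ({n1, n2, n3, n4} : Set V) := by rw [← hNeq]; exact hm
    simp only [Set.mem_insert_iff, Set.mem_singleton_iff] at h1
    rcases h1 with h1 | h1 | h1 | h1
    · exact h1
    · rw [h1] at e4m
      rcases (b2 k4 hk4).1 e4m with h | h
      · exact absurd h k41
      · exact absurd h k42
    · rw [h1] at e4m
      rcases (b3 k4 hk4).1 e4m with h | h
      · exact absurd h k42
      · exact absurd h k43
    · exact absurd h1 hm4
  refine ⟨k1, k2, k3, k4, n1, n2, n3, n4, layer_eq_four hK4 hk1 hk2 hk3 hk4 k21.symm k31.symm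
    k41.symm k32.symm k42.symm k43.symm, hNeq, k21.symm, k31.symm, k41.symm, k32.symm, k42.symm,
    k43.symm, n12, n31.symm, n41.symm, n32.symm, n42.symm, n43.symm, ?_, a2, a3, ?_⟩
  · intro n hn'
    rw [a1 n hn', or_comm]
  · intro n hn'
    rw [a4 n hn', hm1]

/-- The layer exists if `X ≠ S`. -/
theorem exists_L5 [Finite V] {Z : SimpleGraph V} {κ : V → ZMod 2} {S T : Set V}
    (h : Core Z κ S T) {X : Set V} (hX : MinX Z S X) (hs : Star Z X) (hne : X ≠ S) :
    ∃ z k1 k2 k3 k4 n1 n2 n3 n4, IsL5 Z X z k1 k2 k3 k4 n1 n2 n3 n4 := by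
  have hf0 := h.P2 X hX.sub hne hX.four
  have hb := beta_le κ (Nb Z X)
  rw [hX.four] at hb
  obtain ⟨hf, hK4, hK, hR, hN⟩ := layer_count h hX hs (by push_cast at hb; linarith)
  have hmono : Mono κ (Nb Z X) := by
    by_contra hm
    rw [hf, beta_of_not_mono hm, hX.four] at hf0
    norm_num at hf0
  set K := Cub Z X with hKdef
  have hKX : K ⊆ X := fun v hv => hv.1
  have hKne : K.Nonempty := by
    rw [← Set.ncard_pos (Set.toFinite _), hK4]; norm_num
  -- no edges inside `K`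
  have hKK : ∀ u ∈ K, ∀ v ∈ K, ¬ Z.Adj u v := by
    intro u hu v hv huv
    obtain ⟨a, ha⟩ : (Z.neighborSet u ∩ Nb Z X).Nonempty := by
      rw [← Set.ncard_pos (Set.toFinite _), (hK u hu).1]; norm_num
    obtain ⟨b, hb'⟩ : (Z.neighborSet v ∩ Nb Z X).Nonempty := by
      rw [← Set.ncard_pos (Set.toFinite _), (hK v hv).1]; norm_num
    have h1 : κ u ≠ κ a := h.ne_of_adj ha.1
    have h2 : κ v ≠ κ b := h.ne_of_adj hb'.1
    have h3 : κ a = κ b := hmono a ha.2 b hb'.2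
    exact h.ne_of_adj huv (eq_of_ne_of_ne h1 (h3 ▸ h2))
  have hRne : (X \ K).Nonempty := by
    obtain ⟨k, hk⟩ := hKne
    obtain ⟨u, hu⟩ : (Z.neighborSet k ∩ X).Nonempty := by
      rw [← Set.ncard_pos (Set.toFinite _), (hK k hk).2]; norm_num
    exact ⟨u, hu.2, fun huK => hKK k hk u huK hu.1⟩
  have hNbR : Nb Z (X \ K) ⊆ K := by
    rintro v ⟨hv1, u, hu, huv⟩
    have hvX : v ∈ X := (hR u hu).2 huv
    by_contra hvK
    exact hv1 ⟨hvX, hvK⟩
  have hR1 : (X \ K).ncard = 1 := by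
    have hpos : 0 < (X \ K).ncard := (Set.ncard_pos (Set.toFinite _)).2 hRne
    by_contra hne1
    have h2 : 2 ≤ (X \ K).ncard := by omega
    have h3 := h.P1 (X \ K) (Set.sdiff_subset.trans hX.sub) h2
    have h4 := Set.ncard_le_ncard hNbR (Set.toFinite _)
    have h5 : IsLL Z (X \ K) := by
      refine hX.min _ Set.sdiff_subset ?_ hRne (by omega)
      intro heq
      obtain ⟨k, hk⟩ := hKne
      have : k ∈ X \ K := by rw [heq]; exact hKX hk
      exact this.2 hk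
    obtain ⟨d, hd, hd3⟩ := LL_cubic h5 h2
    exact hd.2 ⟨hd.1, hd3⟩
  obtain ⟨z, hz⟩ := Set.ncard_eq_one.1 hR1
  have hzR : z ∈ X \ K := by rw [hz]; rfl
  have hzX : z ∈ X := hzR.1
  have hXz : ∀ v, v ∈ X ↔ v = z ∨ v ∈ K := by
    intro v
    constructor
    · intro hv
      by_cases hvK : v ∈ K
      · exact Or.inr hvK
      · have : v ∈ X \ K := ⟨hv, hvK⟩
        rw [hz] at this
        exact Or.inl this
    · rintro (rfl | hv)
      · exact hzX
      · exact hKX hv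
  have hNz : Z.neighborSet z = K := by
    have hsub : Z.neighborSet z ⊆ K := by
      intro v hv
      rcases (hXz v).1 ((hR z hzR).2 hv) with h1 | h1
      · rw [h1] at hv
        exact absurd rfl hv.ne
      · exact h1
    refine Set.eq_of_subset_of_ncard_le hsub ?_ (Set.toFinite _)
    rw [hK4, (hR z hzR).1]
  have hzk : ∀ k ∈ K, Z.Adj k z := by
    intro k hk
    have : k ∈ Z.neighborSet z := by rw [hNz]; exact hk
    exact this.symm
  have hkX : ∀ k ∈ K, ∀ v ∈ X, Z.Adj k v → v = z := by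
    intro k hk v hv hkv
    rcases (hXz v).1 hv with h1 | h1
    · exact h1
    · exact absurd hkv (hKK k hk v h1)
  have hzN : z ∉ Nb Z X := fun hh => hh.1 hzX
  -- the neighbourhoods of the elements of `K`
  have hNk : ∀ k ∈ K, ∀ a b, a ∈ Nb Z X → b ∈ Nb Z X →
      (∀ n ∈ Nb Z X, (Z.Adj k n ↔ n = a ∨ n = b)) → Z.neighborSet k = {z, a, b} := by
    intro k hk a b ha hb' hab
    ext v
    simp only [Set.mem_insert_iff, Set.mem_singleton_iff, SimpleGraph.mem_neighborSet]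
    constructor
    · intro hv
      rcases mem_or_Nb (hKX hk) hv with h1 | h1
      · exact Or.inl (hkX k hk v h1 hv)
      · exact Or.inr ((hab v h1).1 hv)
    · rintro (rfl | h1 | h1)
      · exact hzk k hk
      · rw [h1]; exact (hab a ha).2 (Or.inl rfl)
      · rw [h1]; exact (hab b hb').2 (Or.inr rfl)
  obtain ⟨k1, k2, k3, k4, n1, n2, n3, n4, hKeq, hNeq, k12, k13, k14, k23, k24, k34, n12, n13, n14,
    n23, n24, n34, a1, a2, a3, a4⟩ := layer_cycle (Z := Z) hK4 hX.four (by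
      intro k hk
      rw [← (hK k hk).1]
      congr 1
      ext v
      exact and_comm) (by
      intro n hn
      rw [← hN n hn]
      congr 1
      ext v
      simp only [Set.mem_ofPred_eq, Set.mem_inter_iff, SimpleGraph.mem_neighborSet]
      constructor
      · rintro ⟨h1, h2⟩
        exact ⟨h2.symm, hKX h1⟩
      · rintro ⟨h1, h2⟩
        refine ⟨?_, h1.symm⟩
        rcases (hXz v).1 h2 with h3 | h3
        · exfalso
          rw [h3] at h1
          have : n ∈ Z.neighborSet z := h1.symm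
          rw [hNz] at this
          exact hn.1 (hKX this)
        · exact h3) (by
      intro k hk k' hk' hkk hall
      refine h.T3 k' k (hX.sub (hKX hk)) hkk.symm hk.2 ?_
      intro v hv
      rcases mem_or_Nb (hKX hk) hv with h1 | h1
      · rw [hkX k hk v h1 hv]
        exact hzk k' hk'
      · exact (hall v h1).1 hv)
  have mK : ∀ v, v ∈ K ↔ v = k1 ∨ v = k2 ∨ v = k3 ∨ v = k4 := by
    intro v; rw [hKeq]; simp
  have mN : ∀ v, v ∈ Nb Z X ↔ v = n1 ∨ v = n2 ∨ v = n3 ∨ v = n4 := by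
    intro v; rw [hNeq]; simp
  have q1 : n1 ∈ Nb Z X := (mN n1).2 (by simp)
  have q2 : n2 ∈ Nb Z X := (mN n2).2 (by simp)
  have q3 : n3 ∈ Nb Z X := (mN n3).2 (by simp)
  have q4 : n4 ∈ Nb Z X := (mN n4).2 (by simp)
  refine ⟨z, k1, k2, k3, k4, n1, n2, n3, n4, ?_, by rw [hNz, hKeq],
    hNk k1 ((mK k1).2 (by simp)) n1 n2 q1 q2 a1, hNk k2 ((mK k2).2 (by simp)) n2 n3 q2 q3 a2,
    hNk k3 ((mK k3).2 (by simp)) n3 n4 q3 q4 a3, hNk k4 ((mK k4).2 (by simp)) n4 n1 q4 q1 a4,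
    hNeq, k12, k13, k14, k23, k24, k34, n12, n13, n14, n23, n24, n34⟩
  ext v
  rw [hXz v, mK v]
  simp

/-- One fold in a layer. -/
theorem L5_fold [Finite V] {Z : SimpleGraph V} {κ : V → ZMod 2} {S T : Set V}
    (h : Core Z κ S T) {X : Set V} (hXS : X ⊆ S) {z k1 k2 k3 k4 n1 n2 n3 n4 : V}
    (hL : IsL5 Z X z k1 k2 k3 k4 n1 n2 n3 n4) :
    ∃ s, s ∉ X ∧ S = insert s X ∧ Z.neighborSet s = {n1, n3, n4} := by
  have mX : ∀ v, v ∈ X ↔ v = z ∨ v = k1 ∨ v = k2 ∨ v = k3 ∨ v = k4 := by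
    intro v; rw [hL.eq]; simp
  have mN : ∀ v, v ∈ Nb Z X ↔ v = n1 ∨ v = n2 ∨ v = n3 ∨ v = n4 := by
    intro v; rw [hL.NX]; simp
  have az : ∀ v, Z.Adj z v ↔ v = k1 ∨ v = k2 ∨ v = k3 ∨ v = k4 := by
    intro v; rw [← SimpleGraph.mem_neighborSet, hL.Nz]; simp
  have ak1 : ∀ v, Z.Adj k1 v ↔ v = z ∨ v = n1 ∨ v = n2 := by
    intro v; rw [← SimpleGraph.mem_neighborSet, hL.Nk1]; simp
  have ak2 : ∀ v, Z.Adj k2 v ↔ v = z ∨ v = n2 ∨ v = n3 := by
    intro v; rw [← SimpleGraph.mem_neighborSet, hL.Nk2]; simp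
  have ak3 : ∀ v, Z.Adj k3 v ↔ v = z ∨ v = n3 ∨ v = n4 := by
    intro v; rw [← SimpleGraph.mem_neighborSet, hL.Nk3]; simp
  have ak4 : ∀ v, Z.Adj k4 v ↔ v = z ∨ v = n4 ∨ v = n1 := by
    intro v; rw [← SimpleGraph.mem_neighborSet, hL.Nk4]; simp
  have xz : z ∈ X := (mX z).2 (by simp)
  have x1 : k1 ∈ X := (mX k1).2 (by simp)
  have x2 : k2 ∈ X := (mX k2).2 (by simp)
  have x3 : k3 ∈ X := (mX k3).2 (by simp)
  have x4 : k4 ∈ X := (mX k4).2 (by simp)
  have q1 : n1 ∈ Nb Z X := (mN n1).2 (by simp)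
  have q2 : n2 ∈ Nb Z X := (mN n2).2 (by simp)
  have q3 : n3 ∈ Nb Z X := (mN n3).2 (by simp)
  have q4 : n4 ∈ Nb Z X := (mN n4).2 (by simp)
  have hXN : ∀ u v, u ∈ X → v ∈ Nb Z X → u ≠ v := by
    rintro u v hu hv rfl
    exact hv.1 hu
  have zk1 : z ≠ k1 := ((az k1).2 (by simp)).ne
  have zk2 : z ≠ k2 := ((az k2).2 (by simp)).ne
  have zk3 : z ≠ k3 := ((az k3).2 (by simp)).ne
  have zk4 : z ≠ k4 := ((az k4).2 (by simp)).ne
  have hN4 : (Nb Z X).ncard = 4 := by
    rw [hL.NX]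
    exact layer_four hL.n12 hL.n13 hL.n14 hL.n23 hL.n24 hL.n34
  -- not adjacent
  have m21 : ¬ Z.Adj n1 k2 := by
    intro hh
    rcases (ak2 n1).1 hh.symm with h1 | h1 | h1
    · exact hXN z n1 xz q1 h1.symm
    · exact hL.n12 h1
    · exact hL.n13 h1
  have m31 : ¬ Z.Adj n1 k3 := by
    intro hh
    rcases (ak3 n1).1 hh.symm with h1 | h1 | h1
    · exact hXN z n1 xz q1 h1.symm
    · exact hL.n13 h1
    · exact hL.n14 h1
  have hNy : Z.neighborSet k1 = {n1, z, n2} := by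
    rw [hL.Nk1, Set.insert_comm]
  rcases h.FOLD k1 n1 z n2 (hXS x1) (hXS xz) (hXN z n1 xz q1).symm hL.n12 (hXN z n2 xz q2) hNy with
    ⟨z1, z2, h12, h1, h2, e1, e2, e3, e4⟩ | ⟨-, t, ht, hzt⟩ |
    ⟨A, hAS, hA4, hpA, hqA, hyA, hcA, hcA', hno⟩ | ⟨A, hAS, hA4, hpA, hqA, hyA, hcA, hcA', hno⟩
  · exfalso
    have key : ∀ v, v ≠ k1 → Z.Adj n1 v → Z.Adj z v → v = k4 := by
      intro v hv1 hv2 hv3
      rcases (az v).1 hv3 with h3 | h3 | h3 | h3
      · exact absurd h3 hv1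
      · rw [h3] at hv2; exact absurd hv2 m21
      · rw [h3] at hv2; exact absurd hv2 m31
      · exact h3
    exact h12 ((key z1 h1 e1 e2).trans (key z2 h2 e3 e4).symm)
  · exfalso
    have htX : t ∈ X := (mX t).2 (Or.inr ((az t).1 hzt))
    exact Set.disjoint_left.1 h.disj (hXS htX) ht
  · have k4A : k4 ∉ A := fun hh => hno k4 hh ⟨(ak4 n1).2 (by simp), (ak4 z).2 (by simp)⟩
    have k2A : k2 ∉ A := by
      intro hh
      rcases mem_or_Nb hh ((ak2 n2).2 (by simp)) with h1 | h1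
      · exact hcA h1
      · exact hcA' h1
    have k3A : k3 ∈ A := by
      obtain ⟨-, u, hu, huz⟩ := hqA
      rcases (az u).1 huz.symm with h1 | h1 | h1 | h1
      · rw [h1] at hu; exact absurd hu hyA
      · rw [h1] at hu; exact absurd hu k2A
      · rw [h1] at hu; exact hu
      · rw [h1] at hu; exact absurd hu k4A
    have hX2 : 2 ≤ X.ncard := by
      have h1 := Set.ncard_le_ncard (show ({z, k1} : Set V) ⊆ X by
        intro v hv
        simp only [Set.mem_insert_iff, Set.mem_singleton_iff] at hv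
        rcases hv with rfl | rfl
        · exact xz
        · exact x1) (Set.toFinite _)
      rwa [Set.ncard_pair zk1] at h1
    have hQ := h.QQ_le hAS hXS hA4 hN4
      (hX2.trans (Set.ncard_le_ncard Set.subset_union_right (Set.toFinite _)))
    have inQ : ∀ v, v ∈ Nb Z X → (v ∈ A ∨ v ∈ Nb Z A) → v ∈ QQ Z A X := by
      rintro v hv (hv' | hv')
      · exact Or.inl (Or.inr ⟨hv, hv'⟩)
      · exact Or.inr ⟨hv', hv⟩
    have Qz : z ∈ QQ Z A X := Or.inl (Or.inl ⟨hqA, xz⟩)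
    have Q1 : n1 ∈ QQ Z A X := inQ n1 q1 (Or.inr hpA)
    have Q3 : n3 ∈ QQ Z A X := inQ n3 q3 (mem_or_Nb k3A ((ak3 n3).2 (by simp)))
    have Q4 : n4 ∈ QQ Z A X := inQ n4 q4 (mem_or_Nb k3A ((ak3 n4).2 (by simp)))
    have zn1 := hXN z n1 xz q1
    have zn3 := hXN z n3 xz q3
    have zn4 := hXN z n4 xz q4
    have hQeq : QQ Z A X = {z, n1, n3, n4} := by
      refine (Set.eq_of_subset_of_ncard_le ?_ ?_ (Set.toFinite _)).symm
      · intro v hv
        simp only [Set.mem_insert_iff, Set.mem_singleton_iff] at hv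
        rcases hv with rfl | rfl | rfl | rfl <;> assumption
      · rw [layer_four zn1 zn3 zn4 hL.n13 hL.n14 hL.n34]
        exact hQ
    have notQ : ∀ k, k ∈ X → k ≠ z → k ∉ QQ Z A X := by
      intro k hk hkz hkQ
      rw [hQeq] at hkQ
      simp only [Set.mem_insert_iff, Set.mem_singleton_iff] at hkQ
      rcases hkQ with h1 | h1 | h1 | h1
      · exact hkz h1
      · exact hXN k n1 hk q1 h1
      · exact hXN k n3 hk q3 h1
      · exact hXN k n4 hk q4 h1
    have n3A : n3 ∉ A := by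
      intro hh
      exact notQ k2 x2 zk2.symm (Or.inl (Or.inl ⟨⟨k2A, n3, hh, ((ak2 n3).2 (by simp)).symm⟩, x2⟩))
    have n4A : n4 ∉ A := by
      intro hh
      exact notQ k4 x4 zk4.symm (Or.inl (Or.inl ⟨⟨k4A, n4, hh, ((ak4 n4).2 (by simp)).symm⟩, x4⟩))
    have n3A' : n3 ∈ Nb Z A := ⟨n3A, k3, k3A, (ak3 n3).2 (by simp)⟩
    have n4A' : n4 ∈ Nb Z A := ⟨n4A, k3, k3A, (ak3 n4).2 (by simp)⟩
    have hNA : Nb Z A = {z, n1, n3, n4} :=
      layer_eq_four hA4 hqA hpA n3A' n4A' zn1 zn3 zn4 hL.n13 hL.n14 hL.n34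
    obtain ⟨-, s, hsA, hs1⟩ := id hpA
    have hsk3 : s ≠ k3 := by
      rintro rfl
      exact m31 hs1.symm
    have hsX : s ∉ X := by
      intro hh
      rcases (mX s).1 hh with h1 | h1 | h1 | h1 | h1
      · rw [h1] at hsA; exact hqA.1 hsA
      · rw [h1] at hsA; exact hyA hsA
      · rw [h1] at hsA; exact k2A hsA
      · exact hsk3 h1
      · rw [h1] at hsA; exact k4A hsA
    have hNA' : Nb Z (A \ {k3}) ⊆ {n1, n3, n4} := by
      rintro v ⟨hv1, u, ⟨huA, hu3⟩, huv⟩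
      rw [Set.mem_singleton_iff] at hu3
      rcases mem_or_Nb huA huv with h1 | h1
      · exfalso
        have hv3 : v = k3 := by
          by_contra hne
          exact hv1 ⟨h1, fun hh => hne (Set.mem_singleton_iff.1 hh)⟩
        rw [hv3] at huv
        rcases (ak3 u).1 huv.symm with h2 | h2 | h2
        · rw [h2] at huA; exact hqA.1 huA
        · rw [h2] at huA; exact n3A huA
        · rw [h2] at huA; exact n4A huA
      · rw [hNA] at h1
        rcases h1 with h1 | h1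
        · exfalso
          rw [h1] at huv
          rcases (az u).1 huv.symm with h2 | h2 | h2 | h2
          · rw [h2] at huA; exact hyA huA
          · rw [h2] at huA; exact k2A huA
          · exact hu3 h2
          · rw [h2] at huA; exact k4A huA
        · exact h1
    have hA'1 : A \ {k3} = {s} := by
      have hsA' : s ∈ A \ {k3} := ⟨hsA, hsk3⟩
      have hle : (A \ {k3}).ncard ≤ 1 := by
        by_contra hcon
        have h2 := h.P1 (A \ {k3}) (Set.sdiff_subset.trans hAS) (by omega)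
        have h3 := Set.ncard_le_ncard hNA' (Set.toFinite _)
        rw [layer_three hL.n13 hL.n14 hL.n34] at h3
        omega
      refine (Set.eq_of_subset_of_ncard_le (Set.singleton_subset_iff.2 hsA') ?_
        (Set.toFinite _)).symm
      rw [Set.ncard_singleton]
      exact hle
    have hNs : Z.neighborSet s = {n1, n3, n4} := by
      rw [hA'1, Nb_singleton] at hNA'
      refine Set.eq_of_subset_of_ncard_le hNA' ?_ (Set.toFinite _)
      rw [layer_three hL.n13 hL.n14 hL.n34]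
      exact h.deg3 s (hAS hsA)
    have sn1 : n1 ≠ s := fun hh => hpA.1 (hh ▸ hsA)
    have sn2 : n2 ≠ s := fun hh => hcA (hh ▸ hsA)
    have sn3 : n3 ≠ s := fun hh => n3A (hh ▸ hsA)
    have sn4 : n4 ≠ s := fun hh => n4A (hh ▸ hsA)
    refine ⟨s, hsX, ?_, hNs⟩
    by_contra hSne
    have hYS : insert s X ⊆ S := Set.insert_subset (hAS hsA) hXS
    have hNY : Nb Z (insert s X) = Nb Z X := by
      ext v
      constructor
      · rintro ⟨hv1, u, hu, huv⟩
        have hvX : v ∉ X := fun hh => hv1 (Or.inr hh)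
        rcases hu with hu | hu
        · rw [hu] at huv
          have hv2 : v ∈ Z.neighborSet s := huv
          rw [hNs] at hv2
          simp only [Set.mem_insert_iff, Set.mem_singleton_iff] at hv2
          rcases hv2 with rfl | rfl | rfl
          · exact q1
          · exact q3
          · exact q4
        · exact ⟨hvX, u, hu, huv⟩
      · intro hv
        have hvs : v ≠ s := by
          rcases (mN v).1 hv with rfl | rfl | rfl | rfl <;> assumption
        obtain ⟨hvX, u, hu, huv⟩ := hv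
        exact ⟨fun hh => hh.elim hvs hvX, u, Or.inr hu, huv⟩
    have hP2 := h.P2 (insert s X) hYS (Ne.symm hSne) (by rw [hNY, hN4])
    have hb := beta_le κ (Nb Z (insert s X))
    rw [hNY, hN4] at hb
    rw [hNY] at hP2
    have hfX : fden Z X = 2 := by
      have s4 : fden Z ({k4} : Set V) = 1 := by
        have h1 := fden_insert Z (Set.notMem_empty k4)
        rw [LawfulSingleton.insert_empty_eq, fden_empty, Set.sdiff_empty, hL.Nk4,
          layer_three (hXN z n4 xz q4) (hXN z n1 xz q1) hL.n14.symm] at h1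
        rw [h1]; norm_num
      have s3 : fden Z ({k3, k4} : Set V) = 2 := by
        rw [fden_insert Z (by simp [hL.k34]), s4]
        have h1 : Z.neighborSet k3 \ {k4} = Z.neighborSet k3 := by
          rw [sdiff_eq_left, Set.disjoint_singleton_right, SimpleGraph.mem_neighborSet, ak3]
          push Not
          exact ⟨zk4.symm, hXN k4 n3 x4 q3, hXN k4 n4 x4 q4⟩
        rw [h1, hL.Nk3, layer_three (hXN z n3 xz q3) (hXN z n4 xz q4) hL.n34]
        norm_num
      have s2 : fden Z ({k2, k3, k4} : Set V) = 3 := by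
        rw [fden_insert Z (by simp [hL.k23, hL.k24]), s3]
        have h1 : Z.neighborSet k2 \ {k3, k4} = Z.neighborSet k2 := by
          rw [sdiff_eq_left, Set.disjoint_left]
          intro v hv hv'
          simp only [Set.mem_insert_iff, Set.mem_singleton_iff] at hv'
          rcases (ak2 v).1 hv with h2 | h2 | h2 <;> rcases hv' with h3 | h3
          · exact zk3 (h2.symm.trans h3)
          · exact zk4 (h2.symm.trans h3)
          · exact hXN k3 n2 x3 q2 (h3.symm.trans h2)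
          · exact hXN k4 n2 x4 q2 (h3.symm.trans h2)
          · exact hXN k3 n3 x3 q3 (h3.symm.trans h2)
          · exact hXN k4 n3 x4 q3 (h3.symm.trans h2)
        rw [h1, hL.Nk2, layer_three (hXN z n2 xz q2) (hXN z n3 xz q3) hL.n23]
        norm_num
      have s1 : fden Z ({k1, k2, k3, k4} : Set V) = 4 := by
        rw [fden_insert Z (by simp [hL.k12, hL.k13, hL.k14]), s2]
        have h1 : Z.neighborSet k1 \ {k2, k3, k4} = Z.neighborSet k1 := by
          rw [sdiff_eq_left, Set.disjoint_left]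
          intro v hv hv'
          simp only [Set.mem_insert_iff, Set.mem_singleton_iff] at hv'
          rcases (ak1 v).1 hv with h2 | h2 | h2 <;> rcases hv' with h3 | h3 | h3
          · exact zk2 (h2.symm.trans h3)
          · exact zk3 (h2.symm.trans h3)
          · exact zk4 (h2.symm.trans h3)
          · exact hXN k2 n1 x2 q1 (h3.symm.trans h2)
          · exact hXN k3 n1 x3 q1 (h3.symm.trans h2)
          · exact hXN k4 n1 x4 q1 (h3.symm.trans h2)
          · exact hXN k2 n2 x2 q2 (h3.symm.trans h2)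
          · exact hXN k3 n2 x3 q2 (h3.symm.trans h2)
          · exact hXN k4 n2 x4 q2 (h3.symm.trans h2)
        rw [h1, hL.Nk1, layer_three (hXN z n1 xz q1) (hXN z n2 xz q2) hL.n12]
        norm_num
      have h0 : X = insert z ({k1, k2, k3, k4} : Set V) := hL.eq
      rw [h0, fden_insert Z (by simp [zk1, zk2, zk3, zk4]), s1, hL.Nz, Set.sdiff_self]
      simp
    have hfY : fden Z (insert s X) = 3 := by
      rw [fden_insert Z hsX, hfX]
      have h1 : Z.neighborSet s \ X = Z.neighborSet s := by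
        rw [sdiff_eq_left, Set.disjoint_left]
        intro v hv hvX
        rw [hNs] at hv
        simp only [Set.mem_insert_iff, Set.mem_singleton_iff] at hv
        rcases hv with h2 | h2 | h2
        · exact hXN v n1 hvX q1 h2
        · exact hXN v n3 hvX q3 h2
        · exact hXN v n4 hvX q4 h2
      rw [h1, hNs, layer_three hL.n13 hL.n14 hL.n34]
      norm_num
    rw [hfY] at hP2
    push_cast at hb
    linarith
  · exact absurd ⟨(ak4 n1).2 (by simp), (ak4 z).2 (by simp)⟩ (hno k4 hL.k14.symm)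

/-- `X = S`. -/
theorem X_eq_S [Finite V] {Z : SimpleGraph V} {κ : V → ZMod 2} {S T : Set V}
    (h : Core Z κ S T) {X : Set V} (hX : MinX Z S X) (hs : Star Z X) : X = S := by
  by_contra hne
  obtain ⟨z, k1, k2, k3, k4, n1, n2, n3, n4, hL⟩ := exists_L5 h hX hs hne
  obtain ⟨s, hs1, hs2, hs3⟩ := L5_fold h hX.sub hL
  have hL' : IsL5 Z X z k3 k4 k1 k2 n3 n4 n1 n2 := by
    refine ⟨?_, ?_, hL.Nk3, hL.Nk4, hL.Nk1, hL.Nk2, ?_, hL.k34, hL.k13.symm, hL.k23.symm,
      hL.k14.symm, hL.k24.symm, hL.k12, hL.n34, hL.n13.symm, hL.n23.symm, hL.n14.symm,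
      hL.n24.symm, hL.n12⟩
    · rw [hL.eq]; ext v; simp only [Set.mem_insert_iff, Set.mem_singleton_iff]; tauto
    · rw [hL.Nz]; ext v; simp only [Set.mem_insert_iff, Set.mem_singleton_iff]; tauto
    · rw [hL.NX]; ext v; simp only [Set.mem_insert_iff, Set.mem_singleton_iff]; tauto
  obtain ⟨s', hs1', hs2', hs3'⟩ := L5_fold h hX.sub hL'
  have hss : s' = s := by
    have h1 : s' ∈ insert s X := by rw [← hs2, hs2']; exact Set.mem_insert _ _
    rcases h1 with h1 | h1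
    · exact h1
    · exact absurd h1 hs1'
  rw [hss, hs3] at hs3'
  have h4 : n4 ∈ ({n3, n1, n2} : Set V) := by rw [← hs3']; simp
  simp only [Set.mem_insert_iff, Set.mem_singleton_iff] at h4
  rcases h4 with h4 | h4 | h4
  · exact hL.n34 h4.symm
  · exact hL.n14 h4.symm
  · exact hL.n24 h4.symm

end Pool.Agent.Helper51.TDC
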