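import Pool.Agent.Helper51.TDC.Defs

/-!
# Theorem D, core part 2: four-sets with two or three elements; the minimal non-list set
-/

set_option autoImplicit false

namespace Pool.Agent.Helper51.TDC

open SimpleGraph Pool.Agent.Helper57.TOK Pool.Agent.Helper57.TD

variable {V : Type*}

private lemma small_col {a b c : ZMod 2} (h1 : a ≠ c) (h2 : b ≠ c) : a = b :=
  eq_of_ne_of_ne h1 h2

private lemma small_ins {s : Set V} {x p q : V} (hx : x ∈ s) (h : s \ {x} = {p, q}) :
    s = {x, p, q} := by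
  rw [← h]
  exact (Set.insert_sdiff_self_of_mem hx).symm

/-- The singleton. -/
private lemma small_f1 [Finite V] (Z : SimpleGraph V) (x : V) :
    fden Z {x} = ((Z.neighborSet x).ncard : ℤ) - 2 := by
  have h := fden_insert Z (Set.notMem_empty x)
  rw [LawfulSingleton.insert_empty_eq, fden_empty, Set.sdiff_empty] at h
  rw [h]; ring

section core

variable [Finite V] {Z : SimpleGraph V} {κ : V → ZMod 2} {S T : Set V}

/-- Two adjacent vertices. -/
private lemma small_adj (h : Core Z κ S T) {x1 x2 : V} (hadj : Z.Adj x1 x2) :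
    Nb Z {x1, x2} = (Z.neighborSet x1 \ {x2}) ∪ (Z.neighborSet x2 \ {x1}) ∧
    (∀ p ∈ Z.neighborSet x1 \ {x2}, κ p = κ x2) ∧ (∀ p ∈ Z.neighborSet x2 \ {x1}, κ p = κ x1) ∧
    ((Z.neighborSet x1 \ {x2}).ncard : ℤ) = ((Z.neighborSet x1).ncard : ℤ) - 1 ∧
    ((Z.neighborSet x2 \ {x1}).ncard : ℤ) = ((Z.neighborSet x2).ncard : ℤ) - 1 ∧
    ((Nb Z {x1, x2}).ncard : ℤ) = ((Z.neighborSet x1).ncard : ℤ) + (Z.neighborSet x2).ncard - 2 ∧
    fden Z {x1, x2} = ((Z.neighborSet x1).ncard : ℤ) + (Z.neighborSet x2).ncard - 5 := by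
  have hk : κ x1 ≠ κ x2 := h.ne_of_adj hadj
  have e1 : Nb Z {x1, x2} = (Z.neighborSet x1 \ {x2}) ∪ (Z.neighborSet x2 \ {x1}) := by
    ext v
    rw [mem_Nb]
    simp only [Set.mem_union, Set.mem_sdiff, SimpleGraph.mem_neighborSet, Set.mem_singleton_iff,
      Set.mem_insert_iff, exists_eq_or_imp, exists_eq_left, not_or]
    constructor
    · rintro ⟨⟨h1, h2⟩, h3 | h3⟩
      · exact Or.inl ⟨h3, h2⟩
      · exact Or.inr ⟨h3, h1⟩
    · rintro (⟨h1, h2⟩ | ⟨h1, h2⟩)
      · exact ⟨⟨h1.ne', h2⟩, Or.inl h1⟩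
      · exact ⟨⟨h2, h1.ne'⟩, Or.inr h1⟩
  have c1 : ∀ p ∈ Z.neighborSet x1 \ {x2}, κ p = κ x2 := fun p hp => h.eq_of_adj hp.1 hadj
  have c2 : ∀ p ∈ Z.neighborSet x2 \ {x1}, κ p = κ x1 := fun p hp => h.eq_of_adj hp.1 hadj.symm
  have n1 : (Z.neighborSet x1 \ {x2}).ncard + 1 = (Z.neighborSet x1).ncard :=
    Set.ncard_sdiff_singleton_add_one hadj (Set.toFinite _)
  have n2 : (Z.neighborSet x2 \ {x1}).ncard + 1 = (Z.neighborSet x2).ncard :=
    Set.ncard_sdiff_singleton_add_one hadj.symm (Set.toFinite _)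
  have n1' : ((Z.neighborSet x1 \ {x2}).ncard : ℤ) = ((Z.neighborSet x1).ncard : ℤ) - 1 := by
    rw [← n1]; push_cast; ring
  have n2' : ((Z.neighborSet x2 \ {x1}).ncard : ℤ) = ((Z.neighborSet x2).ncard : ℤ) - 1 := by
    rw [← n2]; push_cast; ring
  refine ⟨e1, c1, c2, n1', n2', ?_, ?_⟩
  · rw [e1, Set.ncard_union_eq _ (Set.toFinite _) (Set.toFinite _)]
    · push_cast
      rw [n1', n2']; ring
    · rw [Set.disjoint_left]
      intro p hp hp'
      exact hk ((c2 p hp').symm.trans (c1 p hp))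
  · have h3 := fden_insert Z (y := x1) (Y := {x2})
      (fun hh => hadj.ne (Set.mem_singleton_iff.1 hh))
    rw [h3, small_f1, n1']
    ring

/-- Two vertices of different colours which are not adjacent. -/
private lemma small_diff (h : Core Z κ S T) {x1 x2 : V} (hx1 : x1 ∈ S) (hx2 : x2 ∈ S)
    (hk : κ x1 ≠ κ x2) (hadj : ¬ Z.Adj x1 x2) : 6 ≤ (Nb Z {x1, x2}).ncard := by
  have e1 : Nb Z {x1, x2} = Z.neighborSet x1 ∪ Z.neighborSet x2 := by
    ext v
    rw [mem_Nb]
    simp only [Set.mem_union, SimpleGraph.mem_neighborSet, Set.mem_singleton_iff,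
      Set.mem_insert_iff, exists_eq_or_imp, exists_eq_left, not_or]
    constructor
    · rintro ⟨-, h3⟩
      exact h3
    · rintro (h1 | h1)
      · exact ⟨⟨h1.ne', fun hh => hadj (hh ▸ h1)⟩, Or.inl h1⟩
      · exact ⟨⟨fun hh => hadj (hh ▸ h1.symm), h1.ne'⟩, Or.inr h1⟩
  rw [e1, Set.ncard_union_eq _ (Set.toFinite _) (Set.toFinite _)]
  · have := h.deg3 x1 hx1
    have := h.deg3 x2 hx2
    omega
  · rw [Set.disjoint_left]
    intro p hp hp'
    have h1 := h.ne_of_adj hp
    have h2 := h.ne_of_adj hp'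
    exact hk (small_col h1 h2)

/-- Two vertices of one colour. -/
private lemma small_same (h : Core Z κ S T) {x1 x2 : V} (hne : x1 ≠ x2) (hk : κ x1 = κ x2) :
    Nb Z {x1, x2} = Z.neighborSet x1 ∪ Z.neighborSet x2 ∧ Mono κ (Nb Z {x1, x2}) ∧
    fden Z {x1, x2} = ((Z.neighborSet x1).ncard : ℤ) + (Z.neighborSet x2).ncard - 4 := by
  have hadj : ¬ Z.Adj x1 x2 := fun hh => h.ne_of_adj hh hk
  have e1 : Nb Z {x1, x2} = Z.neighborSet x1 ∪ Z.neighborSet x2 := by
    ext v
    rw [mem_Nb]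
    simp only [Set.mem_union, SimpleGraph.mem_neighborSet, Set.mem_singleton_iff,
      Set.mem_insert_iff, exists_eq_or_imp, exists_eq_left, not_or]
    constructor
    · rintro ⟨-, h3⟩
      exact h3
    · rintro (h1 | h1)
      · exact ⟨⟨h1.ne', fun hh => hadj (hh ▸ h1)⟩, Or.inl h1⟩
      · exact ⟨⟨fun hh => hadj (hh ▸ h1.symm), h1.ne'⟩, Or.inr h1⟩
  refine ⟨e1, ?_, ?_⟩
  · have hc : ∀ v ∈ Nb Z {x1, x2}, κ v ≠ κ x1 := by
      intro v hv
      rw [e1] at hv
      rcases hv with hv | hv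
      · exact (h.ne_of_adj hv).symm
      · rw [hk]; exact (h.ne_of_adj hv).symm
    intro a ha b hb
    exact small_col (hc a ha) (hc b hb)
  · have h3 := fden_insert Z (y := x1) (Y := {x2}) (fun hh => hne (Set.mem_singleton_iff.1 hh))
    have h4 : Z.neighborSet x1 \ {x2} = Z.neighborSet x1 := by
      ext v
      simp only [Set.mem_sdiff, SimpleGraph.mem_neighborSet, Set.mem_singleton_iff]
      exact ⟨fun hh => hh.1, fun hh => ⟨hh, fun h5 => hadj (h5 ▸ hh)⟩⟩
    rw [h3, small_f1, h4]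
    ring

/-- Three vertices of one colour. -/
private lemma small_same3 (h : Core Z κ S T) {a b c : V} (hab : a ≠ b) (hac : a ≠ c)
    (hbc : b ≠ c) (h1 : κ a = κ c) (h2 : κ b = κ c) :
    Nb Z {a, b, c} = Z.neighborSet a ∪ (Z.neighborSet b ∪ Z.neighborSet c) ∧
    Mono κ (Nb Z {a, b, c}) ∧
    fden Z {a, b, c} = ((Z.neighborSet a).ncard : ℤ) + (Z.neighborSet b).ncard +
      (Z.neighborSet c).ncard - 6 := by
  have nab : ¬ Z.Adj a b := fun hh => h.ne_of_adj hh (h1.trans h2.symm)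
  have nac : ¬ Z.Adj a c := fun hh => h.ne_of_adj hh h1
  have nbc : ¬ Z.Adj b c := fun hh => h.ne_of_adj hh h2
  have e1 : Nb Z {a, b, c} = Z.neighborSet a ∪ (Z.neighborSet b ∪ Z.neighborSet c) := by
    ext v
    rw [mem_Nb]
    simp only [Set.mem_union, SimpleGraph.mem_neighborSet, Set.mem_singleton_iff,
      Set.mem_insert_iff, exists_eq_or_imp, exists_eq_left, not_or]
    constructor
    · rintro ⟨-, h3⟩
      exact h3
    · rintro (h1 | h1 | h1)
      · exact ⟨⟨h1.ne', fun hh => nab (hh ▸ h1), fun hh => nac (hh ▸ h1)⟩, Or.inl h1⟩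
      · exact ⟨⟨fun hh => nab (hh ▸ h1.symm), h1.ne', fun hh => nbc (hh ▸ h1)⟩,
          Or.inr (Or.inl h1)⟩
      · exact ⟨⟨fun hh => nac (hh ▸ h1.symm), fun hh => nbc (hh ▸ h1.symm), h1.ne'⟩,
          Or.inr (Or.inr h1)⟩
  refine ⟨e1, ?_, ?_⟩
  · have hc : ∀ v ∈ Nb Z {a, b, c}, κ v ≠ κ c := by
      intro v hv
      rw [e1] at hv
      rcases hv with hv | hv | hv
      · rw [← h1]; exact (h.ne_of_adj hv).symm
      · rw [← h2]; exact (h.ne_of_adj hv).symm
      · exact (h.ne_of_adj hv).symm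
    intro x hx y hy
    exact small_col (hc x hx) (hc y hy)
  · have h3 := fden_insert Z (y := a) (Y := {b, c}) (by simp [hab, hac])
    have h4 : Z.neighborSet a \ {b, c} = Z.neighborSet a := by
      ext v
      simp only [Set.mem_sdiff, SimpleGraph.mem_neighborSet, Set.mem_singleton_iff,
        Set.mem_insert_iff, not_or]
      exact ⟨fun hh => hh.1, fun hh => ⟨hh, fun h5 => nab (h5 ▸ hh), fun h5 => nac (h5 ▸ hh)⟩⟩
    rw [h3, (small_same h hbc h2).2.2, h4]
    ring

/-- Three vertices of two colours. -/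
private lemma small_mixed (h : Core Z κ S T) {w y1 y2 : V} (hw : w ∈ S) (hy1 : y1 ∈ S)
    (hy2 : y2 ∈ S) (hyy : y1 ≠ y2) (hk : κ y1 = κ y2) (hk' : κ w ≠ κ y1)
    (h4 : (Nb Z {w, y1, y2}).ncard = 4) :
    Z.Adj w y1 ∧ Z.Adj w y2 ∧
    Nb Z {w, y1, y2} = (Z.neighborSet w \ {y1, y2}) ∪
      ((Z.neighborSet y1 ∪ Z.neighborSet y2) \ {w}) ∧
    (∀ p ∈ Z.neighborSet w \ {y1, y2}, κ p = κ y1) ∧
    (∀ p ∈ (Z.neighborSet y1 ∪ Z.neighborSet y2) \ {w}, κ p = κ w) ∧
    (Z.neighborSet w \ {y1, y2}).ncard + 2 = (Z.neighborSet w).ncard ∧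
    (Z.neighborSet w \ {y1, y2}).ncard +
      ((Z.neighborSet y1 ∪ Z.neighborSet y2) \ {w}).ncard = 4 ∧
    fden Z {w, y1, y2} = ((Z.neighborSet w \ {y1, y2}).ncard : ℤ) + (Z.neighborSet y1).ncard +
      (Z.neighborSet y2).ncard - 6 ∧ ¬ Mono κ (Nb Z {w, y1, y2}) := by
  have nyy : ¬ Z.Adj y1 y2 := fun hh => h.ne_of_adj hh hk
  have hwy1 : w ≠ y1 := fun hh => hk' (hh ▸ rfl)
  have hwy2 : w ≠ y2 := fun hh => hk' (hk ▸ hh ▸ rfl)
  have e1 : Nb Z {w, y1, y2} = (Z.neighborSet w \ {y1, y2}) ∪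
      ((Z.neighborSet y1 ∪ Z.neighborSet y2) \ {w}) := by
    ext v
    rw [mem_Nb]
    simp only [Set.mem_union, Set.mem_sdiff, SimpleGraph.mem_neighborSet, Set.mem_singleton_iff,
      Set.mem_insert_iff, exists_eq_or_imp, exists_eq_left, not_or]
    constructor
    · rintro ⟨⟨h1, h2, h3⟩, h5 | h5 | h5⟩
      · exact Or.inl ⟨h5, h2, h3⟩
      · exact Or.inr ⟨Or.inl h5, h1⟩
      · exact Or.inr ⟨Or.inr h5, h1⟩
    · rintro (⟨h1, h2, h3⟩ | ⟨h1 | h1, h2⟩)
      · exact ⟨⟨h1.ne', h2, h3⟩, Or.inl h1⟩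
      · exact ⟨⟨h2, h1.ne', fun hh => nyy (hh ▸ h1)⟩, Or.inr (Or.inl h1)⟩
      · exact ⟨⟨h2, fun hh => nyy (hh ▸ h1.symm), h1.ne'⟩, Or.inr (Or.inr h1)⟩
  have c1 : ∀ p ∈ Z.neighborSet w \ {y1, y2}, κ p = κ y1 := fun p hp =>
    small_col (h.ne_of_adj hp.1).symm hk'.symm
  have c2 : ∀ p ∈ (Z.neighborSet y1 ∪ Z.neighborSet y2) \ {w}, κ p = κ w := by
    rintro p ⟨hp | hp, -⟩
    · exact small_col (h.ne_of_adj hp).symm hk'
    · exact small_col (h.ne_of_adj hp).symm (hk ▸ hk')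
  have hdis : Disjoint (Z.neighborSet w \ {y1, y2})
      ((Z.neighborSet y1 ∪ Z.neighborSet y2) \ {w}) := by
    rw [Set.disjoint_left]
    intro p hp hp'
    exact hk' ((c2 p hp').symm.trans (c1 p hp))
  have h5 : (Z.neighborSet w \ {y1, y2}).ncard +
      ((Z.neighborSet y1 ∪ Z.neighborSet y2) \ {w}).ncard = 4 := by
    rw [← h4, e1, Set.ncard_union_eq hdis (Set.toFinite _) (Set.toFinite _)]
  have d0 := h.deg3 w hw
  have d1 := h.deg3 y1 hy1
  have d2 := h.deg3 y2 hy2
  have hU1 : Z.neighborSet y1 \ {w} ⊆ (Z.neighborSet y1 ∪ Z.neighborSet y2) \ {w} :=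
    fun v hv => ⟨Or.inl hv.1, hv.2⟩
  have hU2 : Z.neighborSet y2 \ {w} ⊆ (Z.neighborSet y1 ∪ Z.neighborSet y2) \ {w} :=
    fun v hv => ⟨Or.inr hv.1, hv.2⟩
  have hU1' := Set.ncard_le_ncard hU1 (Set.toFinite _)
  have hU2' := Set.ncard_le_ncard hU2 (Set.toFinite _)
  have hP1 : ∀ a b : V, ¬ Z.Adj w b → (Z.neighborSet w).ncard ≤
      (Z.neighborSet w \ {a, b}).ncard + 1 := by
    intro a b hb
    have : Z.neighborSet w \ {a, b} = Z.neighborSet w \ {a} := by
      ext v
      simp only [Set.mem_sdiff, SimpleGraph.mem_neighborSet, Set.mem_singleton_iff,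
        Set.mem_insert_iff, not_or]
      exact ⟨fun hh => ⟨hh.1, hh.2.1⟩, fun hh => ⟨hh.1, hh.2, fun h6 => hb (h6 ▸ hh.1)⟩⟩
    rw [this]
    have := Set.pred_ncard_le_ncard_sdiff_singleton (Z.neighborSet w) a
    omega
  have hQ : ∀ y : V, ¬ Z.Adj w y → (Z.neighborSet y \ {w}).ncard = (Z.neighborSet y).ncard := by
    intro y hy
    rw [Set.sdiff_singleton_eq_self]
    exact fun hh => hy (SimpleGraph.mem_neighborSet _ _ _ |>.1 hh).symm
  have hw1 : Z.Adj w y1 := by
    by_contra hn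
    have h6 := hQ y1 hn
    have h7 := hP1 y2 y1 hn
    rw [Set.pair_comm] at h7
    omega
  have hw2 : Z.Adj w y2 := by
    by_contra hn
    have h6 := hQ y2 hn
    have h7 := hP1 y1 y2 hn
    omega
  have hP2 : (Z.neighborSet w \ {y1, y2}).ncard + 2 = (Z.neighborSet w).ncard := by
    have hsub : ({y1, y2} : Set V) ⊆ Z.neighborSet w := by
      rintro v (rfl | hv)
      · exact hw1
      · rw [Set.mem_singleton_iff] at hv
        rw [hv]; exact hw2
    have := Set.ncard_sdiff_add_ncard_of_subset hsub (Set.toFinite _)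
    rw [Set.ncard_pair hyy] at this
    exact this
  have hpos : 0 < (Z.neighborSet w \ {y1, y2}).ncard := by omega
  have hUpos : 0 < ((Z.neighborSet y1 ∪ Z.neighborSet y2) \ {w}).ncard := by
    have := Set.ncard_sdiff_singleton_add_one (s := Z.neighborSet y1) (a := w) hw1.symm
      (Set.toFinite _)
    omega
  refine ⟨hw1, hw2, e1, c1, c2, hP2, h5, ?_, ?_⟩
  · have h3 := fden_insert Z (y := w) (Y := {y1, y2}) (by simp [hwy1, hwy2])
    rw [h3, (small_same h hyy hk).2.2]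
    ring
  · intro hm
    obtain ⟨p, hp⟩ := (Set.ncard_pos (Set.toFinite _)).1 hpos
    obtain ⟨u, hu⟩ := (Set.ncard_pos (Set.toFinite _)).1 hUpos
    have h6 := hm p (by rw [e1]; exact Or.inl hp) u (by rw [e1]; exact Or.inr hu)
    rw [c1 p hp, c2 u hu] at h6
    exact hk' h6.symm

end core

/-! ### The classification -/

private lemma small_P23 [Finite V] {Z : SimpleGraph V} {κ : V → ZMod 2} {S T : Set V}
    (h : Core Z κ S T) {A : Set V} (hA : A ⊆ S) (h4 : (Nb Z A).ncard = 4) :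
    fden Z A ≤ beta κ (Nb Z A) + 1 := by
  by_cases hAS : A = S
  · rw [hAS, h.NS]
    exact h.P3le
  · have := h.P2 A hA hAS h4
    linarith

private lemma small_one [Finite V] {s t : Set V} {e g : V} (hs : s.ncard = 3)
    (hI : s ∩ t = {e, g}) (heg : e ≠ g) : ∃ a, s = {a, e, g} ∧ a ≠ e ∧ a ≠ g ∧ a ∉ t := by
  have h1 := Set.ncard_inter_add_ncard_sdiff_eq_ncard s t (Set.toFinite _)
  rw [hI, Set.ncard_pair heg, hs] at h1
  obtain ⟨a, ha⟩ := Set.ncard_eq_one.1 (by omega : (s \ t).ncard = 1)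
  have hat : a ∈ s \ t := by rw [ha]; rfl
  have het : e ∈ s ∩ t := by rw [hI]; simp
  have hgt : g ∈ s ∩ t := by rw [hI]; simp
  refine ⟨a, ?_, fun hh => hat.2 (hh ▸ het.2), fun hh => hat.2 (hh ▸ hgt.2), hat.2⟩
  rw [← Set.inter_union_sdiff s t, hI, ha]
  ext v
  simp only [Set.mem_union, Set.mem_insert_iff, Set.mem_singleton_iff]
  tauto

private lemma small_H [Finite V] {Z : SimpleGraph V} {κ : V → ZMod 2} {S T : Set V}
    (h : Core Z κ S T) {x1 x2 : V} (hx1 : x1 ∈ S) (hx2 : x2 ∈ S) (hadj : Z.Adj x1 x2)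
    (h4 : (Nb Z {x1, x2}).ncard = 4) : ∃ p q r s, IsH Z {x1, x2} x1 x2 p q r s := by
  obtain ⟨e1, c1, c2, n1, n2, n3, -⟩ := small_adj h hadj
  have d1 := h.deg3 x1 hx1
  have d2 := h.deg3 x2 hx2
  rw [h4] at n3
  push_cast at n3
  obtain ⟨p, q, hpq, hP⟩ := Set.ncard_eq_two.1
    (by omega : (Z.neighborSet x1 \ {x2}).ncard = 2)
  obtain ⟨r, s, hrs, hR⟩ := Set.ncard_eq_two.1
    (by omega : (Z.neighborSet x2 \ {x1}).ncard = 2)
  have hp : p ∈ Z.neighborSet x1 \ {x2} := by rw [hP]; simp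
  have hq : q ∈ Z.neighborSet x1 \ {x2} := by rw [hP]; simp
  have hr : r ∈ Z.neighborSet x2 \ {x1} := by rw [hR]; simp
  have hs : s ∈ Z.neighborSet x2 \ {x1} := by rw [hR]; simp
  exact ⟨p, q, r, s,
    { eq := rfl
      n1 := small_ins hadj hP
      n2 := small_ins hadj.symm hR
      pq := hpq
      px := fun hh => hp.2 (Set.mem_singleton_iff.2 hh)
      qx := fun hh => hq.2 (Set.mem_singleton_iff.2 hh)
      rs := hrs
      rx := fun hh => hr.2 (Set.mem_singleton_iff.2 hh)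
      sx := fun hh => hs.2 (Set.mem_singleton_iff.2 hh) }⟩

/-- Four-sets with two elements. -/
theorem two_class [Finite V] {Z : SimpleGraph V} {κ : V → ZMod 2} {S T : Set V}
    (h : Core Z κ S T) {A : Set V} (hA : A ⊆ S) (h2 : A.ncard = 2) (h4 : (Nb Z A).ncard = 4) :
    (∃ w1 w2 a b e g, IsL1 Z A w1 w2 a b e g) ∨ (∃ x1 x2 p q r s, IsH Z A x1 x2 p q r s) := by
  have hP2 := small_P23 h hA h4
  obtain ⟨x1, x2, hne, rfl⟩ := Set.ncard_eq_two.1 h2
  have hx1 : x1 ∈ S := hA (by simp)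
  have hx2 : x2 ∈ S := hA (by simp)
  have d1 := h.deg3 x1 hx1
  have d2 := h.deg3 x2 hx2
  by_cases hadj : Z.Adj x1 x2
  · right
    obtain ⟨p, q, r, s, hH⟩ := small_H h hx1 hx2 hadj h4
    exact ⟨x1, x2, p, q, r, s, hH⟩
  · by_cases hk : κ x1 = κ x2
    · left
      obtain ⟨e1, hm, hf⟩ := small_same h hne hk
      rw [beta_of_mono hm, h4, hf] at hP2
      push_cast at hP2
      rw [e1] at h4
      have s1 : Z.neighborSet x1 ⊆ Z.neighborSet x1 ∪ Z.neighborSet x2 := Set.subset_union_left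
      have s2 : Z.neighborSet x2 ⊆ Z.neighborSet x1 ∪ Z.neighborSet x2 := Set.subset_union_right
      rcases (by omega : ((Z.neighborSet x1).ncard = 3 ∧ (Z.neighborSet x2).ncard = 3) ∨
        ((Z.neighborSet x1).ncard = 3 ∧ (Z.neighborSet x2).ncard = 4) ∨
        ((Z.neighborSet x1).ncard = 4 ∧ (Z.neighborSet x2).ncard = 3)) with
        ⟨e3, e4⟩ | ⟨h6, h7⟩ | ⟨h6, h7⟩
      · have h5 := Set.ncard_union_add_ncard_inter (Z.neighborSet x1) (Z.neighborSet x2)
        obtain ⟨e, g, heg, hI⟩ := Set.ncard_eq_two.1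
          (by omega : (Z.neighborSet x1 ∩ Z.neighborSet x2).ncard = 2)
        obtain ⟨a, ha, ha1, ha2, ha3⟩ := small_one e3 hI heg
        obtain ⟨b, hb, hb1, hb2, hb3⟩ := small_one e4 (by rw [Set.inter_comm]; exact hI) heg
        refine ⟨x1, x2, a, b, e, g,
          { eq := rfl
            ne := hne
            n1 := ha
            n2 := hb
            ab := fun hh => ha3 ?_
            ae := ha1
            ag := ha2
            be := hb1
            bg := hb2
            eg := heg }⟩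
        rw [hb, hh]; simp
      · have e := Set.eq_of_subset_of_ncard_le s2 (by omega) (Set.toFinite _)
        exact absurd (by rw [e]; exact s1) (h.T3 x2 x1 hx1 hne.symm h6)
      · have e := Set.eq_of_subset_of_ncard_le s1 (by omega) (Set.toFinite _)
        exact absurd (by rw [e]; exact s2) (h.T3 x1 x2 hx2 hne h7)
    · have := small_diff h hx1 hx2 hk hadj
      omega

private lemma small_X3 [Finite V] {Z : SimpleGraph V} {κ : V → ZMod 2} {S T : Set V}
    (h : Core Z κ S T) {w y1 y2 : V} (hw : w ∈ S) (hy1 : y1 ∈ S)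
    (hy2 : y2 ∈ S) (hyy : y1 ≠ y2) (hk : κ y1 = κ y2) (hk' : κ w ≠ κ y1)
    (h4 : (Nb Z {w, y1, y2}).ncard = 4) (hf : fden Z {w, y1, y2} ≤ 1) :
    ∃ n1 n2 n3 n4, IsX3 Z {w, y1, y2} w y1 y2 n1 n2 n3 n4 := by
  obtain ⟨a1, a2, e1, c1, c2, n1, n2, n3, -⟩ := small_mixed h hw hy1 hy2 hyy hk hk' h4
  have d0 := h.deg3 w hw
  have d1 := h.deg3 y1 hy1
  have d2 := h.deg3 y2 hy2
  rw [n3] at hf
  have m1 := Set.ncard_sdiff_singleton_add_one (s := Z.neighborSet y1) (a := w) a1.symm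
    (Set.toFinite _)
  have m2 := Set.ncard_sdiff_singleton_add_one (s := Z.neighborSet y2) (a := w) a2.symm
    (Set.toFinite _)
  obtain ⟨n4, hP⟩ := Set.ncard_eq_one.1
    (by omega : (Z.neighborSet w \ {y1, y2}).ncard = 1)
  have hU : (Z.neighborSet y1 ∪ Z.neighborSet y2) \ {w} =
      (Z.neighborSet y1 \ {w}) ∪ (Z.neighborSet y2 \ {w}) := Set.union_sdiff_distrib
  have m3 := Set.ncard_union_add_ncard_inter (Z.neighborSet y1 \ {w}) (Z.neighborSet y2 \ {w})
  rw [← hU] at m3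
  obtain ⟨z, hz⟩ := Set.ncard_eq_one.1
    (by omega : ((Z.neighborSet y1 \ {w}) ∩ (Z.neighborSet y2 \ {w})).ncard = 1)
  have hzI : z ∈ (Z.neighborSet y1 \ {w}) ∩ (Z.neighborSet y2 \ {w}) := by rw [hz]; rfl
  have hq : ∀ s : Set V, s.ncard = 2 → z ∈ s → ∃ a, s = {a, z} ∧ a ≠ z := by
    intro s hs hzs
    obtain ⟨a, b, hab, rfl⟩ := Set.ncard_eq_two.1 hs
    rcases hzs with rfl | hzs
    · exact ⟨b, Set.pair_comm _ _, hab.symm⟩
    · rw [Set.mem_singleton_iff] at hzs
      subst hzs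
      exact ⟨a, rfl, hab⟩
  obtain ⟨u1, hu1, hu1z⟩ := hq _ (by omega) hzI.1
  obtain ⟨u2, hu2, hu2z⟩ := hq _ (by omega) hzI.2
  have k1 : u1 ∈ Z.neighborSet y1 \ {w} := by rw [hu1]; simp
  have k2 : u2 ∈ Z.neighborSet y2 \ {w} := by rw [hu2]; simp
  have k4 : n4 ∈ Z.neighborSet w \ {y1, y2} := by rw [hP]; rfl
  have k4' := k4.2
  simp only [Set.mem_insert_iff, Set.mem_singleton_iff, not_or] at k4'
  refine ⟨u1, u2, z, n4,
    { eq := rfl
      nw := ?_
      ny1 := small_ins a1.symm hu1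
      ny2 := small_ins a2.symm hu2
      yy := hyy
      y1n := fun hh => k4'.1 hh.symm
      y2n := fun hh => k4'.2 hh.symm
      wn1 := fun hh => k1.2 (Set.mem_singleton_iff.2 hh.symm)
      wn2 := fun hh => k2.2 (Set.mem_singleton_iff.2 hh.symm)
      wn3 := fun hh => hzI.1.2 (Set.mem_singleton_iff.2 hh.symm)
      n12 := ?_
      n13 := hu1z
      n23 := hu2z }⟩
  · ext v
    have hv : v ∈ Z.neighborSet w \ {y1, y2} ↔ v = n4 := by rw [hP]; rfl
    simp only [Set.mem_sdiff, Set.mem_insert_iff, Set.mem_singleton_iff, not_or] at hv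
    simp only [Set.mem_insert_iff, Set.mem_singleton_iff]
    constructor
    · intro hvw
      by_cases h1 : v = y1
      · exact Or.inl h1
      · by_cases h2 : v = y2
        · exact Or.inr (Or.inl h2)
        · exact Or.inr (Or.inr (hv.1 ⟨hvw, h1, h2⟩))
    · rintro (rfl | rfl | hv')
      · exact a1
      · exact a2
      · exact (hv.2 hv').1
  · intro hh
    have : u1 ∈ (Z.neighborSet y1 \ {w}) ∩ (Z.neighborSet y2 \ {w}) := ⟨k1, hh ▸ k2⟩
    rw [hz, Set.mem_singleton_iff] at this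
    exact hu1z this

/-- The three elements of a set with three elements: one colour, or a vertex `w` and two vertices
of the other colour. -/
private lemma small_split [Finite V] {A : Set V} (κ : V → ZMod 2) (h3 : A.ncard = 3) :
    (∃ a b c, A = {a, b, c} ∧ a ≠ b ∧ a ≠ c ∧ b ≠ c ∧ κ a = κ c ∧ κ b = κ c) ∨
    (∃ w y1 y2, A = {w, y1, y2} ∧ y1 ≠ y2 ∧ κ y1 = κ y2 ∧ κ w ≠ κ y1) := by
  obtain ⟨a, b, c, hab, hac, hbc, rfl⟩ := Set.ncard_eq_three.1 h3
  by_cases h1 : κ a = κ c
  · by_cases h2 : κ b = κ c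
    · exact Or.inl ⟨a, b, c, rfl, hab, hac, hbc, h1, h2⟩
    · exact Or.inr ⟨b, a, c, Set.insert_comm _ _ _, hac, h1, h1 ▸ h2⟩
  · by_cases h2 : κ b = κ c
    · exact Or.inr ⟨a, b, c, rfl, hbc, h2, h2 ▸ h1⟩
    · refine Or.inr ⟨c, a, b, ?_, hab, small_col h1 h2, fun hh => h1 hh.symm⟩
      ext v
      simp only [Set.mem_insert_iff, Set.mem_singleton_iff]
      tauto


/-! ### The set `S` -/

private lemma small_NbS [Finite V] {Z : SimpleGraph V} {κ : V → ZMod 2} {S T : Set V}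
    (h : Core Z κ S T) : (Nb Z S).ncard = 4 := by rw [h.NS, h.T4]

private lemma small_nbr [Finite V] {Z : SimpleGraph V} {κ : V → ZMod 2} {S T : Set V}
    (h : Core Z κ S T) {x : V} (hx : x ∈ S) (hS : ∀ y ∈ S, κ y = κ x) :
    Z.neighborSet x ⊆ T := by
  intro v hv
  rw [← h.NS]
  exact ⟨fun hvS => h.ne_of_adj hv (hS v hvS).symm, x, hx, hv⟩

private lemma small_I7 [Finite V] {Z : SimpleGraph V} {κ : V → ZMod 2} {S T : Set V}
    (h : Core Z κ S T) {a b c : V} (hS : S = {a, b, c}) (hab : a ≠ b) (hac : a ≠ c)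
    (hbc : b ≠ c) (h1 : κ a = κ c) (h2 : κ b = κ c) (hm : Mono κ T)
    (ha : (Z.neighborSet a).ncard = 3) (hb : (Z.neighborSet b).ncard = 3)
    (hc : (Z.neighborSet c).ncard = 3) :
    ∃ φ : Fin 7 → V, Function.Injective φ ∧ (∀ x y, I7.Adj x y → Z.Adj (φ x) (φ y)) ∧
      T = {φ 0, φ 1, φ 2, φ 3} ∧ Mono κ T := by
  have haS : a ∈ S := by rw [hS]; simp
  have hbS : b ∈ S := by rw [hS]; simp
  have hcS : c ∈ S := by rw [hS]; simp
  have hcol : ∀ y ∈ S, κ y = κ c := by
    intro y hy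
    rw [hS] at hy
    rcases hy with rfl | rfl | hy
    · exact h1
    · exact h2
    · rw [Set.mem_singleton_iff] at hy; rw [hy]
  have sa : Z.neighborSet a ⊆ T := small_nbr h haS fun y hy => (hcol y hy).trans h1.symm
  have sb : Z.neighborSet b ⊆ T := small_nbr h hbS fun y hy => (hcol y hy).trans h2.symm
  have sc : Z.neighborSet c ⊆ T := small_nbr h hcS hcol
  have key : ∀ x : V, Z.neighborSet x ⊆ T → (Z.neighborSet x).ncard = 3 →
      ∃ t, T \ Z.neighborSet x = {t} := by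
    intro x hx hx3
    have := Set.ncard_sdiff_add_ncard_of_subset hx (Set.toFinite _)
    rw [h.T4, hx3] at this
    exact Set.ncard_eq_one.1 (by omega)
  have key2 : ∀ x y t : V, y ∈ S → x ≠ y → (Z.neighborSet y).ncard = 3 → Z.neighborSet y ⊆ T →
      T \ Z.neighborSet x = {t} → T \ Z.neighborSet y = {t} → False := by
    intro x y t hy hxy hy3 hyT h5 h6
    apply h.T3 x y hy hxy hy3
    intro v hv
    by_contra hvx
    have h7 : v ∈ T \ Z.neighborSet x := ⟨hyT hv, hvx⟩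
    rw [h5, ← h6] at h7
    exact h7.2 hv
  obtain ⟨ta, hta⟩ := key a sa ha
  obtain ⟨tb, htb⟩ := key b sb hb
  obtain ⟨tc, htc⟩ := key c sc hc
  have tab : ta ≠ tb := fun hh => key2 a b ta hbS hab hb sb hta (hh ▸ htb)
  have tac : ta ≠ tc := fun hh => key2 a c ta hcS hac hc sc hta (hh ▸ htc)
  have tbc : tb ≠ tc := fun hh => key2 b c tb hcS hbc hc sc htb (hh ▸ htc)
  have ma : ta ∈ T \ Z.neighborSet a := by rw [hta]; rfl
  have mb : tb ∈ T \ Z.neighborSet b := by rw [htb]; rfl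
  have mc : tc ∈ T \ Z.neighborSet c := by rw [htc]; rfl
  have hsub : ({ta, tb, tc} : Set V) ⊆ T := by
    rintro v (rfl | rfl | hv)
    · exact ma.1
    · exact mb.1
    · rw [Set.mem_singleton_iff] at hv; rw [hv]; exact mc.1
  have hcard : ({ta, tb, tc} : Set V).ncard = 3 := Set.ncard_eq_three.2 ⟨_, _, _, tab, tac, tbc, rfl⟩
  have h8 := Set.ncard_sdiff_add_ncard_of_subset hsub (Set.toFinite _)
  rw [h.T4, hcard] at h8
  obtain ⟨r, hr⟩ := Set.ncard_eq_one.1 (by omega : (T \ ({ta, tb, tc} : Set V)).ncard = 1)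
  have mr : r ∈ T \ ({ta, tb, tc} : Set V) := by rw [hr]; rfl
  have mr2 := mr.2
  simp only [Set.mem_insert_iff, Set.mem_singleton_iff, not_or] at mr2
  have hTeq : T = {ta, tb, r, tc} := by
    ext v
    simp only [Set.mem_insert_iff, Set.mem_singleton_iff]
    constructor
    · intro hv
      by_cases h9 : v ∈ ({ta, tb, tc} : Set V)
      · rcases h9 with h9 | h9 | h9
        · exact Or.inl h9
        · exact Or.inr (Or.inl h9)
        · exact Or.inr (Or.inr (Or.inr h9))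
      · have : v ∈ T \ ({ta, tb, tc} : Set V) := ⟨hv, h9⟩
        rw [hr, Set.mem_singleton_iff] at this
        exact Or.inr (Or.inr (Or.inl this))
    · rintro (rfl | rfl | rfl | rfl)
      · exact ma.1
      · exact mb.1
      · exact mr.1
      · exact mc.1
  have hadj : ∀ x t : V, T \ Z.neighborSet x = {t} → ∀ v ∈ T, v ≠ t → Z.Adj x v := by
    intro x t ht v hv hvt
    by_contra hn
    have : v ∈ T \ Z.neighborSet x := ⟨hv, hn⟩
    rw [ht, Set.mem_singleton_iff] at this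
    exact hvt this
  have hdis : ∀ x ∈ S, ∀ t ∈ T, x ≠ t := fun x hx t ht hh =>
    (Set.disjoint_left.1 h.disj) hx (hh ▸ ht)
  refine ⟨![ta, tb, r, tc, a, b, c], ?_, ?_, hTeq, hm⟩
  · have e1 := hdis a haS ta ma.1
    have e2 := hdis a haS tb mb.1
    have e3 := hdis a haS tc mc.1
    have e4 := hdis a haS r mr.1
    have e5 := hdis b hbS ta ma.1
    have e6 := hdis b hbS tb mb.1
    have e7 := hdis b hbS tc mc.1
    have e8 := hdis b hbS r mr.1
    have e9 := hdis c hcS ta ma.1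
    have e10 := hdis c hcS tb mb.1
    have e11 := hdis c hcS tc mc.1
    have e12 := hdis c hcS r mr.1
    have r1 := mr2.1
    have r2 := mr2.2.1
    have r3 := mr2.2.2
    intro i j hij
    fin_cases i <;> fin_cases j <;>
      first
      | rfl
      | exact absurd hij tab | exact absurd hij.symm tab
      | exact absurd hij tac | exact absurd hij.symm tac
      | exact absurd hij tbc | exact absurd hij.symm tbc
      | exact absurd hij r1 | exact absurd hij.symm r1
      | exact absurd hij r2 | exact absurd hij.symm r2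
      | exact absurd hij r3 | exact absurd hij.symm r3
      | exact absurd hij hab | exact absurd hij.symm hab
      | exact absurd hij hac | exact absurd hij.symm hac
      | exact absurd hij hbc | exact absurd hij.symm hbc
      | exact absurd hij e1 | exact absurd hij.symm e1
      | exact absurd hij e2 | exact absurd hij.symm e2
      | exact absurd hij e3 | exact absurd hij.symm e3
      | exact absurd hij e4 | exact absurd hij.symm e4
      | exact absurd hij e5 | exact absurd hij.symm e5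
      | exact absurd hij e6 | exact absurd hij.symm e6
      | exact absurd hij e7 | exact absurd hij.symm e7
      | exact absurd hij e8 | exact absurd hij.symm e8
      | exact absurd hij e9 | exact absurd hij.symm e9
      | exact absurd hij e10 | exact absurd hij.symm e10
      | exact absurd hij e11 | exact absurd hij.symm e11
      | exact absurd hij e12 | exact absurd hij.symm e12
  · rintro x y ⟨-, hxy⟩
    have hE : ∀ p : Fin 7 × Fin 7, p ∈ ([(4, 1), (4, 2), (4, 3), (5, 0), (5, 2), (5, 3), (6, 0),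
        (6, 1), (6, 2)] : List (Fin 7 × Fin 7)) →
        Z.Adj ((![ta, tb, r, tc, a, b, c] : Fin 7 → V) p.1)
          ((![ta, tb, r, tc, a, b, c] : Fin 7 → V) p.2) := by
      intro p hp
      simp only [List.mem_cons, List.not_mem_nil, or_false] at hp
      rcases hp with rfl | rfl | rfl | rfl | rfl | rfl | rfl | rfl | rfl
      · exact hadj a ta hta tb mb.1 tab.symm
      · exact hadj a ta hta r mr.1 mr2.1
      · exact hadj a ta hta tc mc.1 tac.symm
      · exact hadj b tb htb ta ma.1 tab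
      · exact hadj b tb htb r mr.1 mr2.2.1
      · exact hadj b tb htb tc mc.1 tbc.symm
      · exact hadj c tc htc ta ma.1 tac
      · exact hadj c tc htc tb mb.1 tbc
      · exact hadj c tc htc r mr.1 mr2.2.2
    rcases hxy with hxy | hxy
    · exact hE _ hxy
    · exact (hE _ hxy).symm

/-- Mixed triples with `f ≤ 2` are X3. -/
private lemma small_mixed2 [Finite V] {Z : SimpleGraph V} {κ : V → ZMod 2} {S T : Set V}
    (h : Core Z κ S T) {w y1 y2 : V} (hw : w ∈ S) (hy1 : y1 ∈ S)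
    (hy2 : y2 ∈ S) (hyy : y1 ≠ y2) (hk : κ y1 = κ y2) (hk' : κ w ≠ κ y1)
    (h4 : (Nb Z {w, y1, y2}).ncard = 4) (hf : fden Z {w, y1, y2} ≤ 2) :
    fden Z {w, y1, y2} ≤ 1 := by
  by_contra hgt
  obtain ⟨a1, a2, e1, c1, c2, n1, n2, n3, hm⟩ := small_mixed h hw hy1 hy2 hyy hk hk' h4
  rw [n3] at hf hgt
  have d0 := h.deg3 w hw
  have d1 := h.deg3 y1 hy1
  have d2 := h.deg3 y2 hy2
  have m1 := Set.ncard_sdiff_singleton_add_one (s := Z.neighborSet y1) (a := w) a1.symm
    (Set.toFinite _)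
  have m2 := Set.ncard_sdiff_singleton_add_one (s := Z.neighborSet y2) (a := w) a2.symm
    (Set.toFinite _)
  have hsub : ∀ y : V, Z.neighborSet y \ {w} ⊆ (Z.neighborSet y1 ∪ Z.neighborSet y2) \ {w} →
      ((Z.neighborSet y1 ∪ Z.neighborSet y2) \ {w}).ncard ≤ (Z.neighborSet y \ {w}).ncard →
      Z.Adj y w → ∀ z, (z = y1 ∨ z = y2) → Z.neighborSet z ⊆ Z.neighborSet y := by
    intro y hy hle hyw z hz v hv
    have e := Set.eq_of_subset_of_ncard_le hy hle (Set.toFinite _)
    by_cases hvw : v = w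
    · rw [hvw]; exact hyw
    · have : v ∈ (Z.neighborSet y1 ∪ Z.neighborSet y2) \ {w} := by
        refine ⟨?_, hvw⟩
        rcases hz with rfl | rfl
        · exact Or.inl hv
        · exact Or.inr hv
      rw [← e] at this
      exact this.1
  have s1 : Z.neighborSet y1 \ {w} ⊆ (Z.neighborSet y1 ∪ Z.neighborSet y2) \ {w} :=
    fun v hv => ⟨Or.inl hv.1, hv.2⟩
  have s2 : Z.neighborSet y2 \ {w} ⊆ (Z.neighborSet y1 ∪ Z.neighborSet y2) \ {w} :=
    fun v hv => ⟨Or.inr hv.1, hv.2⟩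
  by_cases hle : (Z.neighborSet y1).ncard ≤ (Z.neighborSet y2).ncard
  · exact h.T3 y2 y1 hy1 hyy.symm (by omega) (hsub y2 s2 (by omega) a2.symm y1 (Or.inl rfl))
  · exact h.T3 y1 y2 hy2 hyy (by omega) (hsub y1 s1 (by omega) a1.symm y2 (Or.inr rfl))

/-- Four-sets with three elements. -/
theorem three_class [Finite V] {Z : SimpleGraph V} {κ : V → ZMod 2} {S T : Set V}
    (h : Core Z κ S T) {A : Set V} (hA : A ⊆ S) (h3 : A.ncard = 3) (h4 : (Nb Z A).ncard = 4) :
    (∃ w y1 y2 n1 n2 n3 n4, IsX3 Z A w y1 y2 n1 n2 n3 n4) ∨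
    (A = S ∧ ∃ φ : Fin 7 → V, Function.Injective φ ∧ (∀ x y, I7.Adj x y → Z.Adj (φ x) (φ y)) ∧
      T = {φ 0, φ 1, φ 2, φ 3} ∧ Mono κ T) := by
  have hP23 := small_P23 h hA h4
  rcases small_split κ h3 with ⟨a, b, c, hAe, hab, hac, hbc, h1, h2⟩ |
    ⟨w, y1, y2, rfl, hyy, hk, hk'⟩
  · right
    obtain ⟨-, hm, hf⟩ := small_same3 h hab hac hbc h1 h2
    rw [← hAe] at hm hf
    rw [beta_of_mono hm, h4, hf] at hP23
    push_cast at hP23
    have d1 := h.deg3 a (hA (by rw [hAe]; simp))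
    have d2 := h.deg3 b (hA (by rw [hAe]; simp))
    have d3 := h.deg3 c (hA (by rw [hAe]; simp))
    have hAS : A = S := by
      by_contra hAS
      have hP2 := h.P2 A hA hAS h4
      rw [beta_of_mono hm, h4, hf] at hP2
      push_cast at hP2
      omega
    rw [hAS, h.NS] at hm
    exact ⟨hAS, small_I7 h (hAS ▸ hAe) hab hac hbc h1 h2 hm (by omega) (by omega) (by omega)⟩
  · left
    have hw : w ∈ S := hA (by simp)
    have hy1 : y1 ∈ S := hA (by simp)
    have hy2 : y2 ∈ S := hA (by simp)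
    have hm := (small_mixed h hw hy1 hy2 hyy hk hk' h4).2.2.2.2.2.2.2.2
    rw [beta_of_not_mono hm, h4] at hP23
    push_cast at hP23
    have hf := small_mixed2 h hw hy1 hy2 hyy hk hk' h4 (by linarith)
    obtain ⟨n1, n2, n3, n4, hX⟩ := small_X3 h hw hy1 hy2 hyy hk hk' h4 hf
    exact ⟨w, y1, y2, n1, n2, n3, n4, hX⟩

private lemma small_sq [Finite V] {Z : SimpleGraph V} {κ : V → ZMod 2} {S T : Set V}
    (_h : Core Z κ S T) {E : Set V} {x1 x2 y1 y2 p q r s : V} (hE : IsSq Z E x1 x2 y1 y2 p q r s) :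
    fden Z E ≤ 0 := by
  have a11 : Z.Adj x1 y1 := by rw [← SimpleGraph.mem_neighborSet, hE.nx1]; simp
  have a12 : Z.Adj x1 y2 := by rw [← SimpleGraph.mem_neighborSet, hE.nx1]; simp
  have a21 : Z.Adj x2 y1 := by rw [← SimpleGraph.mem_neighborSet, hE.nx2]; simp
  have a22 : Z.Adj x2 y2 := by rw [← SimpleGraph.mem_neighborSet, hE.nx2]; simp
  have f1 := small_f1 Z y2
  have f2 := fden_insert Z (y := y1) (Y := {y2}) (by simp [hE.yy])
  have f3 := fden_insert Z (y := x2) (Y := {y1, y2}) (by simp [a21.ne, a22.ne])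
  have f4 := fden_insert Z (y := x1) (Y := {x2, y1, y2}) (by simp [hE.xx, a11.ne, a12.ne])
  have g1 : (Z.neighborSet y2).ncard ≤ 3 := by
    rw [hE.ny2]
    have := Set.ncard_insert_le x1 ({x2, s} : Set V)
    have := ncard_pair_le' x2 s
    omega
  have g2 : (Z.neighborSet y1 \ {y2}).ncard ≤ 3 := by
    refine (Set.ncard_le_ncard Set.sdiff_subset (Set.toFinite _)).trans ?_
    rw [hE.ny1]
    have := Set.ncard_insert_le x1 ({x2, r} : Set V)
    have := ncard_pair_le' x2 r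
    omega
  have g3 : (Z.neighborSet x2 \ {y1, y2}).ncard ≤ 1 := by
    have : Z.neighborSet x2 \ {y1, y2} ⊆ {q} := by
      rintro v ⟨hv, hv'⟩
      rw [hE.nx2] at hv
      simp only [Set.mem_insert_iff, Set.mem_singleton_iff, not_or] at hv hv' ⊢
      tauto
    have h1 := Set.ncard_le_ncard this (Set.toFinite _)
    rwa [Set.ncard_singleton] at h1
  have g4 : (Z.neighborSet x1 \ {x2, y1, y2}).ncard ≤ 1 := by
    have : Z.neighborSet x1 \ {x2, y1, y2} ⊆ {p} := by
      rintro v ⟨hv, hv'⟩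
      rw [hE.nx1] at hv
      simp only [Set.mem_insert_iff, Set.mem_singleton_iff, not_or] at hv hv' ⊢
      tauto
    have h1 := Set.ncard_le_ncard this (Set.toFinite _)
    rwa [Set.ncard_singleton] at h1
  rw [hE.eq, f4, f3, f2, f1]
  have g1' : ((Z.neighborSet y2).ncard : ℤ) ≤ 3 := by exact_mod_cast g1
  have g2' : ((Z.neighborSet y1 \ {y2}).ncard : ℤ) ≤ 3 := by exact_mod_cast g2
  have g3' : ((Z.neighborSet x2 \ {y1, y2}).ncard : ℤ) ≤ 1 := by exact_mod_cast g3
  have g4' : ((Z.neighborSet x1 \ {x2, y1, y2}).ncard : ℤ) ≤ 1 := by exact_mod_cast g4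
  linarith

private lemma small_fX3 [Finite V] {Z : SimpleGraph V} {E : Set V} {w y1 y2 n1 n2 n3 n4 : V}
    (hE : IsX3 Z E w y1 y2 n1 n2 n3 n4) : fden Z E ≤ 1 := by
  have a1 : Z.Adj w y1 := by rw [← SimpleGraph.mem_neighborSet, hE.nw]; simp
  have a2 : Z.Adj w y2 := by rw [← SimpleGraph.mem_neighborSet, hE.nw]; simp
  have f1 := small_f1 Z y2
  have f2 := fden_insert Z (y := y1) (Y := {y2}) (by simp [hE.yy])
  have f3 := fden_insert Z (y := w) (Y := {y1, y2}) (by simp [a1.ne, a2.ne])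
  have g1 : (Z.neighborSet y2).ncard ≤ 3 := by
    rw [hE.ny2]
    have := Set.ncard_insert_le w ({n2, n3} : Set V)
    have := ncard_pair_le' n2 n3
    omega
  have g2 : (Z.neighborSet y1 \ {y2}).ncard ≤ 3 := by
    refine (Set.ncard_le_ncard Set.sdiff_subset (Set.toFinite _)).trans ?_
    rw [hE.ny1]
    have := Set.ncard_insert_le w ({n1, n3} : Set V)
    have := ncard_pair_le' n1 n3
    omega
  have g3 : (Z.neighborSet w \ {y1, y2}).ncard ≤ 1 := by
    have : Z.neighborSet w \ {y1, y2} ⊆ {n4} := by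
      rintro v ⟨hv, hv'⟩
      rw [hE.nw] at hv
      simp only [Set.mem_insert_iff, Set.mem_singleton_iff, not_or] at hv hv' ⊢
      tauto
    have h1 := Set.ncard_le_ncard this (Set.toFinite _)
    rwa [Set.ncard_singleton] at h1
  rw [hE.eq, f3, f2, f1]
  have g1' : ((Z.neighborSet y2).ncard : ℤ) ≤ 3 := by exact_mod_cast g1
  have g2' : ((Z.neighborSet y1 \ {y2}).ncard : ℤ) ≤ 3 := by exact_mod_cast g2
  have g3' : ((Z.neighborSet w \ {y1, y2}).ncard : ℤ) ≤ 1 := by exact_mod_cast g3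
  linarith

/-- `S` is not in the list. -/
theorem S_notLL [Finite V] {Z : SimpleGraph V} {κ : V → ZMod 2} {S T : Set V}
    (h : CoreD Z κ S T) : ¬ IsLL Z S := by
  intro hE
  have h2 := le_beta κ T
  rw [h.T4] at h2
  push_cast at h2
  have h3 := h.P3
  have hNS := h.NS
  rcases hE with ⟨x, hx⟩ | ⟨w1, w2, a', b', e, g, hE⟩ | ⟨x1, x2, p, q, r, s, hE⟩ |
    ⟨w, y1, y2, n1, n2, n3, n4, hE⟩ | ⟨x1, x2, y1, y2, p, q, r, s, hE⟩
  · have h5 := h.two
    rw [hx, Set.ncard_singleton] at h5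
    omega
  · have e1 : Z.Adj w1 e := by rw [← SimpleGraph.mem_neighborSet, hE.n1]; simp
    have e2 : Z.Adj w2 e := by rw [← SimpleGraph.mem_neighborSet, hE.n2]; simp
    have hk : κ w1 = κ w2 := h.eq_of_adj e1.symm e2.symm
    obtain ⟨-, hm, hf⟩ := small_same h.toCore hE.ne hk
    rw [← hE.eq] at hm hf
    rw [hNS] at hm
    rw [beta_of_mono hm, h.T4, hf, hE.n1, hE.n2] at h3
    have c1 := Set.ncard_insert_le a' ({e, g} : Set V)
    have c2 := Set.ncard_insert_le b' ({e, g} : Set V)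
    have c3 := ncard_pair_le' e g
    push_cast at h3
    omega
  · have hadj : Z.Adj x1 x2 := by rw [← SimpleGraph.mem_neighborSet, hE.n1]; simp
    obtain ⟨-, -, -, -, -, -, hf⟩ := small_adj h.toCore hadj
    rw [← hE.eq] at hf
    have c1 := Set.ncard_insert_le x2 ({p, q} : Set V)
    have c2 := Set.ncard_insert_le x1 ({r, s} : Set V)
    have c3 := ncard_pair_le' p q
    have c4 := ncard_pair_le' r s
    rw [hE.n1, hE.n2] at hf
    omega
  · have := small_fX3 hE
    linarith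
  · have := small_sq h.toCore hE
    linarith

/-- There is an inclusion-minimal four-set which is not in the list. -/
theorem exists_minX [Finite V] {Z : SimpleGraph V} {κ : V → ZMod 2} {S T : Set V}
    (h : Core Z κ S T) (hS : ¬ IsLL Z S)
    (h7 : ¬ ∃ φ : Fin 7 → V, Function.Injective φ ∧ (∀ x y, I7.Adj x y → Z.Adj (φ x) (φ y)) ∧
      T = {φ 0, φ 1, φ 2, φ 3} ∧ Mono κ T) : ∃ X, MinX Z S X := by
  obtain ⟨X, ⟨hX1, hX2, hX3⟩, hmin⟩ := Set.exists_min_image
    {X : Set V | X ⊆ S ∧ (Nb Z X).ncard = 4 ∧ ¬ IsLL Z X} Set.ncard (Set.toFinite _)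
    ⟨S, subset_rfl, small_NbS h, hS⟩
  refine ⟨X, hX1, hX2, hX3, ?_, ?_⟩
  · by_contra hlt
    rcases (by omega : X.ncard = 0 ∨ X.ncard = 1 ∨ X.ncard = 2 ∨ X.ncard = 3) with
      h0 | h0 | h0 | h0
    · rw [Set.ncard_eq_zero (Set.toFinite _)] at h0
      rw [h0, Nb_empty, Set.ncard_empty] at hX2
      omega
    · exact hX3 (Or.inl (Set.ncard_eq_one.1 h0))
    · rcases two_class h hX1 h0 hX2 with h5 | h5
      · exact hX3 (Or.inr (Or.inl h5))
      · exact hX3 (Or.inr (Or.inr (Or.inl h5)))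
    · rcases three_class h hX1 h0 hX2 with h5 | h5
      · exact hX3 (Or.inr (Or.inr (Or.inr (Or.inl h5))))
      · exact h7 h5.2
  · intro A hA hne _ hA4
    by_contra hn
    have h5 := hmin A ⟨hA.trans hX1, hA4, hn⟩
    have h6 := Set.ncard_lt_ncard (lt_of_le_of_ne hA hne) (Set.toFinite _)
    omega

/-! ### The tight mode -/

private lemma small_TB {κ : V → ZMod 2} {T : Set V} (h : Is22 κ T) : ¬ Mono κ T := by
  obtain ⟨p, q, u, v, rfl, -, -, -, -, h3⟩ := h
  intro hm
  exact h3 (hm p (by simp) u (by simp))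

/-- A graph with a totally odd `K4`. -/
private def small_K : SimpleGraph (Fin 6) :=
  ofList [(0, 1), (0, 2), (0, 3), (1, 2), (1, 4), (4, 3), (2, 5), (5, 3)]

private instance : DecidableRel small_K.Adj := inferInstanceAs (DecidableRel (ofList _).Adj)

private def small_c : Sym2 (Fin 6) → ZMod 2 :=
  fun e => if e = s(1, 4) then 0 else if e = s(2, 5) then 0 else 1

set_option synthInstance.maxSize 2000 in
private lemma small_tok : HasTOK4s small_K small_c :=
  HasTOK4s.of_lists ![0, 1, 2, 3]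
    (sixLists [0, 1] [0, 2] [0, 3] [1, 2] [1, 4, 3] [2, 5, 3])
    (by decide) (by decide) (by decide)

/-- Two adjacent vertices `S = {y, z}` give an H-tree. -/
private lemma small_HT [Finite V] {Z : SimpleGraph V} {κ : V → ZMod 2} {S T : Set V}
    (h : Core Z κ S T) {y z u p q v : V} (hy : y ∈ S) (hz : z ∈ S) (huT : u ∈ T) (hpT : p ∈ T)
    (hqT : q ∈ T) (hvT : v ∈ T) (hyz : Z.Adj y z) (hyp : Z.Adj y p) (hyq : Z.Adj y q)
    (hzu : Z.Adj z u) (hzv : Z.Adj z v) (hpq : p ≠ q) (huv : u ≠ v) (h1 : κ p = κ q)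
    (h2 : κ u = κ v) (h3 : κ p ≠ κ u) : FrameX Z κ (pathE u p q v) := by
  have hdis : ∀ x ∈ S, ∀ t ∈ T, x ≠ t := fun x hx t ht hh =>
    (Set.disjoint_left.1 h.disj) hx (hh ▸ ht)
  have hT : ∀ a ∈ T, ∀ b ∈ T, ¬ Z.Adj a b := by
    intro a ha b hb hab
    rcases h.edge_S a b hab with h5 | h5
    · exact hdis a h5 a ha rfl
    · exact hdis b h5 b hb rfl
  have hup : u ≠ p := fun hh => h3 (hh ▸ rfl)
  have huq : u ≠ q := fun hh => h3 (h1.trans (hh ▸ rfl))
  have hvp : v ≠ p := fun hh => h3 ((congrArg κ hh).symm.trans h2.symm)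
  have hvq : v ≠ q := fun hh => h3 (h1.trans ((congrArg κ hh).symm.trans h2.symm))
  have e1 := hyz.ne
  have e2 := hdis y hy p hpT
  have e3 := hdis y hy q hqT
  have e4 := hdis y hy u huT
  have e5 := hdis y hy v hvT
  have e6 := hdis z hz p hpT
  have e7 := hdis z hz q hqT
  have e8 := hdis z hz u huT
  have e9 := hdis z hz v hvT
  unfold FrameX
  refine HasTOK4s.of_injective (![y, p, q, z, u, v] : Fin 6 → V) ?_ ?_ small_tok
  · intro i _ j _ hij
    fin_cases i <;> fin_cases j <;>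
      first
      | rfl
      | exact absurd hij hpq | exact absurd hij.symm hpq
      | exact absurd hij huv | exact absurd hij.symm huv
      | exact absurd hij hup | exact absurd hij.symm hup
      | exact absurd hij huq | exact absurd hij.symm huq
      | exact absurd hij hvp | exact absurd hij.symm hvp
      | exact absurd hij hvq | exact absurd hij.symm hvq
      | exact absurd hij e1 | exact absurd hij.symm e1
      | exact absurd hij e2 | exact absurd hij.symm e2
      | exact absurd hij e3 | exact absurd hij.symm e3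
      | exact absurd hij e4 | exact absurd hij.symm e4
      | exact absurd hij e5 | exact absurd hij.symm e5
      | exact absurd hij e6 | exact absurd hij.symm e6
      | exact absurd hij e7 | exact absurd hij.symm e7
      | exact absurd hij e8 | exact absurd hij.symm e8
      | exact absurd hij e9 | exact absurd hij.symm e9
  · have hZ : ∀ a b : V, Z.Adj a b → (Z ⊔ pathE u p q v).Adj a b ∧ cE Z κ s(a, b) = 1 := by
      intro a b hab
      refine ⟨?_, ?_⟩
      · rw [SimpleGraph.sup_adj]; exact Or.inl hab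
      · rw [cE_of_adj hab]; exact h.prop a b hab
    have hsame : ∀ a b : ZMod 2, a = b → 1 + a + b = 1 := by decide
    have hdiff : ∀ a b : ZMod 2, a ≠ b → 1 + a + b = 0 := by decide
    have hE : ∀ e : Fin 6 × Fin 6, e ∈ ([(0, 1), (0, 2), (0, 3), (1, 2), (1, 4), (4, 3), (2, 5),
        (5, 3)] : List (Fin 6 × Fin 6)) →
        (Z ⊔ pathE u p q v).Adj ((![y, p, q, z, u, v] : Fin 6 → V) e.1)
          ((![y, p, q, z, u, v] : Fin 6 → V) e.2) ∧
        cE Z κ s((![y, p, q, z, u, v] : Fin 6 → V) e.1, (![y, p, q, z, u, v] : Fin 6 → V) e.2) =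
          small_c s(e.1, e.2) := by
      intro e he
      simp only [List.mem_cons, List.not_mem_nil, or_false] at he
      rcases he with rfl | rfl | rfl | rfl | rfl | rfl | rfl | rfl
      · exact hZ y p hyp
      · exact hZ y q hyq
      · exact hZ y z hyz
      · refine ⟨?_, ?_⟩
        · show (Z ⊔ pathE u p q v).Adj p q
          rw [SimpleGraph.sup_adj, pathE_adj]
          exact Or.inr ⟨hpq, Or.inr (Or.inl rfl)⟩
        · show cE Z κ s(p, q) = 1
          rw [cE_of_not_adj (hT p hpT q hqT)]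
          exact hsame _ _ h1
      · refine ⟨?_, ?_⟩
        · show (Z ⊔ pathE u p q v).Adj p u
          rw [SimpleGraph.sup_adj, pathE_adj]
          exact Or.inr ⟨hup.symm, Or.inl Sym2.eq_swap⟩
        · show cE Z κ s(p, u) = 0
          rw [cE_of_not_adj (hT p hpT u huT)]
          exact hdiff _ _ h3
      · exact hZ u z hzu.symm
      · refine ⟨?_, ?_⟩
        · show (Z ⊔ pathE u p q v).Adj q v
          rw [SimpleGraph.sup_adj, pathE_adj]
          exact Or.inr ⟨hvq.symm, Or.inr (Or.inr rfl)⟩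
        · show cE Z κ s(q, v) = 0
          rw [cE_of_not_adj (hT q hqT v hvT)]
          exact hdiff _ _ (fun hh => h3 (h1.trans (hh.trans h2.symm)))
      · exact hZ v z hzv.symm
    rintro a b ⟨-, hab⟩
    rcases hab with hab | hab
    · exact hE _ hab
    · obtain ⟨h5, h6⟩ := hE _ hab
      refine ⟨h5.symm, ?_⟩
      rw [Sym2.eq_swap, Sym2.eq_swap (a := a) (b := b)]
      exact h6

/-- Tight mode: `S` is not in the list. -/
theorem S_notLLB [Finite V] {Z : SimpleGraph V} {κ : V → ZMod 2} {S T : Set V}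
    (h : CoreB Z κ S T) : ¬ IsLL Z S := by
  intro hE
  have hTm := small_TB h.TT
  have h3 := h.P3
  rw [beta_of_not_mono hTm, h.T4] at h3
  push_cast at h3
  have hNS := h.NS
  rcases hE with ⟨x, hx⟩ | ⟨w1, w2, a', b', e, g, hE⟩ | ⟨x1, x2, p, q, r, s, hE⟩ |
    ⟨w, y1, y2, n1, n2, n3, n4, hE⟩ | ⟨x1, x2, y1, y2, p, q, r, s, hE⟩
  · have h5 := h.two
    rw [hx, Set.ncard_singleton] at h5
    omega
  · have e1 : Z.Adj w1 e := by rw [← SimpleGraph.mem_neighborSet, hE.n1]; simp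
    have e2 : Z.Adj w2 e := by rw [← SimpleGraph.mem_neighborSet, hE.n2]; simp
    have hk : κ w1 = κ w2 := h.eq_of_adj e1.symm e2.symm
    obtain ⟨-, hm, -⟩ := small_same h.toCore hE.ne hk
    rw [← hE.eq, hNS] at hm
    exact hTm hm
  · have hadj : Z.Adj x1 x2 := by rw [← SimpleGraph.mem_neighborSet, hE.n1]; simp
    have hx1 : x1 ∈ S := by rw [hE.eq]; simp
    have hx2 : x2 ∈ S := by rw [hE.eq]; simp
    apply h.noHT
    intro u' p' q' v' hT' hpq' huv' k1 k2 k3
    have huT : u' ∈ T := by rw [hT']; simp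
    have hpT : p' ∈ T := by rw [hT']; simp
    have hqT : q' ∈ T := by rw [hT']; simp
    have hvT : v' ∈ T := by rw [hT']; simp
    have hnb : ∀ t ∈ T, Z.Adj x1 t ∨ Z.Adj x2 t := by
      intro t ht
      rw [← hNS] at ht
      obtain ⟨-, x, hx, hxt⟩ := ht
      rw [hE.eq] at hx
      rcases hx with rfl | hx
      · exact Or.inl hxt
      · rw [Set.mem_singleton_iff] at hx
        subst hx
        exact Or.inr hxt
    have main : ∀ y z : V, y ∈ S → z ∈ S → Z.Adj y z → (∀ t ∈ T, Z.Adj y t ∨ Z.Adj z t) →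
        Z.Adj y p' → FrameX Z κ (pathE u' p' q' v') := by
      intro y z hy hz hyz hall hyp
      have hyq : Z.Adj y q' := by
        rcases hall q' hqT with h5 | h5
        · exact h5
        · exact absurd (k1 ▸ small_col (h.ne_of_adj hyp).symm (h.ne_of_adj hyz).symm :
            κ q' = κ z) (h.ne_of_adj h5).symm
      have hu : ∀ t ∈ T, κ p' ≠ κ t → Z.Adj z t := by
        intro t ht hpt
        rcases hall t ht with h5 | h5
        · exact absurd (small_col (h.ne_of_adj hyp).symm (h.ne_of_adj h5).symm) hpt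
        · exact h5
      exact small_HT h.toCore hy hz huT hpT hqT hvT hyz hyp hyq (hu u' huT k3)
        (hu v' hvT (k2 ▸ k3)) hpq' huv' k1 k2 k3
    rcases hnb p' hpT with h5 | h5
    · exact main x1 x2 hx1 hx2 hadj hnb h5
    · exact main x2 x1 hx2 hx1 hadj.symm (fun t ht => (hnb t ht).symm) h5
  · have hw : w ∈ S := by rw [hE.eq]; simp
    have hy1 : y1 ∈ S := by rw [hE.eq]; simp
    have hy2 : y2 ∈ S := by rw [hE.eq]; simp
    have a1 : Z.Adj w y1 := by rw [← SimpleGraph.mem_neighborSet, hE.nw]; simp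
    have a2 : Z.Adj w y2 := by rw [← SimpleGraph.mem_neighborSet, hE.nw]; simp
    have hk : κ y1 = κ y2 := h.eq_of_adj a1 a2
    have hk' : κ w ≠ κ y1 := h.ne_of_adj a1
    have h4 : (Nb Z {w, y1, y2}).ncard = 4 := by rw [← hE.eq]; exact small_NbS h.toCore
    obtain ⟨-, -, e1, c1, c2, n1, n2, n3, -⟩ :=
      small_mixed h.toCore hw hy1 hy2 hE.yy hk hk' h4
    rw [← hE.eq, hNS] at e1
    rw [← hE.eq] at n3
    have d0 := h.deg3 w hw
    have d1 := h.deg3 y1 hy1
    have d2 := h.deg3 y2 hy2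
    have hU3 : 3 ≤ ((Z.neighborSet y1 ∪ Z.neighborSet y2) \ {w}).ncard := by omega
    obtain ⟨p, q, u, v, hT, hpq, huv, k1, k2, k3⟩ := h.TT
    have hUT : (Z.neighborSet y1 ∪ Z.neighborSet y2) \ {w} ⊆ T := by
      rw [e1]; exact Set.subset_union_right
    have hle : ((Z.neighborSet y1 ∪ Z.neighborSet y2) \ {w}).ncard ≤ 2 := by
      by_cases hwp : κ w = κ p
      · refine (Set.ncard_le_ncard (t := {p, q}) ?_ (Set.toFinite _)).trans
          (ncard_pair_le' _ _)
        intro t ht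
        have h5 := c2 t ht
        have h6 := hUT ht
        rw [hT] at h6
        rcases h6 with rfl | rfl | rfl | rfl
        · simp
        · simp
        · exact absurd (hwp.symm.trans h5.symm) k3
        · exact absurd (hwp.symm.trans (h5.symm.trans k2.symm)) k3
      · refine (Set.ncard_le_ncard (t := {u, v}) ?_ (Set.toFinite _)).trans
          (ncard_pair_le' _ _)
        intro t ht
        have h5 := c2 t ht
        have h6 := hUT ht
        rw [hT] at h6
        rcases h6 with rfl | rfl | rfl | rfl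
        · exact absurd h5.symm hwp
        · exact absurd (h5.symm.trans k1.symm) hwp
        · simp
        · simp
    omega
  · have := small_sq h.toCore hE
    linarith

/-- Tight mode: there is an inclusion-minimal four-set which is not in the list. -/
theorem exists_minXB [Finite V] {Z : SimpleGraph V} {κ : V → ZMod 2} {S T : Set V}
    (h : CoreB Z κ S T) : ∃ X, MinX Z S X :=
  exists_minX h.toCore (S_notLLB h) (fun ⟨_, _, _, _, hm⟩ => small_TB h.TT hm)

end Pool.Agent.Helper51.TDC
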