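import Pool.Agent.Helper51.TDC.Star
import Pool.Agent.Helper51.TDC.Small
import Pool.Agent.Helper51.TDC.Layer

/-!
# Theorem D, core part 8: `X = S`, and the contradiction
-/

set_option autoImplicit false

namespace Pool.Agent.Helper51.TDC

open SimpleGraph Pool.Agent.Helper57.TOK Pool.Agent.Helper57.TD

variable {V : Type*}

lemma final_three {N : Set V} (h3 : N.ncard = 3) {s : V} (hs : s ∈ N) :
    ∃ t t', N = {t, s, t'} ∧ t ≠ s ∧ t ≠ t' ∧ s ≠ t' := by
  obtain ⟨x, y, z, hxy, hxz, hyz, rfl⟩ := Set.ncard_eq_three.1 h3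
  rcases hs with rfl | rfl | rfl
  · exact ⟨y, z, by ext v; simp only [Set.mem_insert_iff, Set.mem_singleton_iff]; tauto,
      hxy.symm, hyz, hxz⟩
  · exact ⟨x, z, rfl, hxy, hxz, hyz⟩
  · exact ⟨x, y, by ext v; simp only [Set.mem_insert_iff, Set.mem_singleton_iff]; tauto,
      hxz, hxy, hyz.symm⟩

/-- `T` of one colour: every cubic vertex has all its neighbours in `T`. -/
theorem mono_cubic [Finite V] {Z : SimpleGraph V} {κ : V → ZMod 2} {S T : Set V}
    (h : Core Z κ S T) (hX : MinX Z S S) (hs : Star Z S) (hm : Mono κ T) :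
    ∀ v ∈ Cub Z S, Z.neighborSet v ⊆ T := by
  rintro v ⟨hvS, hv3⟩ s hsv
  by_contra hsT
  have hadj : Z.Adj v s := hsv
  have hsS : s ∈ S := (h.edge_mem s v hadj.symm).resolve_right hsT
  obtain ⟨t, t', hN, hts, htt, hst⟩ := final_three hv3 hsv
  have hvt : Z.Adj v t := by
    have : t ∈ Z.neighborSet v := by rw [hN]; simp
    exact this
  have hvt' : Z.Adj v t' := by
    have : t' ∈ Z.neighborSet v := by rw [hN]; simp
    exact this
  have htT : t ∈ T := by
    rcases h.edge_mem t v hvt.symm with h1 | h1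
    · exact absurd (hs v hvS hv3 t h1 s hsS hvt hadj) hts
    · exact h1
  have hu : t ∈ S ∪ Nb Z S := by rw [h.NS]; exact Or.inr htT
  rcases h.FOLD v t s t' hvS hsS hts htt hst hN with
    ⟨z1, z2, hz, hz1, hz2, h1, h2, h3, h4⟩ | ⟨-, t'', ht'', h1⟩ |
    ⟨A, hA, hA4, hpA, hqA, hyA, hcA, hcA', hno⟩ | ⟨A, hA, -, hpA, -⟩
  · exact no_type1 h hX hsS hu hts.symm hz1.symm hz2.symm hz hadj.symm h2 h4 hvt.symm h1 h3
  · have h2 : κ s = κ t := h.eq_of_adj hadj hvt
    exact h.ne_of_adj h1 (h2.trans (hm t htT t'' ht''))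
  · by_cases h2 : 2 ≤ (A ∩ S).ncard
    · exact no_alpha_big h hX hu hsS hvS hts htt hst hN hA hA4 hpA hqA hyA hcA hcA' hno h2
    · rw [Set.inter_eq_left.2 hA] at h2
      obtain ⟨-, u, huA, hu1⟩ := hpA
      obtain ⟨-, u', huA', hu2⟩ := hqA
      have h3 : A.ncard ≤ 1 := by omega
      have h4 : u = u' := (Set.ncard_le_one_iff (Set.toFinite _)).1 h3 huA huA'
      exact hno u huA ⟨hu1, h4 ▸ hu2⟩
  · exact Set.disjoint_left.1 h.disj (hA hpA) htT

/-- The part of the mixed case before the irreducible society. -/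
lemma final_cub_eq [Finite V] {Z : SimpleGraph V} {κ : V → ZMod 2} {S T : Set V}
    (h : Core Z κ S T) (hX : MinX Z S S) (hm : ¬ Mono κ T)
    (hK4 : (Cub Z S).ncard = 4)
    (hR : ∀ v ∈ S \ Cub Z S, (Z.neighborSet v).ncard = 4 ∧ Z.neighborSet v ⊆ S) :
    S \ Cub Z S = ∅ := by
  by_contra hne
  have hne' : (S \ Cub Z S).Nonempty := Set.nonempty_iff_ne_empty.2 hne
  have hsub : ∀ v ∈ S \ Cub Z S, ∀ u, Z.Adj v u → u ∉ S \ Cub Z S → u ∈ Cub Z S := by
    intro v hv u huv hu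
    by_contra hc
    exact hu ⟨(hR v hv).2 huv, hc⟩
  by_cases h2 : 2 ≤ (S \ Cub Z S).ncard
  · have h1 : Nb Z (S \ Cub Z S) ⊆ Cub Z S := by
      rintro u ⟨hu, v, hv, huv⟩
      exact hsub v hv u huv hu
    have h3 := h.P1 _ (Set.sdiff_subset (s := S) (t := Cub Z S)) h2
    have h4 := Set.ncard_le_ncard h1 (Set.toFinite _)
    have hne2 : S \ Cub Z S ≠ S := by
      intro he
      obtain ⟨k, hk⟩ : (Cub Z S).Nonempty := by
        rw [← Set.ncard_pos (Set.toFinite _), hK4]; norm_num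
      have : k ∈ S \ Cub Z S := by rw [he]; exact hk.1
      exact this.2 hk
    have h5 := hX.min _ Set.sdiff_subset hne2 hne' (by omega)
    obtain ⟨d, hd, hd3⟩ := LL_cubic h5 h2
    have := (hR d hd).1
    omega
  · have h1 : (S \ Cub Z S).ncard = 1 := by
      have := (Set.ncard_pos (Set.toFinite _)).2 hne'
      omega
    obtain ⟨z, hz⟩ := Set.ncard_eq_one.1 h1
    have hzR : z ∈ S \ Cub Z S := by rw [hz]; rfl
    have hNz : Z.neighborSet z = Cub Z S := by
      apply Set.eq_of_subset_of_ncard_le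
      · intro u hu
        apply hsub z hzR u hu
        rw [hz]
        intro hc
        have hc' : u = z := hc
        subst hc'
        exact Z.loopless.irrefl _ hu
      · rw [hK4, (hR z hzR).1]
      · exact Set.toFinite _
    apply hm
    have key : ∀ t ∈ T, ∃ u, Z.Adj z u ∧ Z.Adj u t := by
      intro t ht
      have ht' : t ∈ Nb Z S := by rw [h.NS]; exact ht
      obtain ⟨htS, u, hu, hut⟩ := ht'
      refine ⟨u, ?_, hut⟩
      have hu' : u ∈ Cub Z S := by
        by_contra hc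
        have : u ∈ S \ Cub Z S := ⟨hu, hc⟩
        exact htS ((hR u this).2 hut)
      have : u ∈ Z.neighborSet z := by rw [hNz]; exact hu'
      exact this
    intro t ht t' ht'
    obtain ⟨u, h1, h3⟩ := key t ht
    obtain ⟨u', h1', h3'⟩ := key t' ht'
    have h5 : κ u = κ u' := h.eq_of_adj h1 h1'
    exact eq_of_ne_of_ne (h.ne_of_adj h3).symm (h5 ▸ (h.ne_of_adj h3').symm)

/-- A vertex of `T` adjacent to one of two vertices of `S` of a colour is adjacent to both. -/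
lemma final_two [Finite V] {Z : SimpleGraph V} {κ : V → ZMod 2} {S T : Set V}
    (h : Core Z κ S T) {a b c d t : V} (hS : S = {a, b, c, d}) (hac : κ a = κ c)
    (hab : κ a ≠ κ b) (had : κ a ≠ κ d) (hn : (Z.neighborSet t ∩ S).ncard = 2)
    (hta : Z.Adj a t) : Z.Adj c t := by
  have hsub : Z.neighborSet t ∩ S ⊆ {a, c} := by
    rintro v ⟨hv, hvS⟩
    have hk : κ a = κ v := h.eq_of_adj hta.symm hv
    rw [hS] at hvS
    rcases hvS with rfl | rfl | rfl | hvd
    · exact Or.inl rfl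
    · exact absurd hk hab
    · exact Or.inr rfl
    · have hvd' : v = d := hvd
      rw [hvd'] at hk
      exact absurd hk had
  have hle : ({a, c} : Set V).ncard ≤ 2 := by
    have := Set.ncard_insert_le a ({c} : Set V)
    rw [Set.ncard_singleton] at this
    exact this
  have heq : Z.neighborSet t ∩ S = {a, c} :=
    Set.eq_of_subset_of_ncard_le hsub (by rw [hn]; exact hle) (Set.toFinite _)
  have hc : c ∈ Z.neighborSet t ∩ S := by rw [heq]; simp
  exact SimpleGraph.Adj.symm hc.1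

/-- The irreducible society `I8`. -/
lemma final_I8 [Finite V] {Z : SimpleGraph V} {κ : V → ZMod 2} {S T : Set V}
    (h : CoreD Z κ S T) {k1 k2 k3 k4 : V} (hS : S = {k1, k2, k3, k4})
    (n12 : k1 ≠ k2) (n13 : k1 ≠ k3) (n14 : k1 ≠ k4) (n23 : k2 ≠ k3) (n24 : k2 ≠ k4)
    (n34 : k3 ≠ k4) (a12 : Z.Adj k1 k2) (a34 : Z.Adj k3 k4) (h13 : κ k1 = κ k3)
    (hK : ∀ v ∈ S, (Z.neighborSet v ∩ T).ncard = 2)
    (hn : ∀ t ∈ T, (Z.neighborSet t ∩ S).ncard = 2) : False := by
  have hc := h.toCore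
  have c12 : κ k1 ≠ κ k2 := hc.ne_of_adj a12
  have c34 : κ k3 ≠ κ k4 := hc.ne_of_adj a34
  have c24 : κ k2 = κ k4 := by
    rw [← h13] at c34
    exact eq_of_ne_of_ne c12.symm c34.symm
  have m1 : k1 ∈ S := by rw [hS]; simp
  have m2 : k2 ∈ S := by rw [hS]; simp
  have m3 : k3 ∈ S := by rw [hS]; simp
  have m4 : k4 ∈ S := by rw [hS]; simp
  obtain ⟨t1, t2, n56, e1⟩ := Set.ncard_eq_two.1 (hK k1 m1)
  obtain ⟨t3, t4, n78, e2⟩ := Set.ncard_eq_two.1 (hK k2 m2)
  have q1 : t1 ∈ Z.neighborSet k1 ∩ T := by rw [e1]; simp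
  have q2 : t2 ∈ Z.neighborSet k1 ∩ T := by rw [e1]; simp
  have q3 : t3 ∈ Z.neighborSet k2 ∩ T := by rw [e2]; simp
  have q4 : t4 ∈ Z.neighborSet k2 ∩ T := by rw [e2]; simp
  have b1 : Z.Adj k1 t1 := q1.1
  have b2 : Z.Adj k1 t2 := q2.1
  have b3 : Z.Adj k2 t3 := q3.1
  have b4 : Z.Adj k2 t4 := q4.1
  have hS' : S = {k2, k1, k4, k3} := by
    rw [hS]; ext v; simp only [Set.mem_insert_iff, Set.mem_singleton_iff]; tauto
  have c14 : κ k1 ≠ κ k4 := fun hh => c12 (hh.trans c24.symm)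
  have c23 : κ k2 ≠ κ k3 := fun hh => c12 (h13.trans hh.symm)
  have b5 : Z.Adj k3 t1 := final_two hc hS h13 c12 c14 (hn t1 q1.2) b1
  have b6 : Z.Adj k3 t2 := final_two hc hS h13 c12 c14 (hn t2 q2.2) b2
  have b7 : Z.Adj k4 t3 := final_two hc hS' c24 c12.symm c23 (hn t3 q3.2) b3
  have b8 : Z.Adj k4 t4 := final_two hc hS' c24 c12.symm c23 (hn t4 q4.2) b4
  have d12 : κ t1 = κ t2 := hc.eq_of_adj b1 b2
  have d34 : κ t3 = κ t4 := hc.eq_of_adj b3 b4
  have d13 : κ t1 ≠ κ t3 := by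
    intro hh
    have h1 : κ t1 = κ k2 := hc.eq_of_adj b1 a12
    exact hc.ne_of_adj b3 (h1.symm.trans hh)
  have hST : ∀ v ∈ S, ∀ t ∈ T, v ≠ t := fun v hv t ht he =>
    Set.disjoint_left.1 h.disj hv (he ▸ ht)
  have n57 : t1 ≠ t3 := fun hh => d13 (by rw [hh])
  have n58 : t1 ≠ t4 := fun hh => d13 (by rw [hh, d34])
  have n67 : t2 ≠ t3 := fun hh => d13 (by rw [d12, hh])
  have n68 : t2 ≠ t4 := fun hh => d13 (by rw [d12, hh, d34])
  have hT : T = {t3, t4, t1, t2} := by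
    refine (Set.eq_of_subset_of_ncard_le ?_ ?_ (Set.toFinite _)).symm
    · intro v hv
      simp only [Set.mem_insert_iff, Set.mem_singleton_iff] at hv
      rcases hv with rfl | rfl | rfl | rfl
      · exact q3.2
      · exact q4.2
      · exact q1.2
      · exact q2.2
    · rw [h.T4, ncard4 n78 n57.symm n67.symm n58.symm n68.symm n56]
  apply h.noI8
  have hnd : [t3, t4, t1, t2, k1, k3, k2, k4].Nodup := by
    have w : ∀ v ∈ S, ∀ t ∈ T, t ≠ v := fun v hv t ht => (hST v hv t ht).symm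
    simp only [List.nodup_cons, List.mem_cons, List.not_mem_nil, or_false, not_or,
      not_false_eq_true, List.nodup_nil, and_true]
    refine ⟨⟨n78, n57.symm, n67.symm, w _ m1 _ q3.2, w _ m3 _ q3.2, w _ m2 _ q3.2,
      w _ m4 _ q3.2⟩, ⟨n58.symm, n68.symm, w _ m1 _ q4.2, w _ m3 _ q4.2, w _ m2 _ q4.2,
      w _ m4 _ q4.2⟩, ⟨n56, w _ m1 _ q1.2, w _ m3 _ q1.2, w _ m2 _ q1.2,
      w _ m4 _ q1.2⟩, ⟨w _ m1 _ q2.2, w _ m3 _ q2.2, w _ m2 _ q2.2,
      w _ m4 _ q2.2⟩, ⟨n13, n12, n14⟩, ⟨n23.symm, n34⟩, n24⟩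
  refine ⟨fun i => [t3, t4, t1, t2, k1, k3, k2, k4].get i, ?_, ?_, hT, d34, d12, ?_⟩
  · exact List.nodup_iff_injective_get.1 hnd
  · intro x y hxy
    fin_cases x <;> fin_cases y <;>
      first
        | exact absurd hxy (by decide)
        | assumption
        | exact SimpleGraph.Adj.symm (by assumption)
  · exact add_eq_one_iff.2 d13.symm

/-- `T` of two colours. -/
theorem mixed_false [Finite V] {Z : SimpleGraph V} {κ : V → ZMod 2} {S T : Set V}
    (h : CoreD Z κ S T) (hX : MinX Z S S) (hs : Star Z S) (hm : ¬ Mono κ T) : False := by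
  have hc := h.toCore
  have hf : fden Z S = 2 := by
    rw [h.P3, beta_of_not_mono hm, h.T4]; norm_num
  obtain ⟨-, hK4, hK, hR, hN⟩ := layer_count hc hX hs hf.le
  rw [h.NS] at hK hN
  have h0 := final_cub_eq hc hX hm hK4 hR
  have hSC : S = Cub Z S := by
    refine Set.Subset.antisymm ?_ (fun v hv => hv.1)
    rw [← Set.sdiff_eq_empty]
    exact h0
  have hS4 : S.ncard = 4 := by rw [hSC]; exact hK4
  have hK' : ∀ v ∈ S, (Z.neighborSet v ∩ T).ncard = 2 ∧ (Z.neighborSet v ∩ S).ncard = 1 := by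
    intro v hv
    exact hK v (by rw [← hSC]; exact hv)
  obtain ⟨k1, m1⟩ : S.Nonempty := by
    rw [← Set.ncard_pos (Set.toFinite _), hS4]; norm_num
  obtain ⟨k2, e1⟩ := Set.ncard_eq_one.1 (hK' k1 m1).2
  have w2 : k2 ∈ Z.neighborSet k1 ∩ S := by rw [e1]; rfl
  have a12 : Z.Adj k1 k2 := w2.1
  have m2 : k2 ∈ S := w2.2
  have uniq : ∀ u v w, u ∈ S → v ∈ S → w ∈ S → Z.Adj u v → Z.Adj u w → v = w := by
    intro u v w hu hv hw h1 h2
    obtain ⟨x, hx⟩ := Set.ncard_eq_one.1 (hK' u hu).2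
    have h3 : v ∈ Z.neighborSet u ∩ S := ⟨h1, hv⟩
    have h4 : w ∈ Z.neighborSet u ∩ S := ⟨h2, hw⟩
    rw [hx] at h3 h4
    exact (Set.mem_singleton_iff.1 h3).trans (Set.mem_singleton_iff.1 h4).symm
  obtain ⟨k, mk, hk⟩ : ∃ k ∈ S, k ∉ ({k1, k2} : Set V) := by
    by_contra hcon
    push Not at hcon
    have h1 := Set.ncard_le_ncard (show S ⊆ {k1, k2} from hcon) (Set.toFinite _)
    rw [hS4, Set.ncard_pair a12.ne] at h1
    omega
  simp only [Set.mem_insert_iff, Set.mem_singleton_iff, not_or] at hk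
  obtain ⟨k', e2⟩ := Set.ncard_eq_one.1 (hK' k mk).2
  have w3 : k' ∈ Z.neighborSet k ∩ S := by rw [e2]; rfl
  have akk : Z.Adj k k' := w3.1
  have mk' : k' ∈ S := w3.2
  have hk1 : k' ≠ k1 := by
    rintro rfl
    exact hk.2 (uniq k' k k2 m1 mk m2 akk.symm a12)
  have hk2 : k' ≠ k2 := by
    rintro rfl
    exact hk.1 (uniq k' k k1 m2 mk m1 akk.symm a12.symm)
  have hS : S = {k1, k2, k, k'} := by
    refine (Set.eq_of_subset_of_ncard_le ?_ ?_ (Set.toFinite _)).symm
    · intro v hv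
      simp only [Set.mem_insert_iff, Set.mem_singleton_iff] at hv
      rcases hv with rfl | rfl | rfl | rfl <;> assumption
    · rw [hS4, ncard4 a12.ne (Ne.symm hk.1) hk1.symm (Ne.symm hk.2) hk2.symm akk.ne]
  by_cases hcol : κ k1 = κ k
  · exact final_I8 h hS a12.ne (Ne.symm hk.1) hk1.symm (Ne.symm hk.2) hk2.symm akk.ne a12 akk hcol
      (fun v hv => (hK' v hv).1) hN
  · have hS' : S = {k1, k2, k', k} := by
      rw [hS]; ext v; simp only [Set.mem_insert_iff, Set.mem_singleton_iff]; tauto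
    exact final_I8 h hS' a12.ne hk1.symm (Ne.symm hk.1) hk2.symm (Ne.symm hk.2) akk.ne.symm a12
      akk.symm (eq_of_ne_of_ne hcol (hc.ne_of_adj akk).symm) (fun v hv => (hK' v hv).1) hN

/-- `f(S) ≤ 1` is impossible if `S` is minimal not in the list (tight version). -/
theorem mixed_falseB [Finite V] {Z : SimpleGraph V} {κ : V → ZMod 2} {S T : Set V}
    (h : Core Z κ S T) (hX : MinX Z S S) (hs : Star Z S) (hf : fden Z S ≤ 1) : False := by
  have h1 := (layer_count h hX hs (by linarith)).1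
  linarith

/-- The core situation of Theorem D is contradictory. -/
theorem core_false [Finite V] {Z : SimpleGraph V} {κ : V → ZMod 2} {S T : Set V}
    (h : CoreD Z κ S T) : False := by
  obtain ⟨X, hX⟩ : ∃ X, MinX Z S X := by
    first
      | exact exists_minX h.toCore (S_notLL h) h.noI7
  have hs := star h.toCore hX
  have hXS := X_eq_S h.toCore hX hs
  subst hXS
  by_cases hm : Mono κ T
  · refine mono_count h.toCore hX hs ?_ (mono_cubic h.toCore hX hs hm)
    rw [h.P3, beta_of_mono hm, h.T4]; norm_num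
  · exact mixed_false h hX hs hm

end Pool.Agent.Helper51.TDC
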