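import Pool.Agent.Helper51.TDC.LL

/-!
# Theorem D, core part 3: the exits of a fold inside a minimal non-list set
-/

set_option autoImplicit false

namespace Pool.Agent.Helper51.TDC

open SimpleGraph Pool.Agent.Helper57.TOK Pool.Agent.Helper57.TD

variable {V : Type*}

lemma mem_QQ_or {Z : SimpleGraph V} {A X : Set V} {v : V} (h1 : v ∈ A ∪ Nb Z A)
    (h2 : v ∈ X ∪ Nb Z X) : v ∈ A ∩ X ∨ v ∈ QQ Z A X := by
  rcases h1 with h1 | h1 <;> rcases h2 with h2 | h2
  · exact Or.inl ⟨h1, h2⟩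
  · exact Or.inr (Or.inl (Or.inr ⟨h2, h1⟩))
  · exact Or.inr (Or.inl (Or.inl ⟨h1, h2⟩))
  · exact Or.inr (Or.inr ⟨h1, h2⟩)

lemma mem_QQ_of {Z : SimpleGraph V} {A X : Set V} {v : V} (h1 : v ∈ Nb Z A)
    (h2 : v ∈ X ∪ Nb Z X) : v ∈ QQ Z A X := by
  rcases mem_QQ_or (Or.inr h1) h2 with h3 | h3
  · exact absurd h3.1 h1.1
  · exact h3

lemma mem_union_Nb {Z : SimpleGraph V} {Y : Set V} {u v : V} (hu : u ∈ Y) (h : Z.Adj u v) :
    v ∈ Y ∪ Nb Z Y := by
  rcases mem_or_Nb hu h with hh | hh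
  · exact Or.inl hh
  · exact Or.inr hh

lemma two_union [Finite V] {Z : SimpleGraph V} {S X : Set V} (hX : MinX Z S X) (A : Set V) :
    2 ≤ (A ∪ X).ncard := by
  have h1 := hX.size
  have h2 := Set.ncard_le_ncard (Set.subset_union_right : X ⊆ A ∪ X) (Set.toFinite _)
  omega

lemma two_le_of_mem [Finite V] {A : Set V} {u v : V} (hu : u ∈ A) (hv : v ∈ A) (huv : u ≠ v) :
    2 ≤ A.ncard := by
  have h1 : ({u, v} : Set V) ⊆ A := by
    rintro x (rfl | hx)
    · exact hu
    · rw [Set.mem_singleton_iff] at hx; rw [hx]; exact hv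
  have h2 := Set.ncard_le_ncard h1 (Set.toFinite _)
  rwa [Set.ncard_pair huv] at h2

/-- The intersection of a four-set with `X`, if it has at least two elements and is not `X`, is
in the list. -/
lemma inter_LL [Finite V] {Z : SimpleGraph V} {κ : V → ZMod 2} {S T : Set V}
    (h : Core Z κ S T) {X : Set V} (hX : MinX Z S X) {A : Set V} (hA : A ⊆ S)
    (hA4 : (Nb Z A).ncard = 4) (h2 : 2 ≤ (A ∩ X).ncard) {v : V} (hv : v ∈ X) (hvA : v ∉ A) :
    IsLL Z (A ∩ X) ∧ Nb Z (A ∩ X) = QQ Z A X := by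
  obtain ⟨h3, h4⟩ := h.uncross hA hX.sub hA4 hX.four h2
  refine ⟨hX.min (A ∩ X) Set.inter_subset_right ?_ ?_ h3, h4⟩
  · intro hh
    rw [← hh] at hv
    exact hvA hv.1
  · rw [← Set.ncard_pos (Set.toFinite _)]; omega

/-- Exit 1 (two further common neighbours) is impossible. -/
theorem no_type1 [Finite V] {Z : SimpleGraph V} {κ : V → ZMod 2} {S T : Set V}
    (h : Core Z κ S T) {X : Set V} (hX : MinX Z S X) {a b y z1 z2 : V} (ha : a ∈ X)
    (hb : b ∈ X ∪ Nb Z X) (hab : a ≠ b) (hyz1 : y ≠ z1) (hyz2 : y ≠ z2) (hzz : z1 ≠ z2)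
    (h1 : Z.Adj a y) (h3 : Z.Adj a z1) (h4 : Z.Adj a z2)
    (h5 : Z.Adj b y) (h6 : Z.Adj b z1) (h7 : Z.Adj b z2) : False := by
  classical
  obtain ⟨D, hDS, haD, hD2, hD4, haN, hbD, hyD, hz1D, hz2D⟩ :=
    h.TYPE1 a b y z1 z2 (hX.sub ha) hab hyz1 hyz2 hzz h1 h3 h4 h5 h6 h7
  have hQ := h.QQ_le hDS hX.sub hD4 hX.four (two_union hX D)
  have hyX := mem_union_Nb ha h1
  have hz1X := mem_union_Nb ha h3
  have hz2X := mem_union_Nb ha h4
  have qa : a ∈ QQ Z D X := mem_QQ_of haN (Or.inl ha)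
  have qb := mem_QQ_or hbD hb
  have qy := mem_QQ_or hyD hyX
  have qz1 := mem_QQ_or hz1D hz1X
  have qz2 := mem_QQ_or hz2D hz2X
  by_cases hE2 : 2 ≤ (D ∩ X).ncard
  · obtain ⟨hLL, hNb⟩ := inter_LL h hX hDS hD4 hE2 ha haD
    have conv : ∀ v, v ∈ D ∩ X ∨ v ∈ QQ Z D X → v ∈ (D ∩ X) ∪ Nb Z (D ∩ X) := by
      intro v hv
      rw [hNb]
      exact hv
    exact LL_type1 h (Set.inter_subset_left.trans hDS) hLL hE2 (fun hh => haD hh.1)
      (hNb ▸ qa) (conv b qb) (conv y qy) (conv z1 qz1) (conv z2 qz2) hab hyz1 hyz2 hzz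
      h1 h3 h4 h5 h6 h7
  · -- at most one element
    have kab : κ a = κ b := h.eq_of_adj h1.symm h5.symm
    have kyz1 : κ y = κ z1 := h.eq_of_adj h1 h3
    have kyz2 : κ y = κ z2 := h.eq_of_adj h1 h4
    have kay : κ a ≠ κ y := h.ne_of_adj h1
    have hay : a ≠ y := fun hh => kay (by rw [hh])
    have haz1 : a ≠ z1 := fun hh => kay (by rw [hh, kyz1])
    have haz2 : a ≠ z2 := fun hh => kay (by rw [hh, kyz2])
    have hby : b ≠ y := fun hh => kay (by rw [kab, hh])
    have hbz1 : b ≠ z1 := fun hh => kay (by rw [kab, hh, kyz1])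
    have hbz2 : b ≠ z2 := fun hh => kay (by rw [kab, hh, kyz2])
    have hF5 : ({a, b, y, z1, z2} : Set V).ncard = 5 :=
      ncard5 hab hay haz1 haz2 hby hbz1 hbz2 hyz1 hyz2 hzz
    have hFsub : ({a, b, y, z1, z2} : Set V) ⊆ (D ∩ X) ∪ QQ Z D X := by
      intro v hv
      simp only [Set.mem_insert_iff, Set.mem_singleton_iff] at hv
      rcases hv with rfl | rfl | rfl | rfl | rfl
      · exact Or.inr qa
      · exact qb
      · exact qy
      · exact qz1
      · exact qz2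
    have hle := Set.ncard_union_le (D ∩ X) (QQ Z D X)
    have hle2 := Set.ncard_le_ncard hFsub (Set.toFinite _)
    have hF : ({a, b, y, z1, z2} : Set V) = (D ∩ X) ∪ QQ Z D X :=
      Set.eq_of_subset_of_ncard_le hFsub (by omega) (Set.toFinite _)
    have hE1 : (D ∩ X).ncard = 1 := by omega
    obtain ⟨e, he⟩ := Set.ncard_eq_one.1 hE1
    have heD : e ∈ D ∩ X := by rw [he]; rfl
    have hNe : Z.neighborSet e ⊆ {a, b, y, z1, z2} := by
      rw [hF, ← Nb_singleton, ← he]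
      exact (Nb_inter_subset Z D X).trans Set.subset_union_right
    have heF : e ∈ ({a, b, y, z1, z2} : Set V) := by rw [hF]; exact Or.inl heD
    have heS := hDS heD.1
    have hdeg := h.deg3 e heS
    simp only [Set.mem_insert_iff, Set.mem_singleton_iff] at heF
    -- the common argument for `e ∈ {y, z1, z2}`
    have small : κ e = κ y → False := by
      intro hke
      have : Z.neighborSet e ⊆ {a, b} := by
        intro v hv
        have hv' := hNe hv
        have hkv : κ e ≠ κ v := h.ne_of_adj hv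
        simp only [Set.mem_insert_iff, Set.mem_singleton_iff] at hv' ⊢
        rcases hv' with rfl | rfl | rfl | rfl | rfl
        · exact Or.inl rfl
        · exact Or.inr rfl
        · exact absurd hke hkv
        · exact absurd (hke.trans kyz1) hkv
        · exact absurd (hke.trans kyz2) hkv
      have h8 := Set.ncard_le_ncard this (Set.toFinite _)
      rw [Set.ncard_pair hab] at h8
      omega
    rcases heF with rfl | rfl | rfl | rfl | rfl
    · exact haD heD.1
    · -- e = b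
      have hsub : Z.neighborSet e ⊆ {y, z1, z2} := by
        intro v hv
        have hv' := hNe hv
        have hkv : κ e ≠ κ v := h.ne_of_adj hv
        simp only [Set.mem_insert_iff, Set.mem_singleton_iff] at hv' ⊢
        rcases hv' with rfl | rfl | rfl | rfl | rfl
        · exact absurd kab.symm hkv
        · exact absurd rfl hkv
        · exact Or.inl rfl
        · exact Or.inr (Or.inl rfl)
        · exact Or.inr (Or.inr rfl)
      have h8 := Set.ncard_le_ncard hsub (Set.toFinite _)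
      rw [ncard3 hyz1 hyz2 hzz] at h8
      exact type1_aux h heS hab (by omega) hyz1 hyz2 hzz h1 h3 h4 h5 h6 h7
    · exact small rfl
    · exact small kyz1.symm
    · exact small kyz2.symm

/-- Exit `γ` is impossible. -/
theorem no_gamma [Finite V] {Z : SimpleGraph V} {κ : V → ZMod 2} {S T : Set V}
    (h : Core Z κ S T) {X : Set V} (hX : MinX Z S X) {a b y : V} (ha : a ∈ X) (hb : b ∈ X)
    (hy : y ∈ X) (hab : a ≠ b) (hya : Z.Adj y a) (hyb : Z.Adj y b) {A : Set V} (hA : A ⊆ S)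
    (hA4 : (Nb Z A).ncard = 4) (haA : a ∈ A) (hbA : b ∈ A) (hyA : y ∉ A)
    (hno : ∀ w, w ≠ y → ¬ (Z.Adj w a ∧ Z.Adj w b)) : False := by
  have hC2 : 2 ≤ (A ∩ X).ncard := two_le_of_mem ⟨haA, ha⟩ ⟨hbA, hb⟩ hab
  obtain ⟨hLL, -⟩ := inter_LL h hX hA hA4 hC2 hy hyA
  obtain ⟨w1, w2, hw, h1, h2, h3, h4⟩ := LL_common h.prop hLL ⟨haA, ha⟩ ⟨hbA, hb⟩ hab
    (h.eq_of_adj hya hyb)
  by_cases hw1 : w1 = y
  · exact hno w2 (fun hh => hw (hw1.trans hh.symm)) ⟨h3.symm, h4.symm⟩
  · exact hno w1 hw1 ⟨h1.symm, h2.symm⟩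

/-- Exit `α` with at least two common vertices is impossible. -/
theorem no_alpha_big [Finite V] {Z : SimpleGraph V} {κ : V → ZMod 2} {S T : Set V}
    (h : Core Z κ S T) {X : Set V} (hX : MinX Z S X) {a b c y : V} (ha : a ∈ X ∪ Nb Z X)
    (hb : b ∈ X) (hy : y ∈ X) (hab : a ≠ b) (hac : a ≠ c) (hbc : b ≠ c)
    (hNy : Z.neighborSet y = {a, b, c}) {A : Set V} (hA : A ⊆ S)
    (hA4 : (Nb Z A).ncard = 4) (haA : a ∈ Nb Z A) (hbA : b ∈ Nb Z A) (hyA : y ∉ A) (hcA : c ∉ A)
    (hcA' : c ∉ Nb Z A) (hno : ∀ w ∈ A, ¬ (Z.Adj w a ∧ Z.Adj w b))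
    (h2 : 2 ≤ (A ∩ X).ncard) : False := by
  have my := adj3 hNy
  have hya : Z.Adj y a := (my a).2 (by tauto)
  have hyb : Z.Adj y b := (my b).2 (by tauto)
  have hk : κ a = κ b := h.eq_of_adj hya hyb
  obtain ⟨hLL, hNb⟩ := inter_LL h hX hA hA4 h2 hb hbA.1
  have hout : ∀ v, v ∈ (A ∩ X) ∪ Nb Z (A ∩ X) → v ∈ A ∪ Nb Z A := by
    rintro v (hv | ⟨-, u, hu, hadj⟩)
    · exact Or.inl hv.1
    · exact mem_union_Nb hu.1 hadj
  have hcU : c ∉ A ∪ Nb Z A := by
    rintro (hh | hh)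
    · exact hcA hh
    · exact hcA' hh
  obtain ⟨w1, w2, e, g, c1, c2, c3, c4, c5, c6, c7, c8, c9, c10, c11, c12⟩ :=
    LL_alpha h hLL h2 hab hk (by rw [hNb]; exact mem_QQ_of haA ha)
      (by rw [hNb]; exact mem_QQ_of hbA (Or.inl hb)) (fun w hw => hno w hw.1)
  have hce : c ≠ e := fun hh => hcU (hout _ (hh ▸ c11))
  have hcg : c ≠ g := fun hh => hcU (hout _ (hh ▸ c12))
  have hyw1 : y ≠ w1 := fun hh => hyA (hh ▸ c1.1)
  have hyw2 : y ≠ w2 := fun hh => hyA (hh ▸ c2.1)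
  obtain ⟨D, hDS, d1, d2, d3, d4, d5⟩ := h.L1 w1 w2 y a b c e g (hX.sub c1.2) (hX.sub c2.2)
    (hX.sub hy) (hX.sub hb) c3 hyw1 hyw2 hab hce hcg hac.symm hbc.symm c6 c7 c8 c9 c10 c4 c5 hNy
  have hD2 : 2 ≤ (D ∩ X).ncard := two_le_of_mem ⟨d1, hy⟩ ⟨d2, c1.2⟩ hyw1
  obtain ⟨hLL', -⟩ := inter_LL h hX hDS d5 hD2 hb d4.1
  have hk1 : κ y = κ w1 := by
    have : Z.Adj w1 a := (adj3 c4 a).2 (by tauto)
    exact h.eq_of_adj hya.symm this.symm
  have hk2 : κ y = κ w2 := by
    have : Z.Adj w2 b := (adj3 c5 b).2 (by tauto)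
    exact h.eq_of_adj hyb.symm this.symm
  exact LL_no_three h.prop hLL' ⟨d1, hy⟩ ⟨d2, c1.2⟩ ⟨d3, c2.2⟩ hyw1 hyw2 c3 hk1 hk2

/-- Exit `α` with exactly one common vertex is impossible. -/
theorem no_alpha_one [Finite V] {Z : SimpleGraph V} {κ : V → ZMod 2} {S T : Set V}
    (h : Core Z κ S T) {X : Set V} (hX : MinX Z S X) {a b : V} (ha : a ∈ X)
    (hb : b ∈ X) (hab : a ≠ b) (hk : κ a = κ b) {A : Set V} (hA : A ⊆ S)
    (hA4 : (Nb Z A).ncard = 4) (haA : a ∈ Nb Z A) (hbA : b ∈ Nb Z A)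
    (hno : ∀ w ∈ A, ¬ (Z.Adj w a ∧ Z.Adj w b))
    (h1 : (A ∩ X).ncard = 1) : False := by
  classical
  obtain ⟨c0, hc0⟩ := Set.ncard_eq_one.1 h1
  have hcm : c0 ∈ A ∩ X := by rw [hc0]; rfl
  have hQ := h.QQ_le hA hX.sub hA4 hX.four (two_union hX A)
  have qa : a ∈ QQ Z A X := mem_QQ_of haA (Or.inl ha)
  have qb : b ∈ QQ Z A X := mem_QQ_of hbA (Or.inl hb)
  have hN : Z.neighborSet c0 ⊆ QQ Z A X := by
    rw [← Nb_singleton, ← hc0]; exact Nb_inter_subset Z A X
  have hdeg := h.deg3 c0 (hA hcm.1)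
  -- two elements of `QQ` outside `N(c0)` are impossible
  have main : ∀ u v, u ∈ QQ Z A X → v ∈ QQ Z A X → u ≠ v → u ∉ Z.neighborSet c0 →
      v ∉ Z.neighborSet c0 → False := by
    intro u v hu hv huv hu' hv'
    have hsub : Z.neighborSet c0 ∪ {u, v} ⊆ QQ Z A X := by
      rintro x (hx | hx)
      · exact hN hx
      · simp only [Set.mem_insert_iff, Set.mem_singleton_iff] at hx
        rcases hx with rfl | rfl
        · exact hu
        · exact hv
    have hle := Set.ncard_le_ncard hsub (Set.toFinite _)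
    have hdisj : Disjoint (Z.neighborSet c0) {u, v} := by
      rw [Set.disjoint_left]
      intro x hx hx'
      simp only [Set.mem_insert_iff, Set.mem_singleton_iff] at hx'
      rcases hx' with rfl | rfl
      · exact hu' hx
      · exact hv' hx
    rw [Set.ncard_union_eq hdisj (Set.toFinite _) (Set.toFinite _), Set.ncard_pair huv] at hle
    omega
  -- if `c0 ~ u` for `u ∈ {a, b}` with partner `v`
  have side : ∀ u v, u ∈ X → v ∈ X → κ u = κ v → v ∈ Nb Z A →
      (∀ w ∈ A, ¬ (Z.Adj w u ∧ Z.Adj w v)) → Z.Adj c0 u → v ∈ QQ Z A X → False := by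
    intro u v _ hv huv hvA hno' hc hvQ
    obtain ⟨-, w, hwA, hwv⟩ := hvA
    have hwc : w ≠ c0 := by
      rintro rfl
      exact hno' w hwA ⟨hc, hwv⟩
    have hwX : w ∉ X := by
      intro hwX
      have : w ∈ A ∩ X := ⟨hwA, hwX⟩
      rw [hc0, Set.mem_singleton_iff] at this
      exact hwc this
    have hwQ : w ∈ QQ Z A X := by
      rcases mem_QQ_or (Or.inl hwA) (mem_union_Nb hv hwv.symm) with hh | hh
      · exact absurd hh.2 hwX
      · exact hh
    have hcv : ¬ Z.Adj c0 v := fun hh => hno' c0 hcm.1 ⟨hc, hh⟩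
    have hcw : ¬ Z.Adj c0 w := by
      intro hh
      have e1 := h.eq_of_adj hc hh
      exact h.ne_of_adj hwv (e1.symm.trans huv)
    exact main v w hvQ hwQ hwv.ne.symm hcv hcw
  by_cases hca : Z.Adj c0 a
  · exact side a b ha hb hk hbA hno hca qb
  · by_cases hcb : Z.Adj c0 b
    · exact side b a hb ha hk.symm haA (fun w hw hh => hno w hw ⟨hh.2, hh.1⟩) hcb qa
    · exact main a b qa qb hab hca hcb

/-- Exit `α` with no common vertex. -/
theorem alpha_zero [Finite V] {Z : SimpleGraph V} {κ : V → ZMod 2} {S T : Set V}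
    (h : Core Z κ S T) {X : Set V} (hX : MinX Z S X) {a b c y : V} (ha : a ∈ X)
    (hb : b ∈ X) (hy : y ∈ X) (hab : a ≠ b) (hac : a ≠ c) (hbc : b ≠ c)
    (hNy : Z.neighborSet y = {a, b, c}) {A : Set V} (hA : A ⊆ S)
    (hA4 : (Nb Z A).ncard = 4) (haA : a ∈ Nb Z A) (hbA : b ∈ Nb Z A)
    (hno : ∀ w ∈ A, ¬ (Z.Adj w a ∧ Z.Adj w b))
    (h0 : A ∩ X = ∅) : ∃ p q r s, Omega Z X y a b c p q r s := by
  classical
  have hAX : ∀ v, v ∈ A → v ∉ X := by
    intro v hv hv'
    have : v ∈ A ∩ X := ⟨hv, hv'⟩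
    rw [h0] at this
    exact this
  have hQ := h.QQ_le hA hX.sub hA4 hX.four (two_union hX A)
  have qa : a ∈ QQ Z A X := mem_QQ_of haA (Or.inl ha)
  have qb : b ∈ QQ Z A X := mem_QQ_of hbA (Or.inl hb)
  obtain ⟨haA', p, hpA, hpa⟩ := id haA
  obtain ⟨hbA', q, hqA, hqb⟩ := id hbA
  have hpN : p ∈ Nb Z X := by
    rcases mem_union_Nb ha hpa.symm with hh | hh
    · exact absurd hh (hAX p hpA)
    · exact hh
  have hqN : q ∈ Nb Z X := by
    rcases mem_union_Nb hb hqb.symm with hh | hh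
    · exact absurd hh (hAX q hqA)
    · exact hh
  have hpq : p ≠ q := by
    rintro rfl
    exact hno p hpA ⟨hpa, hqb⟩
  have qp : p ∈ QQ Z A X := Or.inl (Or.inr ⟨hpN, hpA⟩)
  have qq : q ∈ QQ Z A X := Or.inl (Or.inr ⟨hqN, hqA⟩)
  have hap : a ≠ p := fun hh => haA' (hh ▸ hpA)
  have haq : a ≠ q := fun hh => haA' (hh ▸ hqA)
  have hbp : b ≠ p := fun hh => hbA' (hh ▸ hpA)
  have hbq : b ≠ q := fun hh => hbA' (hh ▸ hqA)
  have hF4 : ({a, b, p, q} : Set V).ncard = 4 := ncard4 hab hap haq hbp hbq hpq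
  have hFQ : ({a, b, p, q} : Set V) = QQ Z A X := by
    refine Set.eq_of_subset_of_ncard_le ?_ (by omega) (Set.toFinite _)
    intro v hv
    simp only [Set.mem_insert_iff, Set.mem_singleton_iff] at hv
    rcases hv with rfl | rfl | rfl | rfl
    · exact qa
    · exact qb
    · exact qp
    · exact qq
  have memQ : ∀ v, v ∈ QQ Z A X → v = a ∨ v = b ∨ v = p ∨ v = q := by
    intro v hv
    rw [← hFQ] at hv
    simpa only [Set.mem_insert_iff, Set.mem_singleton_iff] using hv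
  -- neighbours of a vertex of `A` in `X` are `a` or `b`
  have nbA : ∀ u ∈ A, ∀ x ∈ X, Z.Adj u x → x = a ∨ x = b := by
    intro u hu x hx hadj
    rcases mem_union_Nb hu hadj with hh | hh
    · exact absurd hx (hAX x hh)
    · have hxQ : x ∈ QQ Z A X := mem_QQ_of hh (Or.inl hx)
      rcases memQ x hxQ with hh2 | hh2 | hh2 | hh2
      · exact Or.inl hh2
      · exact Or.inr hh2
      · exact absurd hx (hAX x (hh2 ▸ hpA))
      · exact absurd hx (hAX x (hh2 ▸ hqA))
  have padj : ∀ x ∈ X, Z.Adj p x ↔ x = a := by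
    intro x hx
    constructor
    · intro hadj
      rcases nbA p hpA x hx hadj with hh | hh
      · exact hh
      · exact absurd ⟨hpa, hh ▸ hadj⟩ (hno p hpA)
    · rintro rfl; exact hpa
  have qadj : ∀ x ∈ X, Z.Adj q x ↔ x = b := by
    intro x hx
    constructor
    · intro hadj
      rcases nbA q hqA x hx hadj with hh | hh
      · exact absurd ⟨hh ▸ hadj, hqb⟩ (hno q hqA)
      · exact hh
    · rintro rfl; exact hqb
  -- the other two boundary vertices
  have hrs : ∃ r s, r ≠ s ∧ Nb Z X \ {p, q} = {r, s} := by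
    have h1 : ({p, q} : Set V) ⊆ Nb Z X := by
      intro v hv
      simp only [Set.mem_insert_iff, Set.mem_singleton_iff] at hv
      rcases hv with rfl | rfl
      · exact hpN
      · exact hqN
    have h2 := Set.ncard_sdiff_add_ncard_of_subset h1 (Set.toFinite _)
    rw [hX.four, Set.ncard_pair hpq] at h2
    have h3 : (Nb Z X \ {p, q}).ncard = 2 := by omega
    exact Set.ncard_eq_two.1 h3
  obtain ⟨r, s, hrs, hrs'⟩ := hrs
  have hr : r ∈ Nb Z X \ {p, q} := by rw [hrs']; simp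
  have hs : s ∈ Nb Z X \ {p, q} := by rw [hrs']; simp
  have hrp : p ≠ r := fun hh => hr.2 (by rw [← hh]; simp)
  have hrq : q ≠ r := fun hh => hr.2 (by rw [← hh]; simp)
  have hsp : p ≠ s := fun hh => hs.2 (by rw [← hh]; simp)
  have hsq : q ≠ s := fun hh => hs.2 (by rw [← hh]; simp)
  have NX : Nb Z X = {p, q, r, s} := by
    ext v
    simp only [Set.mem_insert_iff, Set.mem_singleton_iff]
    constructor
    · intro hv
      by_cases hvp : v = p
      · exact Or.inl hvp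
      by_cases hvq : v = q
      · exact Or.inr (Or.inl hvq)
      have : v ∈ Nb Z X \ {p, q} := ⟨hv, by simp [hvp, hvq]⟩
      rw [hrs'] at this
      simp only [Set.mem_insert_iff, Set.mem_singleton_iff] at this
      exact Or.inr (Or.inr this)
    · rintro (rfl | rfl | rfl | rfl)
      · exact hpN
      · exact hqN
      · exact hr.1
      · exact hs.1
  have hX1 : 2 ≤ (X \ {a, b}).ncard := by
    have h1 : ({a, b} : Set V) ⊆ X := by
      intro v hv
      simp only [Set.mem_insert_iff, Set.mem_singleton_iff] at hv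
      rcases hv with rfl | rfl
      · exact ha
      · exact hb
    have h2 := Set.ncard_sdiff_add_ncard_of_subset h1 (Set.toFinite _)
    rw [Set.ncard_pair hab] at h2
    have := hX.size
    omega
  have har : a ≠ r := fun hh => hr.1.1 (hh ▸ ha)
  have has : a ≠ s := fun hh => hs.1.1 (hh ▸ ha)
  have hbr : b ≠ r := fun hh => hr.1.1 (hh ▸ hb)
  have hbs : b ≠ s := fun hh => hs.1.1 (hh ▸ hb)
  have NX1 : Nb Z (X \ {a, b}) = {a, b, r, s} := by
    have hsub : Nb Z (X \ {a, b}) ⊆ {a, b, r, s} := by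
      rintro v ⟨hv, u, hu, hadj⟩
      simp only [Set.mem_insert_iff, Set.mem_singleton_iff]
      by_cases hvX : v ∈ X
      · by_contra hcon
        push Not at hcon
        apply hv
        refine ⟨hvX, ?_⟩
        simp only [Set.mem_insert_iff, Set.mem_singleton_iff]
        tauto
      · have hvN : v ∈ Nb Z X := ⟨hvX, u, hu.1, hadj⟩
        have hvN' := hvN
        rw [NX] at hvN
        simp only [Set.mem_insert_iff, Set.mem_singleton_iff] at hvN
        rcases hvN with rfl | rfl | rfl | rfl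
        · exfalso
          have := (padj u hu.1).1 hadj.symm
          exact hu.2 (by rw [this]; simp)
        · exfalso
          have := (qadj u hu.1).1 hadj.symm
          exact hu.2 (by rw [this]; simp)
        · tauto
        · tauto
    refine Set.eq_of_subset_of_ncard_le hsub ?_ (Set.toFinite _)
    rw [ncard4 hab har has hbr hbs hrs]
    exact h.P1 _ (Set.sdiff_subset.trans hX.sub) hX1
  exact ⟨p, q, r, s, hy, ha, hb, hab, hac, hbc, hNy, NX, hpq, hrp, hsp, hrq, hsq, hrs, padj, qadj,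
    NX1⟩

end Pool.Agent.Helper51.TDC
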