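import Pool.Agent.Helper51.TDC.Exits
import Pool.Agent.Helper51.TDC.Omega

/-!
# Theorem D, core part 5: a cubic vertex of a minimal non-list set has at most one neighbour in it
-/

set_option autoImplicit false

namespace Pool.Agent.Helper51.TDC

open SimpleGraph Pool.Agent.Helper57.TOK Pool.Agent.Helper57.TD

variable {V : Type*}

/-- A three-element set containing two given elements. -/
lemma third_of_ncard3 [Finite V] {N : Set V} (hN : N.ncard = 3) {u v : V} (hu : u ∈ N)
    (hv : v ∈ N) (huv : u ≠ v) : ∃ c, N = {u, v, c} ∧ u ≠ c ∧ v ≠ c := by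
  have h1 : ({u, v} : Set V) ⊆ N := by
    intro x hx
    simp only [Set.mem_insert_iff, Set.mem_singleton_iff] at hx
    rcases hx with rfl | rfl
    · exact hu
    · exact hv
  have h2 := Set.ncard_sdiff_add_ncard_of_subset h1 (Set.toFinite _)
  rw [Set.ncard_pair huv, hN] at h2
  have h3 : (N \ {u, v}).ncard = 1 := by omega
  obtain ⟨c, hc⟩ := Set.ncard_eq_one.1 h3
  have hcm : c ∈ N \ {u, v} := by rw [hc]; rfl
  refine ⟨c, ?_, fun hh => hcm.2 (by rw [← hh]; simp), fun hh => hcm.2 (by rw [← hh]; simp)⟩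
  ext x
  simp only [Set.mem_insert_iff, Set.mem_singleton_iff]
  constructor
  · intro hx
    by_cases hxu : x = u
    · exact Or.inl hxu
    by_cases hxv : x = v
    · exact Or.inr (Or.inl hxv)
    have : x ∈ N \ {u, v} := ⟨hx, by simp [hxu, hxv]⟩
    rw [hc, Set.mem_singleton_iff] at this
    exact Or.inr (Or.inr this)
  · rintro (rfl | rfl | rfl)
    · exact hu
    · exact hv
    · exact hcm.1

theorem star [Finite V] {Z : SimpleGraph V} {κ : V → ZMod 2} {S T : Set V}
    (h : Core Z κ S T) {X : Set V} (hX : MinX Z S X) : Star Z X := by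
  intro y hy hdeg u hu v hv hyu hyv
  by_contra huv
  obtain ⟨c, hNy, huc, hvc⟩ := third_of_ncard3 hdeg hyu hyv huv
  rcases h.FOLD y u v c (hX.sub hy) (hX.sub hv) huv huc hvc hNy with
    ⟨z1, z2, hz, h1, h2, h3, h4, h5, h6⟩ | ⟨huT, -⟩ | ⟨A, hA, hA4, h1, h2, h3, h4, h5, h6⟩ |
    ⟨A, hA, hA4, h1, h2, h3, h4, h5, h6⟩
  · exact no_type1 h hX hu (Or.inl hv) huv h1.symm h2.symm hz hyu.symm h3 h5 hyv.symm h4 h6
  · exact Set.disjoint_left.1 h.disj (hX.sub hu) huT
  · have hk : κ u = κ v := h.eq_of_adj hyu hyv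
    rcases Nat.lt_or_ge (A ∩ X).ncard 2 with hlt | hge
    · rcases Nat.lt_or_ge (A ∩ X).ncard 1 with hlt' | hge'
      · have h0 : A ∩ X = ∅ := by
          rw [← Set.ncard_eq_zero (Set.toFinite _)]; omega
        obtain ⟨p, q, r, s, hO⟩ := alpha_zero h hX hu hv hy huv huc hvc hNy hA hA4 h1 h2 h6 h0
        exact omega_false h hX hO
      · exact no_alpha_one h hX hu hv huv hk hA hA4 h1 h2 h6 (by omega)
    · exact no_alpha_big h hX (Or.inl hu) hv hy huv huc hvc hNy hA hA4 h1 h2 h3 h4 h5 h6 hge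
  · exact no_gamma h hX hu hv hy huv hyu hyv hA hA4 h1 h2 h3 h6

end Pool.Agent.Helper51.TDC
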