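import Pool.Agent.Helper57.TD.Core

/-!
# Theorem D, core part 0: further definitions
-/

set_option autoImplicit false

namespace Pool.Agent.Helper51.TDC

open SimpleGraph Pool.Agent.Helper57.TOK Pool.Agent.Helper57.TD

variable {V : Type*}

/-- The property `(*)`: a cubic vertex of `X` has at most one neighbour in `X`. -/
def Star (Z : SimpleGraph V) (X : Set V) : Prop :=
  ∀ y ∈ X, (Z.neighborSet y).ncard = 3 → ∀ u ∈ X, ∀ v ∈ X, Z.Adj y u → Z.Adj y v → u = v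

/-- The cubic vertices of `X`. -/
def Cub (Z : SimpleGraph V) (X : Set V) : Set V := {v | v ∈ X ∧ (Z.neighborSet v).ncard = 3}

/-- The situation of an `α` exit with `A ∩ X = ∅`. -/
structure Omega (Z : SimpleGraph V) (X : Set V) (y a b c p q r s : V) : Prop where
  yX : y ∈ X
  aX : a ∈ X
  bX : b ∈ X
  ab : a ≠ b
  ac : a ≠ c
  bc : b ≠ c
  Ny : Z.neighborSet y = {a, b, c}
  NX : Nb Z X = {p, q, r, s}
  pq : p ≠ q
  pr : p ≠ r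
  ps : p ≠ s
  qr : q ≠ r
  qs : q ≠ s
  rs : r ≠ s
  padj : ∀ x ∈ X, Z.Adj p x ↔ x = a
  qadj : ∀ x ∈ X, Z.Adj q x ↔ x = b
  NX1 : Nb Z (X \ {a, b}) = {a, b, r, s}

/-- The layer `L5`: `z ~ k1, k2, k3, k4` and `k_i ~ n_i, n_{i+1}`. -/
structure IsL5 (Z : SimpleGraph V) (X : Set V) (z k1 k2 k3 k4 n1 n2 n3 n4 : V) : Prop where
  eq : X = {z, k1, k2, k3, k4}
  Nz : Z.neighborSet z = {k1, k2, k3, k4}
  Nk1 : Z.neighborSet k1 = {z, n1, n2}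
  Nk2 : Z.neighborSet k2 = {z, n2, n3}
  Nk3 : Z.neighborSet k3 = {z, n3, n4}
  Nk4 : Z.neighborSet k4 = {z, n4, n1}
  NX : Nb Z X = {n1, n2, n3, n4}
  k12 : k1 ≠ k2
  k13 : k1 ≠ k3
  k14 : k1 ≠ k4
  k23 : k2 ≠ k3
  k24 : k2 ≠ k4
  k34 : k3 ≠ k4
  n12 : n1 ≠ n2
  n13 : n1 ≠ n3
  n14 : n1 ≠ n4
  n23 : n2 ≠ n3
  n24 : n2 ≠ n4
  n34 : n3 ≠ n4

end Pool.Agent.Helper51.TDC
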