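import Pool.Agent.Helper51.TDC.Defs

/-!
# Theorem D, core part 1: facts on the members of the list `IsLL`
-/

set_option autoImplicit false

namespace Pool.Agent.Helper51.TDC

open SimpleGraph Pool.Agent.Helper57.TOK Pool.Agent.Helper57.TD

variable {V : Type*}

lemma adj3 {Z : SimpleGraph V} {w a e g : V} (h : Z.neighborSet w = {a, e, g}) (x : V) :
    Z.Adj w x ↔ x = a ∨ x = e ∨ x = g := by
  rw [← SimpleGraph.mem_neighborSet, h]; simp

lemma perm3 (a b c : V) : ({a, b, c} : Set V) = {c, a, b} := by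
  ext z; simp only [Set.mem_insert_iff, Set.mem_singleton_iff]; tauto

lemma perm3' (a b c : V) : ({a, b, c} : Set V) = {b, a, c} := by
  ext z; simp only [Set.mem_insert_iff, Set.mem_singleton_iff]; tauto

lemma ncard3 {a b c : V} (hab : a ≠ b) (hac : a ≠ c) (hbc : b ≠ c) :
    ({a, b, c} : Set V).ncard = 3 := by
  rw [Set.ncard_insert_of_notMem (by simp [hab, hac]) (Set.toFinite _), Set.ncard_pair hbc]

lemma ncard4 {a b c d : V} (hab : a ≠ b) (hac : a ≠ c) (had : a ≠ d) (hbc : b ≠ c) (hbd : b ≠ d)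
    (hcd : c ≠ d) : ({a, b, c, d} : Set V).ncard = 4 := by
  rw [Set.ncard_insert_of_notMem (by simp [hab, hac, had]) (Set.toFinite _), ncard3 hbc hbd hcd]

lemma ncard5 {a b c d e : V} (hab : a ≠ b) (hac : a ≠ c) (had : a ≠ d) (hae : a ≠ e) (hbc : b ≠ c)
    (hbd : b ≠ d) (hbe : b ≠ e) (hcd : c ≠ d) (hce : c ≠ e) (hde : d ≠ e) :
    ({a, b, c, d, e} : Set V).ncard = 5 := by
  rw [Set.ncard_insert_of_notMem (by simp [hab, hac, had, hae]) (Set.toFinite _),
    ncard4 hbc hbd hbe hcd hce hde]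

lemma pne {Z : SimpleGraph V} {κ : V → ZMod 2} (hp : Proper Z κ) {u v : V}
    (h : Z.Adj u v) : κ u ≠ κ v := add_eq_one_iff.1 (hp u v h)

/-- Two different vertices of one colour in a list set have two common neighbours. -/
theorem LL_common {Z : SimpleGraph V} {κ : V → ZMod 2} (hp : Proper Z κ) {E : Set V}
    (hE : IsLL Z E) {a b : V} (ha : a ∈ E) (hb : b ∈ E) (hab : a ≠ b) (hk : κ a = κ b) :
    ∃ w1 w2, w1 ≠ w2 ∧ Z.Adj a w1 ∧ Z.Adj b w1 ∧ Z.Adj a w2 ∧ Z.Adj b w2 := by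
  rcases hE with ⟨x, rfl⟩ | ⟨w1, w2, a', b', e, g, h⟩ | ⟨x1, x2, p, q, r, s, h⟩ |
    ⟨w, y1, y2, n1, n2, n3, n4, h⟩ | ⟨x1, x2, y1, y2, p, q, r, s, h⟩
  · rw [Set.mem_singleton_iff] at ha hb
    exact absurd (ha.trans hb.symm) hab
  · have h1 := adj3 h.n1
    have h2 := adj3 h.n2
    have heg := h.eg
    rw [h.eq, Set.mem_insert_iff, Set.mem_singleton_iff] at ha hb
    refine ⟨e, g, heg, ?_, ?_, ?_, ?_⟩ <;> rcases ha with rfl | rfl <;> rcases hb with rfl | rfl <;>
      first | exact absurd rfl hab | (rw [h1]; tauto) | (rw [h2]; tauto)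
  · have h1 := adj3 h.n1
    rw [h.eq, Set.mem_insert_iff, Set.mem_singleton_iff] at ha hb
    have h3 : κ x1 ≠ κ x2 := pne hp ((h1 x2).2 (Or.inl rfl))
    rcases ha with rfl | rfl <;> rcases hb with rfl | rfl
    · exact absurd rfl hab
    · exact absurd hk h3
    · exact absurd hk.symm h3
    · exact absurd rfl hab
  · have h0 := adj3 h.nw
    have h1 := adj3 h.ny1
    have h2 := adj3 h.ny2
    rw [h.eq, Set.mem_insert_iff, Set.mem_insert_iff, Set.mem_singleton_iff] at ha hb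
    have h3 : κ w ≠ κ y1 := pne hp ((h0 y1).2 (by tauto))
    have h4 : κ w ≠ κ y2 := pne hp ((h0 y2).2 (by tauto))
    have ha' : a = y1 ∨ a = y2 := by
      rcases ha with rfl | ha
      · rcases hb with rfl | rfl | rfl
        · exact absurd rfl hab
        · exact absurd hk h3
        · exact absurd hk h4
      · exact ha
    have hb' : b = y1 ∨ b = y2 := by
      rcases hb with rfl | hb
      · rcases ha with rfl | rfl | rfl
        · exact absurd rfl hab
        · exact absurd hk.symm h3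
        · exact absurd hk.symm h4
      · exact hb
    refine ⟨w, n3, h.wn3, ?_, ?_, ?_, ?_⟩ <;> rcases ha' with rfl | rfl <;> rcases hb' with rfl | rfl <;>
      first | exact absurd rfl hab | (rw [h1]; tauto) | (rw [h2]; tauto)
  · have h1 := adj3 h.nx1
    have h2 := adj3 h.nx2
    have h3 := adj3 h.ny1
    have h4 := adj3 h.ny2
    rw [h.eq] at ha hb
    simp only [Set.mem_insert_iff, Set.mem_singleton_iff] at ha hb
    have e1 : κ x1 ≠ κ y1 := pne hp ((h1 y1).2 (by tauto))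
    have e2 : κ x1 ≠ κ y2 := pne hp ((h1 y2).2 (by tauto))
    have e3 : κ x2 ≠ κ y1 := pne hp ((h2 y1).2 (by tauto))
    have e4 : κ x2 ≠ κ y2 := pne hp ((h2 y2).2 (by tauto))
    have hcase : (a = x1 ∧ b = x2) ∨ (a = x2 ∧ b = x1) ∨ (a = y1 ∧ b = y2) ∨ (a = y2 ∧ b = y1) := by
      rcases ha with rfl | rfl | rfl | rfl <;> rcases hb with rfl | rfl | rfl | rfl <;>
        first | exact absurd rfl hab | (exact absurd hk (by assumption)) |
          (exact absurd hk.symm (by assumption)) | simp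
    rcases hcase with ⟨rfl, rfl⟩ | ⟨rfl, rfl⟩ | ⟨rfl, rfl⟩ | ⟨rfl, rfl⟩
    · exact ⟨y1, y2, h.yy, (h1 _).2 (by tauto), (h2 _).2 (by tauto), (h1 _).2 (by tauto),
        (h2 _).2 (by tauto)⟩
    · exact ⟨y1, y2, h.yy, (h2 _).2 (by tauto), (h1 _).2 (by tauto), (h2 _).2 (by tauto),
        (h1 _).2 (by tauto)⟩
    · exact ⟨x1, x2, h.xx, (h3 _).2 (by tauto), (h4 _).2 (by tauto), (h3 _).2 (by tauto),
        (h4 _).2 (by tauto)⟩
    · exact ⟨x1, x2, h.xx, (h4 _).2 (by tauto), (h3 _).2 (by tauto), (h4 _).2 (by tauto),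
        (h3 _).2 (by tauto)⟩

/-- A list set has at most two vertices of one colour. -/
theorem LL_no_three {Z : SimpleGraph V} {κ : V → ZMod 2} (hp : Proper Z κ) {E : Set V}
    (hE : IsLL Z E) {u v w : V} (hu : u ∈ E) (hv : v ∈ E) (hw : w ∈ E) (huv : u ≠ v)
    (huw : u ≠ w) (hvw : v ≠ w) (h1 : κ u = κ v) (h2 : κ u = κ w) : False := by
  have hk3 : κ v = κ w := h1.symm.trans h2
  rcases hE with ⟨x, rfl⟩ | ⟨w1, w2, a', b', e, g, h⟩ | ⟨x1, x2, p, q, r, s, h⟩ |
    ⟨w', y1, y2, n1, n2, n3, n4, h⟩ | ⟨x1, x2, y1, y2, p, q, r, s, h⟩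
  · rw [Set.mem_singleton_iff] at hu hv
    exact absurd (hu.trans hv.symm) huv
  · rw [h.eq, Set.mem_insert_iff, Set.mem_singleton_iff] at hu hv hw
    rcases hu with rfl | rfl <;> rcases hv with rfl | rfl <;> rcases hw with rfl | rfl <;>
      first | exact huv rfl | exact huw rfl | exact hvw rfl
  · rw [h.eq, Set.mem_insert_iff, Set.mem_singleton_iff] at hu hv hw
    rcases hu with rfl | rfl <;> rcases hv with rfl | rfl <;> rcases hw with rfl | rfl <;>
      first | exact huv rfl | exact huw rfl | exact hvw rfl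
  · have h0 := adj3 h.nw
    have e1 : κ w' ≠ κ y1 := pne hp ((h0 y1).2 (by tauto))
    have e2 : κ w' ≠ κ y2 := pne hp ((h0 y2).2 (by tauto))
    have e1' := e1.symm
    have e2' := e2.symm
    rw [h.eq] at hu hv hw
    simp only [Set.mem_insert_iff, Set.mem_singleton_iff] at hu hv hw
    rcases hu with rfl | rfl | rfl <;> rcases hv with rfl | rfl | rfl <;>
      rcases hw with rfl | rfl | rfl <;>
      first | exact huv rfl | exact huw rfl | exact hvw rfl | contradiction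
  · have h1' := adj3 h.nx1
    have h2' := adj3 h.nx2
    have e1 : κ x1 ≠ κ y1 := pne hp ((h1' y1).2 (by tauto))
    have e2 : κ x1 ≠ κ y2 := pne hp ((h1' y2).2 (by tauto))
    have e3 : κ x2 ≠ κ y1 := pne hp ((h2' y1).2 (by tauto))
    have e4 : κ x2 ≠ κ y2 := pne hp ((h2' y2).2 (by tauto))
    have e1' := e1.symm
    have e2' := e2.symm
    have e3' := e3.symm
    have e4' := e4.symm
    rw [h.eq] at hu hv hw
    simp only [Set.mem_insert_iff, Set.mem_singleton_iff] at hu hv hw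
    rcases hu with rfl | rfl | rfl | rfl <;> rcases hv with rfl | rfl | rfl | rfl <;>
      rcases hw with rfl | rfl | rfl | rfl <;>
      first | exact huv rfl | exact huw rfl | exact hvw rfl | contradiction

/-- A list set with at least two elements contains a cubic vertex. -/
theorem LL_cubic [Finite V] {Z : SimpleGraph V} {E : Set V} (hE : IsLL Z E) (h2 : 2 ≤ E.ncard) :
    ∃ d ∈ E, (Z.neighborSet d).ncard = 3 := by
  rcases hE with ⟨x, rfl⟩ | ⟨w1, w2, a', b', e, g, h⟩ | ⟨x1, x2, p, q, r, s, h⟩ |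
    ⟨w', y1, y2, n1, n2, n3, n4, h⟩ | ⟨x1, x2, y1, y2, p, q, r, s, h⟩
  · rw [Set.ncard_singleton] at h2; omega
  · refine ⟨w1, by rw [h.eq]; simp, ?_⟩
    rw [h.n1, ncard3 h.ae h.ag h.eg]
  · refine ⟨x1, by rw [h.eq]; simp, ?_⟩
    rw [h.n1, ncard3 h.px.symm h.qx.symm h.pq]
  · refine ⟨w', by rw [h.eq]; simp, ?_⟩
    rw [h.nw, ncard3 h.yy h.y1n h.y2n]
  · refine ⟨x1, by rw [h.eq]; simp, ?_⟩
    rw [h.nx1, ncard3 h.yy h.py1.symm h.py2.symm]

/-- A list set with at least three elements contains a cubic vertex with two neighbours in the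
set. -/
theorem LL_cubic2 [Finite V] {Z : SimpleGraph V} {E : Set V} (hE : IsLL Z E) (h3 : 3 ≤ E.ncard) :
    ∃ d ∈ E, (Z.neighborSet d).ncard = 3 ∧ ∃ u ∈ E, ∃ v ∈ E, u ≠ v ∧ Z.Adj d u ∧ Z.Adj d v := by
  rcases hE with ⟨x, rfl⟩ | ⟨w1, w2, a', b', e, g, h⟩ | ⟨x1, x2, p, q, r, s, h⟩ |
    ⟨w', y1, y2, n1, n2, n3, n4, h⟩ | ⟨x1, x2, y1, y2, p, q, r, s, h⟩
  · rw [Set.ncard_singleton] at h3; omega
  · rw [h.eq] at h3
    have := Set.ncard_insert_le w1 {w2}
    rw [Set.ncard_singleton] at this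
    omega
  · rw [h.eq] at h3
    have := Set.ncard_insert_le x1 {x2}
    rw [Set.ncard_singleton] at this
    omega
  · refine ⟨w', by rw [h.eq]; simp, ?_, y1, by rw [h.eq]; simp, y2, by rw [h.eq]; simp, h.yy, ?_, ?_⟩
    · rw [h.nw, ncard3 h.yy h.y1n h.y2n]
    · rw [adj3 h.nw]; tauto
    · rw [adj3 h.nw]; tauto
  · refine ⟨x1, by rw [h.eq]; simp, ?_, y1, by rw [h.eq]; simp, y2, by rw [h.eq]; simp, h.yy, ?_, ?_⟩
    · rw [h.nx1, ncard3 h.yy h.py1.symm h.py2.symm]
    · rw [adj3 h.nx1]; tauto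
    · rw [adj3 h.nx1]; tauto

lemma LL_all_cubic [Finite V] {Z : SimpleGraph V} {E : Set V} (hE : IsLL Z E)
    (h2 : 2 ≤ E.ncard) : ∀ d ∈ E, (Z.neighborSet d).ncard = 3 := by
  rcases hE with ⟨x, rfl⟩ | ⟨w1, w2, a', b', e, g, h⟩ | ⟨x1, x2, p, q, r, s, h⟩ |
    ⟨w', y1, y2, n1, n2, n3, n4, h⟩ | ⟨x1, x2, y1, y2, p, q, r, s, h⟩
  · rw [Set.ncard_singleton] at h2; omega
  · intro d hd
    rw [h.eq, Set.mem_insert_iff, Set.mem_singleton_iff] at hd
    rcases hd with rfl | rfl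
    · rw [h.n1, ncard3 h.ae h.ag h.eg]
    · rw [h.n2, ncard3 h.be h.bg h.eg]
  · intro d hd
    rw [h.eq, Set.mem_insert_iff, Set.mem_singleton_iff] at hd
    rcases hd with rfl | rfl
    · rw [h.n1, ncard3 h.px.symm h.qx.symm h.pq]
    · rw [h.n2, ncard3 h.rx.symm h.sx.symm h.rs]
  · intro d hd
    rw [h.eq, Set.mem_insert_iff, Set.mem_insert_iff, Set.mem_singleton_iff] at hd
    rcases hd with rfl | rfl | rfl
    · rw [h.nw, ncard3 h.yy h.y1n h.y2n]
    · rw [h.ny1, ncard3 h.wn1 h.wn3 h.n13]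
    · rw [h.ny2, ncard3 h.wn2 h.wn3 h.n23]
  · intro d hd
    rw [h.eq] at hd
    simp only [Set.mem_insert_iff, Set.mem_singleton_iff] at hd
    rcases hd with rfl | rfl | rfl | rfl
    · rw [h.nx1, ncard3 h.yy h.py1.symm h.py2.symm]
    · rw [h.nx2, ncard3 h.yy h.qy1.symm h.qy2.symm]
    · rw [h.ny1, ncard3 h.xx h.rx1.symm h.rx2.symm]
    · rw [h.ny2, ncard3 h.xx h.sx1.symm h.sx2.symm]

/-- Three common neighbours of `a` and a cubic vertex `d` of `S` contradict `T3`. -/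
lemma type1_aux [Finite V] {Z : SimpleGraph V} {κ : V → ZMod 2} {S T : Set V}
    (h : Core Z κ S T) {a d : V} (hd : d ∈ S) (had : a ≠ d) (hc : (Z.neighborSet d).ncard = 3)
    {y z1 z2 : V} (hyz1 : y ≠ z1) (hyz2 : y ≠ z2) (hzz : z1 ≠ z2)
    (h1 : Z.Adj a y) (h3 : Z.Adj a z1) (h4 : Z.Adj a z2)
    (h5 : Z.Adj d y) (h6 : Z.Adj d z1) (h7 : Z.Adj d z2) : False := by
  apply h.T3 a d hd had hc
  have hsub : ({y, z1, z2} : Set V) ⊆ Z.neighborSet d := by
    intro v hv
    simp only [Set.mem_insert_iff, Set.mem_singleton_iff] at hv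
    rcases hv with rfl | rfl | rfl <;> assumption
  have : ({y, z1, z2} : Set V) = Z.neighborSet d :=
    Set.eq_of_subset_of_ncard_le hsub (by rw [hc, ncard3 hyz1 hyz2 hzz]) (Set.toFinite _)
  rw [← this]
  intro v hv
  simp only [Set.mem_insert_iff, Set.mem_singleton_iff] at hv
  rcases hv with rfl | rfl | rfl <;> assumption

/-- The situation of a `TYPE1` exit is impossible in a list set. -/
theorem LL_type1 [Finite V] {Z : SimpleGraph V} {κ : V → ZMod 2} {S T : Set V}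
    (h : Core Z κ S T) {E : Set V} (hES : E ⊆ S) (hE : IsLL Z E) (h2 : 2 ≤ E.ncard)
    {a b y z1 z2 : V} (haE : a ∉ E) (ha : a ∈ Nb Z E) (hb : b ∈ E ∪ Nb Z E)
    (hy : y ∈ E ∪ Nb Z E) (hz1 : z1 ∈ E ∪ Nb Z E) (hz2 : z2 ∈ E ∪ Nb Z E) (hab : a ≠ b)
    (hyz1 : y ≠ z1) (hyz2 : y ≠ z2) (hzz : z1 ≠ z2)
    (h1 : Z.Adj a y) (h3 : Z.Adj a z1) (h4 : Z.Adj a z2)
    (h5 : Z.Adj b y) (h6 : Z.Adj b z1) (h7 : Z.Adj b z2) : False := by
  have hcub := LL_all_cubic hE h2
  by_cases hbE : b ∈ E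
  · exact type1_aux h (hES hbE) hab (hcub b hbE) hyz1 hyz2 hzz h1 h3 h4 h5 h6 h7
  have hb' : b ∈ Nb Z E := by
    rcases hb with hb | hb
    · exact absurd hb hbE
    · exact hb
  -- it is enough to find `d ∈ E` adjacent to all
  have key : ∀ d ∈ E, (∀ z, Z.Adj a z → Z.Adj b z → z ∈ E ∪ Nb Z E → Z.Adj d z) → False := by
    intro d hd hall
    exact type1_aux h (hES hd) (fun hh : a = d => haE (by rw [hh]; exact hd)) (hcub d hd) hyz1 hyz2 hzz h1 h3 h4
      (hall y h1 h5 hy) (hall z1 h3 h6 hz1) (hall z2 h4 h7 hz2)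
  have hkab : κ a = κ b := h.eq_of_adj h1.symm h5.symm
  have hka : ∀ z, Z.Adj a z → κ z ≠ κ a := fun z hz => (h.ne_of_adj hz).symm
  rcases hE with ⟨x, rfl⟩ | ⟨w1, w2, a', b', e, g, hL⟩ | ⟨x1, x2, p, q, r, s, hL⟩ |
    ⟨w', y1, y2, n1, n2, n3, n4, hL⟩ | ⟨x1, x2, y1, y2, p, q, r, s, hL⟩
  · rw [Set.ncard_singleton] at h2; omega
  · -- L1
    have m1 := adj3 hL.n1
    have m2 := adj3 hL.n2
    have hw : κ w1 = κ w2 :=
      h.eq_of_adj (((m1 e).2 (by tauto)).symm) (((m2 e).2 (by tauto)).symm)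
    have ha1 : κ a ≠ κ w1 := by
      obtain ⟨-, u, hu, hadj⟩ := ha
      rw [hL.eq, Set.mem_insert_iff, Set.mem_singleton_iff] at hu
      rcases hu with rfl | rfl
      · exact (h.ne_of_adj hadj).symm
      · rw [hw]; exact (h.ne_of_adj hadj).symm
    have hz : ∀ z, Z.Adj a z → z ∈ E ∪ Nb Z E → z = w1 ∨ z = w2 := by
      intro z hz hzE
      rcases hzE with hzE | ⟨-, u, hu, hadj⟩
      · rw [hL.eq, Set.mem_insert_iff, Set.mem_singleton_iff] at hzE
        exact hzE
      · exfalso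
        have e1 := hka z hz
        have e2 : κ z ≠ κ w1 := by
          rw [hL.eq, Set.mem_insert_iff, Set.mem_singleton_iff] at hu
          rcases hu with rfl | rfl
          · exact (h.ne_of_adj hadj).symm
          · rw [hw]; exact (h.ne_of_adj hadj).symm
        exact ha1 (eq_of_ne_of_ne e1.symm e2.symm)
    rcases hz y h1 hy with rfl | rfl <;> rcases hz z1 h3 hz1 with rfl | rfl <;>
      rcases hz z2 h4 hz2 with rfl | rfl <;>
      first | exact hyz1 rfl | exact hyz2 rfl | exact hzz rfl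
  · -- H
    have m1 := adj3 hL.n1
    have m2 := adj3 hL.n2
    have h12 : Z.Adj x1 x2 := (m1 x2).2 (by tauto)
    have hx := h.ne_of_adj h12
    have x1E : x1 ∈ E := by rw [hL.eq]; simp
    have x2E : x2 ∈ E := by rw [hL.eq]; simp
    obtain ⟨-, u, hu, hadj⟩ := ha
    have hu' : u = x1 ∨ u = x2 := by
      rw [hL.eq, Set.mem_insert_iff, Set.mem_singleton_iff] at hu
      exact hu
    rcases hu' with rfl | rfl
    · -- a ~ x1, use x2
      apply key x2 x2E
      intro z hz _ hzE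
      have e1 := hka z hz
      have e2 := h.ne_of_adj hadj
      have e3 : κ z = κ u := eq_of_ne_of_ne e1 e2
      rcases hzE with hzE | ⟨-, v, hv, hadj'⟩
      · rw [hL.eq, Set.mem_insert_iff, Set.mem_singleton_iff] at hzE
        rcases hzE with rfl | rfl
        · exact h12.symm
        · exact absurd e3.symm hx
      · rw [hL.eq, Set.mem_insert_iff, Set.mem_singleton_iff] at hv
        rcases hv with rfl | rfl
        · exact absurd e3.symm (h.ne_of_adj hadj')
        · exact hadj'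
    · apply key x1 x1E
      intro z hz _ hzE
      have e1 := hka z hz
      have e2 := h.ne_of_adj hadj
      have e3 : κ z = κ u := eq_of_ne_of_ne e1 e2
      rcases hzE with hzE | ⟨-, v, hv, hadj'⟩
      · rw [hL.eq, Set.mem_insert_iff, Set.mem_singleton_iff] at hzE
        rcases hzE with rfl | rfl
        · exact absurd e3 hx
        · exact h12
      · rw [hL.eq, Set.mem_insert_iff, Set.mem_singleton_iff] at hv
        rcases hv with rfl | rfl
        · exact hadj'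
        · exact absurd e3.symm (h.ne_of_adj hadj')
  · -- X3
    have m0 := adj3 hL.nw
    have m1 := adj3 hL.ny1
    have m2 := adj3 hL.ny2
    have k1 : κ w' ≠ κ y1 := h.ne_of_adj ((m0 y1).2 (by tauto))
    have k2 : κ w' ≠ κ y2 := h.ne_of_adj ((m0 y2).2 (by tauto))
    have wE : w' ∈ E := by rw [hL.eq]; simp
    by_cases haw : Z.Adj w' a
    · -- a = n4; b ∈ {y1, y2, n4}
      have e1 := h.ne_of_adj haw
      have e1b : κ w' ≠ κ b := hkab ▸ e1
      obtain ⟨-, v, hv, hadj⟩ := hb'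
      have hbw : Z.Adj w' b := by
        rw [hL.eq, Set.mem_insert_iff, Set.mem_insert_iff, Set.mem_singleton_iff] at hv
        rcases hv with rfl | rfl | rfl
        · exact hadj
        · exact absurd (eq_of_ne_of_ne k1.symm e1b.symm) (h.ne_of_adj hadj)
        · exact absurd (eq_of_ne_of_ne k2.symm e1b.symm) (h.ne_of_adj hadj)
      rw [m0] at haw hbw
      have ha4 : a = n4 := by
        rcases haw with rfl | rfl | rfl
        · exact absurd (by rw [hL.eq]; simp) haE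
        · exact absurd (by rw [hL.eq]; simp) haE
        · rfl
      have hb4 : b = n4 := by
        rcases hbw with rfl | rfl | rfl
        · exact absurd (by rw [hL.eq]; simp) hbE
        · exact absurd (by rw [hL.eq]; simp) hbE
        · rfl
      exact hab (ha4.trans hb4.symm)
    · apply key w' wE
      obtain ⟨-, v, hv, hadj⟩ := ha
      have hkaw : κ a = κ w' := by
        rw [hL.eq, Set.mem_insert_iff, Set.mem_insert_iff, Set.mem_singleton_iff] at hv
        rcases hv with rfl | rfl | rfl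
        · exact absurd hadj haw
        · exact eq_of_ne_of_ne (h.ne_of_adj hadj).symm k1
        · exact eq_of_ne_of_ne (h.ne_of_adj hadj).symm k2
      intro z hz _ hzE
      have e1 : κ z ≠ κ w' := hkaw ▸ hka z hz
      rcases hzE with hzE | ⟨-, v, hv, hadj'⟩
      · rw [hL.eq, Set.mem_insert_iff, Set.mem_insert_iff, Set.mem_singleton_iff] at hzE
        rcases hzE with rfl | rfl | rfl
        · exact absurd rfl e1
        · exact (m0 _).2 (by tauto)
        · exact (m0 _).2 (by tauto)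
      · rw [hL.eq, Set.mem_insert_iff, Set.mem_insert_iff, Set.mem_singleton_iff] at hv
        rcases hv with rfl | rfl | rfl
        · exact hadj'
        · exact absurd (eq_of_ne_of_ne k1.symm e1) (h.ne_of_adj hadj')
        · exact absurd (eq_of_ne_of_ne k2.symm e1) (h.ne_of_adj hadj')
  · -- Sq
    have m1 := adj3 hL.nx1
    have m2 := adj3 hL.nx2
    have m3 := adj3 hL.ny1
    have m4 := adj3 hL.ny2
    have k11 : κ x1 ≠ κ y1 := h.ne_of_adj ((m1 y1).2 (by tauto))
    have k12 : κ x1 ≠ κ y2 := h.ne_of_adj ((m1 y2).2 (by tauto))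
    have k21 : κ x2 ≠ κ y1 := h.ne_of_adj ((m2 y1).2 (by tauto))
    have k22 : κ x2 ≠ κ y2 := h.ne_of_adj ((m2 y2).2 (by tauto))
    have kx : κ x1 = κ x2 := eq_of_ne_of_ne k11 k21
    have ky : κ y1 = κ y2 := eq_of_ne_of_ne k11.symm k12.symm
    have memE : ∀ v, v ∈ E ↔ v = x1 ∨ v = x2 ∨ v = y1 ∨ v = y2 := by
      intro v; rw [hL.eq]; simp
    have x1E : x1 ∈ E := (memE _).2 (by tauto)
    have x2E : x2 ∈ E := (memE _).2 (by tauto)
    have y1E : y1 ∈ E := (memE _).2 (by tauto)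
    have y2E : y2 ∈ E := (memE _).2 (by tauto)
    -- outside vertices adjacent to the x's, to the y's
    have ox : ∀ v, v ∉ E → Z.Adj x1 v → v = p := by
      intro v hv hadj
      rcases (m1 v).1 hadj with rfl | rfl | rfl
      · exact absurd y1E hv
      · exact absurd y2E hv
      · rfl
    have ox2 : ∀ v, v ∉ E → Z.Adj x2 v → v = q := by
      intro v hv hadj
      rcases (m2 v).1 hadj with rfl | rfl | rfl
      · exact absurd y1E hv
      · exact absurd y2E hv
      · rfl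
    have oy : ∀ v, v ∉ E → Z.Adj y1 v → v = r := by
      intro v hv hadj
      rcases (m3 v).1 hadj with rfl | rfl | rfl
      · exact absurd x1E hv
      · exact absurd x2E hv
      · rfl
    have oy2 : ∀ v, v ∉ E → Z.Adj y2 v → v = s := by
      intro v hv hadj
      rcases (m4 v).1 hadj with rfl | rfl | rfl
      · exact absurd x1E hv
      · exact absurd x2E hv
      · rfl
    have hnotx1 : ∀ z, Z.Adj a z → Z.Adj b z → z ≠ x1 := by
      rintro z ha' hb'' rfl
      exact hab ((ox a haE ha'.symm).trans (ox b hbE hb''.symm).symm)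
    have hnotx2 : ∀ z, Z.Adj a z → Z.Adj b z → z ≠ x2 := by
      rintro z ha' hb'' rfl
      exact hab ((ox2 a haE ha'.symm).trans (ox2 b hbE hb''.symm).symm)
    have hnoty1 : ∀ z, Z.Adj a z → Z.Adj b z → z ≠ y1 := by
      rintro z ha' hb'' rfl
      exact hab ((oy a haE ha'.symm).trans (oy b hbE hb''.symm).symm)
    have hnoty2 : ∀ z, Z.Adj a z → Z.Adj b z → z ≠ y2 := by
      rintro z ha' hb'' rfl
      exact hab ((oy2 a haE ha'.symm).trans (oy2 b hbE hb''.symm).symm)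
    have hzout : ∀ z, Z.Adj a z → Z.Adj b z → z ∈ E ∪ Nb Z E → z ∉ E ∧ (Z.Adj x1 z ∨ Z.Adj x2 z ∨
        Z.Adj y1 z ∨ Z.Adj y2 z) := by
      intro z ha' hb'' hzE
      have hzn : z ∉ E := by
        intro hz
        rcases (memE z).1 hz with hh | hh | hh | hh
        · exact hnotx1 z ha' hb'' hh
        · exact hnotx2 z ha' hb'' hh
        · exact hnoty1 z ha' hb'' hh
        · exact hnoty2 z ha' hb'' hh
      refine ⟨hzn, ?_⟩
      rcases hzE with hzE | ⟨-, v, hv, hadj'⟩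
      · exact absurd hzE hzn
      · rcases (memE v).1 hv with rfl | rfl | rfl | rfl <;> tauto
    -- colour of `a`
    have hkx : κ a = κ x1 ∨ κ a = κ y1 := by
      by_cases hh : κ a = κ x1
      · exact Or.inl hh
      · exact Or.inr (eq_of_ne_of_ne hh k11.symm)
    rcases hkx with hkx | hkx
    · -- then z is adjacent to an x, so z ∈ {p, q}
      have hz : ∀ z, Z.Adj a z → Z.Adj b z → z ∈ E ∪ Nb Z E → z = p ∨ z = q := by
        intro z ha' hb'' hzE
        obtain ⟨hzn, hc⟩ := hzout z ha' hb'' hzE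
        have e1 : κ z ≠ κ x1 := hkx ▸ hka z ha'
        have e2 : κ z = κ y1 := eq_of_ne_of_ne e1 k11.symm
        rcases hc with hc | hc | hc | hc
        · exact Or.inl (ox z hzn hc)
        · exact Or.inr (ox2 z hzn hc)
        · exact absurd e2.symm (h.ne_of_adj hc)
        · exact absurd (ky.symm.trans e2.symm) (h.ne_of_adj hc)
      rcases hz y h1 h5 hy with rfl | rfl <;> rcases hz z1 h3 h6 hz1 with rfl | rfl <;>
        rcases hz z2 h4 h7 hz2 with rfl | rfl <;>
        first | exact hyz1 rfl | exact hyz2 rfl | exact hzz rfl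
    · have hz : ∀ z, Z.Adj a z → Z.Adj b z → z ∈ E ∪ Nb Z E → z = r ∨ z = s := by
        intro z ha' hb'' hzE
        obtain ⟨hzn, hc⟩ := hzout z ha' hb'' hzE
        have e1 : κ z ≠ κ y1 := hkx ▸ hka z ha'
        have e2 : κ z = κ x1 := eq_of_ne_of_ne e1 k11
        rcases hc with hc | hc | hc | hc
        · exact absurd e2.symm (h.ne_of_adj hc)
        · exact absurd (kx.symm.trans e2.symm) (h.ne_of_adj hc)
        · exact Or.inl (oy z hzn hc)
        · exact Or.inr (oy2 z hzn hc)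
      rcases hz y h1 h5 hy with rfl | rfl <;> rcases hz z1 h3 h6 hz1 with rfl | rfl <;>
        rcases hz z2 h4 h7 hz2 with rfl | rfl <;>
        first | exact hyz1 rfl | exact hyz2 rfl | exact hzz rfl

/-- Two boundary vertices of one colour without a common neighbour in a list set `E` come from an
L1 pair in `E`. -/
theorem LL_alpha [Finite V] {Z : SimpleGraph V} {κ : V → ZMod 2} {S T : Set V}
    (h : Core Z κ S T) {E : Set V} (hE : IsLL Z E) (h2 : 2 ≤ E.ncard) {a b : V} (hab : a ≠ b)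
    (hk : κ a = κ b) (ha : a ∈ Nb Z E) (hb : b ∈ Nb Z E)
    (hno : ∀ w ∈ E, ¬ (Z.Adj w a ∧ Z.Adj w b)) :
    ∃ w1 w2 e g, w1 ∈ E ∧ w2 ∈ E ∧ w1 ≠ w2 ∧ Z.neighborSet w1 = {a, e, g} ∧
      Z.neighborSet w2 = {b, e, g} ∧ e ≠ g ∧ a ≠ e ∧ a ≠ g ∧ b ≠ e ∧ b ≠ g ∧
      e ∈ E ∪ Nb Z E ∧ g ∈ E ∪ Nb Z E := by
  -- the last two conditions are automatic
  suffices hs : ∃ w1 w2 e g, w1 ∈ E ∧ w2 ∈ E ∧ w1 ≠ w2 ∧ Z.neighborSet w1 = {a, e, g} ∧
      Z.neighborSet w2 = {b, e, g} ∧ e ≠ g ∧ a ≠ e ∧ a ≠ g ∧ b ≠ e ∧ b ≠ g by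
    obtain ⟨w1, w2, e, g, c1, c2, c3, c4, c5, c6, c7, c8, c9, c10⟩ := hs
    refine ⟨w1, w2, e, g, c1, c2, c3, c4, c5, c6, c7, c8, c9, c10, ?_, ?_⟩
    · rcases mem_or_Nb c1 ((adj3 c4 e).2 (by tauto)) with hh | hh
      · exact Or.inl hh
      · exact Or.inr hh
    · rcases mem_or_Nb c1 ((adj3 c4 g).2 (by tauto)) with hh | hh
      · exact Or.inl hh
      · exact Or.inr hh
  obtain ⟨haE, u, hu, hua⟩ := ha
  obtain ⟨hbE, v, hv, hvb⟩ := hb
  have huv : u ≠ v := fun hh => hno u hu ⟨hua, hh ▸ hvb⟩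
  have hkuv : κ u = κ v :=
    eq_of_ne_of_ne (h.ne_of_adj hua) (hk ▸ h.ne_of_adj hvb)
  have hua' : ¬ Z.Adj u b := fun hh => hno u hu ⟨hua, hh⟩
  have hva' : ¬ Z.Adj v a := fun hh => hno v hv ⟨hh, hvb⟩
  rcases hE with ⟨x, rfl⟩ | ⟨w1, w2, a', b', e, g, hL⟩ | ⟨x1, x2, p, q, r, s, hL⟩ |
    ⟨w', y1, y2, n1, n2, n3, n4, hL⟩ | ⟨x1, x2, y1, y2, p, q, r, s, hL⟩
  · rw [Set.ncard_singleton] at h2; omega
  · have m1 := adj3 hL.n1
    have m2 := adj3 hL.n2
    rw [hL.eq, Set.mem_insert_iff, Set.mem_singleton_iff] at hu hv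
    have hcase : (u = w1 ∧ v = w2) ∨ (u = w2 ∧ v = w1) := by
      rcases hu with rfl | rfl <;> rcases hv with rfl | rfl
      · exact absurd rfl huv
      · exact Or.inl ⟨rfl, rfl⟩
      · exact Or.inr ⟨rfl, rfl⟩
      · exact absurd rfl huv
    rcases hcase with ⟨rfl, rfl⟩ | ⟨rfl, rfl⟩
    · rw [m1] at hua
      rw [m2] at hvb
      rw [m1] at hua'
      rw [m2] at hva'
      have ea : a = a' := by tauto
      have eb : b = b' := by tauto
      subst ea; subst eb
      exact ⟨u, v, e, g, by rw [hL.eq]; simp, by rw [hL.eq]; simp, huv, hL.n1, hL.n2, hL.eg,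
        hL.ae, hL.ag, hL.be, hL.bg⟩
    · rw [m2] at hua
      rw [m1] at hvb
      rw [m2] at hua'
      rw [m1] at hva'
      have ea : a = b' := by tauto
      have eb : b = a' := by tauto
      subst ea; subst eb
      exact ⟨u, v, e, g, by rw [hL.eq]; simp, by rw [hL.eq]; simp, huv, hL.n2, hL.n1, hL.eg,
        hL.be, hL.bg, hL.ae, hL.ag⟩
  · have m1 := adj3 hL.n1
    have hx : κ x1 ≠ κ x2 := h.ne_of_adj ((m1 x2).2 (by tauto))
    rw [hL.eq, Set.mem_insert_iff, Set.mem_singleton_iff] at hu hv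
    exfalso
    rcases hu with rfl | rfl <;> rcases hv with rfl | rfl
    · exact huv rfl
    · exact hx hkuv
    · exact hx hkuv.symm
    · exact huv rfl
  · have m0 := adj3 hL.nw
    have m1 := adj3 hL.ny1
    have m2 := adj3 hL.ny2
    have k1 : κ w' ≠ κ y1 := h.ne_of_adj ((m0 y1).2 (by tauto))
    have k2 : κ w' ≠ κ y2 := h.ne_of_adj ((m0 y2).2 (by tauto))
    have wE : w' ∈ E := by rw [hL.eq]; simp
    rw [hL.eq, Set.mem_insert_iff, Set.mem_insert_iff, Set.mem_singleton_iff] at hu hv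
    have hcase : (u = y1 ∧ v = y2) ∨ (u = y2 ∧ v = y1) := by
      rcases hu with rfl | rfl | rfl <;> rcases hv with rfl | rfl | rfl <;>
        first | exact absurd rfl huv | exact absurd hkuv k1 | exact absurd hkuv k2 |
          exact absurd hkuv.symm k1 | exact absurd hkuv.symm k2 | simp
    rcases hcase with ⟨rfl, rfl⟩ | ⟨rfl, rfl⟩
    · rw [m1] at hua
      rw [m2] at hvb
      rw [m1] at hua'
      rw [m2] at hva'
      have ea : a = n1 := by tauto
      have eb : b = n2 := by tauto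
      subst ea; subst eb
      refine ⟨u, v, w', n3, by rw [hL.eq]; simp, by rw [hL.eq]; simp, huv, ?_, ?_, hL.wn3,
        hL.wn1.symm, hL.n13, hL.wn2.symm, hL.n23⟩
      · rw [hL.ny1, perm3']
      · rw [hL.ny2, perm3']
    · rw [m2] at hua
      rw [m1] at hvb
      rw [m2] at hua'
      rw [m1] at hva'
      have ea : a = n2 := by tauto
      have eb : b = n1 := by tauto
      subst ea; subst eb
      refine ⟨u, v, w', n3, by rw [hL.eq]; simp, by rw [hL.eq]; simp, huv, ?_, ?_, hL.wn3,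
        hL.wn2.symm, hL.n23, hL.wn1.symm, hL.n13⟩
      · rw [hL.ny2, perm3']
      · rw [hL.ny1, perm3']
  · have m1 := adj3 hL.nx1
    have m2 := adj3 hL.nx2
    have m3 := adj3 hL.ny1
    have m4 := adj3 hL.ny2
    have k11 : κ x1 ≠ κ y1 := h.ne_of_adj ((m1 y1).2 (by tauto))
    have k12 : κ x1 ≠ κ y2 := h.ne_of_adj ((m1 y2).2 (by tauto))
    have k21 : κ x2 ≠ κ y1 := h.ne_of_adj ((m2 y1).2 (by tauto))
    have k22 : κ x2 ≠ κ y2 := h.ne_of_adj ((m2 y2).2 (by tauto))
    have memE : ∀ v, v ∈ E ↔ v = x1 ∨ v = x2 ∨ v = y1 ∨ v = y2 := by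
      intro v; rw [hL.eq]; simp
    have x1E : x1 ∈ E := (memE _).2 (by tauto)
    have x2E : x2 ∈ E := (memE _).2 (by tauto)
    have y1E : y1 ∈ E := (memE _).2 (by tauto)
    have y2E : y2 ∈ E := (memE _).2 (by tauto)
    have ox : ∀ v, v ∉ E → Z.Adj x1 v → v = p := by
      intro v hv hadj
      rcases (m1 v).1 hadj with rfl | rfl | rfl
      · exact absurd y1E hv
      · exact absurd y2E hv
      · rfl
    have ox2 : ∀ v, v ∉ E → Z.Adj x2 v → v = q := by
      intro v hv hadj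
      rcases (m2 v).1 hadj with rfl | rfl | rfl
      · exact absurd y1E hv
      · exact absurd y2E hv
      · rfl
    have oy : ∀ v, v ∉ E → Z.Adj y1 v → v = r := by
      intro v hv hadj
      rcases (m3 v).1 hadj with rfl | rfl | rfl
      · exact absurd x1E hv
      · exact absurd x2E hv
      · rfl
    have oy2 : ∀ v, v ∉ E → Z.Adj y2 v → v = s := by
      intro v hv hadj
      rcases (m4 v).1 hadj with rfl | rfl | rfl
      · exact absurd x1E hv
      · exact absurd x2E hv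
      · rfl
    have hu' := (memE u).1 hu
    have hv' := (memE v).1 hv
    have hcase : (u = x1 ∧ v = x2) ∨ (u = x2 ∧ v = x1) ∨ (u = y1 ∧ v = y2) ∨
        (u = y2 ∧ v = y1) := by
      rcases hu' with rfl | rfl | rfl | rfl <;> rcases hv' with rfl | rfl | rfl | rfl <;>
        first | exact absurd rfl huv | exact absurd hkuv (by assumption) |
          exact absurd hkuv.symm (by assumption) | simp
    rcases hcase with ⟨rfl, rfl⟩ | ⟨rfl, rfl⟩ | ⟨rfl, rfl⟩ | ⟨rfl, rfl⟩
    · have ea := ox a haE hua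
      have eb := ox2 b hbE hvb
      subst ea; subst eb
      refine ⟨u, v, y1, y2, hu, hv, huv, ?_, ?_, hL.yy, hL.py1, hL.py2, hL.qy1, hL.qy2⟩
      · rw [hL.nx1, perm3]
      · rw [hL.nx2, perm3]
    · have ea := ox2 a haE hua
      have eb := ox b hbE hvb
      subst ea; subst eb
      refine ⟨u, v, y1, y2, hu, hv, huv, ?_, ?_, hL.yy, hL.qy1, hL.qy2, hL.py1, hL.py2⟩
      · rw [hL.nx2, perm3]
      · rw [hL.nx1, perm3]
    · have ea := oy a haE hua
      have eb := oy2 b hbE hvb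
      subst ea; subst eb
      refine ⟨u, v, x1, x2, hu, hv, huv, ?_, ?_, hL.xx, hL.rx1, hL.rx2, hL.sx1, hL.sx2⟩
      · rw [hL.ny1, perm3]
      · rw [hL.ny2, perm3]
    · have ea := oy2 a haE hua
      have eb := oy b hbE hvb
      subst ea; subst eb
      refine ⟨u, v, x1, x2, hu, hv, huv, ?_, ?_, hL.xx, hL.sx1, hL.sx2, hL.rx1, hL.rx2⟩
      · rw [hL.ny2, perm3]
      · rw [hL.ny1, perm3]

end Pool.Agent.Helper51.TDC
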